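import Pool.Agent.V7H98.MLSPos

open Matrix Finset

namespace Pool.Agent.V7H98.MLS

noncomputable section

/-! The chain on `{0, …, N}`: the edges `{k, k+1}` have conductance `1/2`, the vertex `0` has weight
`W` and the other vertices have weight `1`. -/

/-- weights -/
def wt (W : ℝ) (k : ℕ) : ℝ := if k = 0 then W else 1

/-- `1 / (2 w)` -/
def al (W : ℝ) (k : ℕ) : ℝ := 1 / (2 * wt W k)

/-- transition probabilities -/
def tp (N : ℕ) (W : ℝ) (i j : ℕ) : ℝ :=
  (if j = i + 1 then al W i else 0) + (if j + 1 = i then al W i else 0) +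
    (if j = i then 1 - (if i < N then al W i else 0) - (if 0 < i then al W i else 0) else 0)

/-- the transition matrix -/
def PC (N : ℕ) (W : ℝ) : Matrix (Fin (N + 1)) (Fin (N + 1)) ℝ := fun i j => tp N W i.val j.val

/-- the stationary distribution -/
def pc (N : ℕ) (W : ℝ) : Fin (N + 1) → ℝ := fun i => wt W i.val / (W + N)

lemma wt_pos {W : ℝ} (hW : 0 < W) (k : ℕ) : 0 < wt W k := by
  unfold wt; split_ifs
  · exact hW
  · norm_num

lemma al_pos {W : ℝ} (hW : 0 < W) (k : ℕ) : 0 < al W k := by
  have := wt_pos hW k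
  unfold al; positivity

lemma al_succ (W : ℝ) (k : ℕ) : al W (k + 1) = 1 / 2 := by
  unfold al wt; simp

lemma wt_mul_al {W : ℝ} (hW : 0 < W) (k : ℕ) : wt W k * al W k = 1 / 2 := by
  have := wt_pos hW k
  unfold al; field_simp

lemma tp_nonneg (N : ℕ) {W : ℝ} (hW : 1 ≤ W) (i j : ℕ) : 0 ≤ tp N W i j := by
  have hW0 : 0 < W := by linarith
  have h := al_pos hW0 i
  have hd : 0 ≤ 1 - (if i < N then al W i else 0) - (if 0 < i then al W i else 0) := by
    rcases Nat.eq_zero_or_pos i with h0 | h0
    · subst h0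
      have : al W 0 ≤ 1 := by
        unfold al wt
        rw [if_pos rfl, div_le_one (by linarith)]
        linarith
      simp only [lt_irrefl, if_false, sub_zero]
      split_ifs <;> linarith
    · obtain ⟨k, rfl⟩ : ∃ k, i = k + 1 := ⟨i - 1, by omega⟩
      rw [al_succ]
      split_ifs <;> norm_num
  unfold tp
  have h1 : 0 ≤ (if j = i + 1 then al W i else 0) := by split_ifs <;> linarith
  have h2 : 0 ≤ (if j + 1 = i then al W i else 0) := by split_ifs <;> linarith
  have h3 : 0 ≤ (if j = i then 1 - (if i < N then al W i else 0) - (if 0 < i then al W i else 0)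
      else 0) := by
    by_cases hji : j = i
    · rw [if_pos hji]; exact hd
    · rw [if_neg hji]
  linarith

/-- The action of the transition matrix on functions. -/
lemma tp_sum {N : ℕ} {W : ℝ} {i : ℕ} (hi : i < N + 1) (g : ℕ → ℝ) :
    ∑ j ∈ range (N + 1), tp N W i j * g j =
      g i + (if i < N then al W i * (g (i + 1) - g i) else 0) +
        (if 0 < i then al W i * (g (i - 1) - g i) else 0) := by
  unfold tp
  simp only [add_mul, sum_add_distrib, ite_mul, zero_mul]
  have h1 : ∑ j ∈ range (N + 1), (if j = i + 1 then al W i * g j else 0) =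
      if i < N then al W i * g (i + 1) else 0 := by
    rw [Finset.sum_ite_eq' (range (N + 1)) (i + 1) (fun j => al W i * g j)]
    simp only [mem_range]
    congr 1
    simp
  have h2 : ∑ j ∈ range (N + 1), (if j + 1 = i then al W i * g j else 0) =
      if 0 < i then al W i * g (i - 1) else 0 := by
    rcases Nat.eq_zero_or_pos i with h0 | h0
    · subst h0; simp
    · obtain ⟨k, rfl⟩ : ∃ k, i = k + 1 := ⟨i - 1, by omega⟩
      simp only [Nat.add_right_cancel_iff]
      rw [Finset.sum_ite_eq' (range (N + 1)) k (fun j => al W (k + 1) * g j)]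
      rw [if_pos (mem_range.2 (by omega)), if_pos h0]
      simp
  have h3 : ∑ j ∈ range (N + 1), (if j = i then
      (1 - (if i < N then al W i else 0) - (if 0 < i then al W i else 0)) * g j else 0) =
      (1 - (if i < N then al W i else 0) - (if 0 < i then al W i else 0)) * g i := by
    rw [Finset.sum_ite_eq' (range (N + 1)) i
      (fun j => (1 - (if i < N then al W i else 0) - (if 0 < i then al W i else 0)) * g j)]
    rw [if_pos (mem_range.2 hi)]
  rw [h1, h2, h3]
  split_ifs <;> ring

lemma PC_sum {N : ℕ} {W : ℝ} (i : Fin (N + 1)) (g : ℕ → ℝ) :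
    ∑ j : Fin (N + 1), PC N W i j * g j.val =
      g i + (if i.val < N then al W i * (g (i + 1) - g i) else 0) +
        (if 0 < i.val then al W i * (g (i - 1) - g i) else 0) := by
  rw [← tp_sum i.2 g, ← Fin.sum_univ_eq_sum_range (fun j => tp N W i.val j * g j) (N + 1)]
  rfl

lemma pc_sum_mul {N : ℕ} {W : ℝ} (g : ℕ → ℝ) :
    ∑ i : Fin (N + 1), pc N W i * g i.val = (W * g 0 + ∑ k ∈ range N, g (k + 1)) / (W + N) := by
  have h : ∑ i : Fin (N + 1), pc N W i * g i.val =
      ∑ i ∈ range (N + 1), wt W i / (W + N) * g i := by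
    rw [← Fin.sum_univ_eq_sum_range (fun j => wt W j / (W + N) * g j) (N + 1)]
    rfl
  rw [h, sum_range_succ', add_comm, add_div, sum_div]
  congr 1
  · simp [wt]; ring
  · refine sum_congr rfl fun k _ => ?_
    simp [wt]; ring

lemma irred_aux {S : Type} [Fintype S] [DecidableEq S] {P : Matrix S S ℝ}
    (hP : ∀ x y, 0 ≤ P x y) {x y z : S} (h1 : ∃ n : ℕ, 0 < (P ^ n) x y)
    (h2 : ∃ n : ℕ, 0 < (P ^ n) y z) : ∃ n : ℕ, 0 < (P ^ n) x z := by
  obtain ⟨n, hn⟩ := h1
  obtain ⟨m, hm⟩ := h2
  refine ⟨n + m, ?_⟩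
  rw [pow_add, Matrix.mul_apply]
  exact lt_of_lt_of_le (mul_pos hn hm) (Finset.single_le_sum (f := fun w => (P ^ n) x w * (P ^ m) w z)
    (fun w _ => mul_nonneg (pow_nonneg_entries hP n x w) (pow_nonneg_entries hP m w z))
    (Finset.mem_univ y))

lemma isRevChain {N : ℕ} {W : ℝ} (hW : 1 ≤ W) : IsRevChain (PC N W) (pc N W) := by
  have hW0 : 0 < W := by linarith
  have hZ : 0 < W + N := by positivity
  have hnn : ∀ x y, 0 ≤ PC N W x y := fun x y => tp_nonneg N hW _ _
  refine ⟨hnn, fun x => ?_, ?_, fun x => ?_, ?_, fun x y => ?_⟩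
  · have := PC_sum (N := N) (W := W) x (fun _ => 1)
    simpa using this
  · -- irreducibility
    have hup : ∀ k (hk : k + 1 < N + 1), ∃ n : ℕ, 0 < ((PC N W) ^ n) ⟨k, by omega⟩ ⟨k + 1, hk⟩ := by
      intro k hk
      refine ⟨1, ?_⟩
      rw [pow_one]
      show 0 < tp N W k (k + 1)
      unfold tp
      rw [if_pos rfl, if_neg (by omega), if_neg (by omega), add_zero, add_zero]
      exact al_pos hW0 k
    have hdn : ∀ k (hk : k + 1 < N + 1), ∃ n : ℕ, 0 < ((PC N W) ^ n) ⟨k + 1, hk⟩ ⟨k, by omega⟩ := by
      intro k hk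
      refine ⟨1, ?_⟩
      rw [pow_one]
      show 0 < tp N W (k + 1) k
      unfold tp
      rw [if_neg (by omega), if_pos rfl, if_neg (by omega), add_zero, zero_add]
      exact al_pos hW0 (k + 1)
    have hrefl : ∀ x, ∃ n : ℕ, 0 < ((PC N W) ^ n) x x := fun x => ⟨0, by simp⟩
    have h0 : ∀ k (hk : k < N + 1), ∃ n : ℕ, 0 < ((PC N W) ^ n) ⟨0, by omega⟩ ⟨k, hk⟩ := by
      intro k
      induction k with
      | zero => intro hk; exact hrefl _
      | succ k ih => intro hk; exact irred_aux hnn (ih (by omega)) (hup k hk)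
    have h1 : ∀ k (hk : k < N + 1), ∃ n : ℕ, 0 < ((PC N W) ^ n) ⟨k, hk⟩ ⟨0, by omega⟩ := by
      intro k
      induction k with
      | zero => intro hk; exact hrefl _
      | succ k ih => intro hk; exact irred_aux hnn (hdn k hk) (ih (by omega))
    intro x y
    exact irred_aux hnn (h1 x.1 x.2) (h0 y.1 y.2)
  · exact div_nonneg (wt_pos hW0 _).le hZ.le
  · have := pc_sum_mul (N := N) (W := W) (fun _ => 1)
    simp only [mul_one, sum_const, card_range, nsmul_eq_mul] at this
    rw [this, div_self hZ.ne']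
  · show wt W x.val / (W + N) * tp N W x.val y.val = wt W y.val / (W + N) * tp N W y.val x.val
    have hsym : wt W x.val * tp N W x.val y.val = wt W y.val * tp N W y.val x.val := by
      generalize x.val = i
      generalize y.val = j
      unfold tp
      simp only [mul_add, mul_ite, mul_zero, wt_mul_al hW0]
      by_cases hij : i = j
      · subst hij; rfl
      · have e1 : (if j = i + 1 then (1 / 2 : ℝ) else 0) = if i + 1 = j then 1 / 2 else 0 := by
          by_cases h : j = i + 1
          · rw [if_pos h, if_pos h.symm]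
          · rw [if_neg h, if_neg (fun h' => h h'.symm)]
        have e2 : (if j + 1 = i then (1 / 2 : ℝ) else 0) = if i = j + 1 then 1 / 2 else 0 := by
          by_cases h : j + 1 = i
          · rw [if_pos h, if_pos h.symm]
          · rw [if_neg h, if_neg (fun h' => h h'.symm)]
        have e3 : ¬ (j = i) := fun h => hij h.symm
        rw [e1, e2, if_neg hij, if_neg e3]
        ring
    rw [div_mul_eq_mul_div, div_mul_eq_mul_div, hsym]

/-- Summation by parts. -/
lemma dir_PC {N : ℕ} {W : ℝ} (hW : 1 ≤ W) (f g : ℕ → ℝ) :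
    Dir (PC N W) (pc N W) (fun i => f i.val) (fun i => g i.val) =
      (∑ k ∈ range N, (1 / 2) * (f (k + 1) - f k) * (g (k + 1) - g k)) / (W + N) := by
  have hW0 : 0 < W := by linarith
  have hZ : 0 < W + N := by positivity
  unfold Dir
  have h1 : ∀ x : Fin (N + 1), pc N W x * ((1 - PC N W) *ᵥ fun i => f i.val) x * g x.val =
      -((if x.val < N then (1 / 2) * (f (x + 1) - f x) else 0) +
        (if 0 < x.val then (1 / 2) * (f (x - 1) - f x) else 0)) * g x.val / (W + N) := by
    intro x
    have e1 : ((1 - PC N W) *ᵥ fun i => f i.val) x =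
        -((if x.val < N then al W x * (f (x + 1) - f x) else 0) +
          (if 0 < x.val then al W x * (f (x - 1) - f x) else 0)) := by
      rw [Matrix.sub_mulVec, Matrix.one_mulVec, Pi.sub_apply]
      have e2 : (PC N W *ᵥ fun i => f i.val) x = ∑ j : Fin (N + 1), PC N W x j * f j.val := rfl
      rw [e2, PC_sum]
      ring
    rw [e1]
    have e3 := wt_mul_al hW0 x.val
    unfold pc
    have e4 : wt W x.val * -((if x.val < N then al W x * (f (x + 1) - f x) else 0) +
          (if 0 < x.val then al W x * (f (x - 1) - f x) else 0)) =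
        -((if x.val < N then (1 / 2) * (f (x + 1) - f x) else 0) +
        (if 0 < x.val then (1 / 2) * (f (x - 1) - f x) else 0)) := by
      rw [← e3]
      split_ifs <;> ring
    rw [← e4]
    ring
  rw [sum_congr rfl fun x _ => h1 x, ← sum_div]
  congr 1
  rw [Fin.sum_univ_eq_sum_range (fun x => -((if x < N then (1 / 2) * (f (x + 1) - f x) else 0) +
        (if 0 < x then (1 / 2) * (f (x - 1) - f x) else 0)) * g x) (N + 1)]
  simp only [neg_mul, add_mul, sum_neg_distrib, sum_add_distrib]
  have h2 : ∑ x ∈ range (N + 1), (if x < N then (1 / 2) * (f (x + 1) - f x) else 0) * g x =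
      ∑ x ∈ range N, (1 / 2) * (f (x + 1) - f x) * g x := by
    rw [sum_range_succ]
    simp only [lt_irrefl, if_false, zero_mul, add_zero]
    refine sum_congr rfl fun x hx => ?_
    rw [if_pos (mem_range.1 hx)]
  have h3 : ∑ x ∈ range (N + 1), (if 0 < x then (1 / 2) * (f (x - 1) - f x) else 0) * g x =
      ∑ x ∈ range N, (1 / 2) * (f x - f (x + 1)) * g (x + 1) := by
    rw [sum_range_succ']
    simp
  rw [h2, h3, ← sum_add_distrib, ← sum_neg_distrib]
  refine sum_congr rfl fun x _ => by ring

end

end Pool.Agent.V7H98.MLS
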