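import Mathlib

/-!
# Definitions for MP_bada7b_pr: modified log-Sobolev constant, entropy mixing time and
entropy hitting-time parameter of a finite reversible Markov chain.
-/

open Matrix

namespace Pool.Agent.V7H98.MLS

noncomputable section

variable {S : Type} [Fintype S] [DecidableEq S]

/-- `P` is the transition matrix of an irreducible Markov chain on the finite set `S` which is
reversible with respect to the probability vector `π` (its stationary distribution). -/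
structure IsRevChain (P : Matrix S S ℝ) (π : S → ℝ) : Prop where
  nonneg : ∀ x y, 0 ≤ P x y
  row_sum : ∀ x, ∑ y, P x y = 1
  irred : ∀ x y, ∃ n : ℕ, 0 < (P ^ n) x y
  pi_nonneg : ∀ x, 0 ≤ π x
  pi_sum : ∑ x, π x = 1
  reversible : ∀ x y, π x * P x y = π y * P y x

/-- The Dirichlet form `ℰ(f, g) = ⟨(I - P) f, g⟩_π`. -/
def Dir (P : Matrix S S ℝ) (π : S → ℝ) (f g : S → ℝ) : ℝ :=
  ∑ x, π x * ((1 - P) *ᵥ f) x * g x

/-- The mean `E_π f`. -/
def mean (π f : S → ℝ) : ℝ := ∑ x, π x * f x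

/-- `Ent_π(f) = E_π[f log f] - E_π[f] log E_π[f]`. -/
def Ent (π f : S → ℝ) : ℝ :=
  mean π (fun x => f x * Real.log (f x)) - mean π f * Real.log (mean π f)

/-- The modified log-Sobolev constant
`c_MLS = inf { ℰ(e^f, f) / Ent_π(e^f) : f non-constant }`. -/
def cMLS (P : Matrix S S ℝ) (π : S → ℝ) : ℝ :=
  sInf {r | ∃ f : S → ℝ, (∃ x y, f x ≠ f y) ∧
    r = Dir P π (fun x => Real.exp (f x)) f / Ent π (fun x => Real.exp (f x))}

/-- `semi K t = e^{-t (I - K)}`. For `K = P` this is the heat kernel `H_t` of the continuous time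
chain. -/
def semi (K : Matrix S S ℝ) (t : ℝ) : Matrix S S ℝ := NormedSpace.exp (-(t • (1 - K)))

/-- Relative entropy `D(μ ‖ π) = ∑ μ(x) log (μ(x) / π(x))`. -/
def relEnt (μ π : S → ℝ) : ℝ := ∑ x, μ x * Real.log (μ x / π x)

/-- Entropy mixing time `τ_ent = max_x inf {t ≥ 0 : D(H_t(x, ·) ‖ π) ≤ 1/2}`. -/
def tauEnt (P : Matrix S S ℝ) (π : S → ℝ) : ℝ :=
  ⨆ x, sInf {t : ℝ | 0 ≤ t ∧ relEnt (fun y => semi P t x y) π ≤ 1 / 2}

/-- The restriction of `P` to `A × A` (all other entries `0`). -/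
def killed (P : Matrix S S ℝ) (A : Finset S) : Matrix S S ℝ :=
  fun x y => if x ∈ A ∧ y ∈ A then P x y else 0

/-- The probability `Pr_x[T_{A^c} > t]` that the continuous time chain started at `x` stays in `A`
during `[0, t]`, by the usual formula `(e^{-t (I - P_A)} 1_A)(x)` with `P_A` the restriction
of `P` to `A × A`. -/
def stay (P : Matrix S S ℝ) (A : Finset S) (t : ℝ) (x : S) : ℝ :=
  (semi (killed P A) t *ᵥ (fun y => if y ∈ A then 1 else 0)) x

/-- `A` is connected: any `b ∈ A` can be reached from any `a ∈ A` inside `A`. -/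
def Conn (P : Matrix S S ℝ) (A : Finset S) : Prop :=
  A.Nonempty ∧ ∀ a ∈ A, ∀ b ∈ A, ∃ n : ℕ, 0 < ((killed P A) ^ n) a b

/-- `π(A)`. -/
def mass (π : S → ℝ) (A : Finset S) : ℝ := ∑ x ∈ A, π x

/-- Entropy hitting-time parameter
`ρ_ent = max_x min {t ≥ 0 : Pr_x[T_{A^c} > t] ≤ min (c / |log π(A)|, 99/100) for all A ∈ Con_{1/2}}`,
with the constant `c = C_ent`. -/
def rhoEnt (c : ℝ) (P : Matrix S S ℝ) (π : S → ℝ) : ℝ :=
  ⨆ x, sInf {t : ℝ | 0 ≤ t ∧ ∀ A : Finset S, Conn P A → mass π A ≤ 1 / 2 →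
    stay P A t x ≤ min (c / |Real.log (mass π A)|) (99 / 100)}

end

end Pool.Agent.V7H98.MLS
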