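import Pool.Agent.V7H98.MLSChain

open Matrix Finset

namespace Pool.Agent.V7H98.MLS

noncomputable section

/-- the angle `π / (2N + 1)` -/
def th (N : ℕ) : ℝ := Real.pi / (2 * N + 1)

lemma th_pos (N : ℕ) : 0 < th N := div_pos Real.pi_pos (by positivity)

lemma th_mul (N : ℕ) : th N * (2 * N + 1) = Real.pi := by
  unfold th; field_simp

/-- the Lyapunov function -/
def hh (N k : ℕ) : ℝ := Real.sin (th N * k) / Real.sin (th N)

lemma sin_th_pos {N : ℕ} (hN : 1 ≤ N) : 0 < Real.sin (th N) := by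
  have h1 := th_pos N
  have h2 := th_mul N
  have hN' : (1 : ℝ) ≤ N := by exact_mod_cast hN
  apply Real.sin_pos_of_pos_of_lt_pi h1
  nlinarith

lemma sin_th_ge {N : ℕ} (hN : 1 ≤ N) : 2 / (2 * N + 1) ≤ Real.sin (th N) := by
  have h1 := th_pos N
  have h2 := th_mul N
  have hN' : (1 : ℝ) ≤ N := by exact_mod_cast hN
  have h3 : th N ≤ Real.pi / 2 := by
    unfold th
    apply div_le_div_of_nonneg_left Real.pi_pos.le (by norm_num)
    linarith
  have h4 := Real.mul_le_sin h1.le h3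
  refine le_trans (le_of_eq ?_) h4
  unfold th
  have := Real.pi_pos.ne'
  field_simp

lemma hh_zero (N : ℕ) : hh N 0 = 0 := by simp [hh]

lemma hh_le {N k : ℕ} (hN : 1 ≤ N) : hh N k ≤ (2 * N + 1) / 2 := by
  unfold hh
  have h1 := sin_th_ge hN
  have h2 := sin_th_pos hN
  rw [div_le_iff₀ h2]
  have h3 : (1 : ℝ) = (2 * N + 1) / 2 * (2 / (2 * N + 1)) := by
    have : (2 * (N : ℝ) + 1) ≠ 0 := by positivity
    field_simp
  calc Real.sin (th N * k) ≤ 1 := Real.sin_le_one _
    _ = (2 * N + 1) / 2 * (2 / (2 * N + 1)) := h3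
    _ ≤ _ := by gcongr

lemma one_le_hh {N k : ℕ} (hk : 1 ≤ k) (hkN : k ≤ N) : 1 ≤ hh N k := by
  have hN : 1 ≤ N := hk.trans hkN
  unfold hh
  rw [le_div_iff₀ (sin_th_pos hN), one_mul]
  have h1 := th_pos N
  have h2 := th_mul N
  have hk' : (1 : ℝ) ≤ k := by exact_mod_cast hk
  have hkN' : (k : ℝ) ≤ N := by exact_mod_cast hkN
  have h3 := Real.pi_pos
  apply Real.sin_le_sin_of_le_of_le_pi_div_two
  · linarith
  · nlinarith
  · nlinarith

lemma hh_nonneg {N k : ℕ} (hkN : k ≤ N) : 0 ≤ hh N k := by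
  rcases Nat.eq_zero_or_pos k with h | h
  · subst h; rw [hh_zero]
  · linarith [one_le_hh h hkN]

/-- the rate -/
def lam (N : ℕ) : ℝ := 1 - Real.cos (th N)

lemma lam_le_one {N : ℕ} (hN : 1 ≤ N) : lam N ≤ 1 := by
  unfold lam
  have h1 := th_pos N
  have h2 := th_mul N
  have hN' : (1 : ℝ) ≤ N := by exact_mod_cast hN
  have h3 := Real.pi_pos
  have : 0 ≤ Real.cos (th N) := Real.cos_nonneg_of_neg_pi_div_two_le_of_le (by linarith) (by nlinarith)
  linarith

lemma lam_ge {N : ℕ} (hN : 1 ≤ N) : 2 / (2 * N + 1) ^ 2 ≤ lam N := by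
  unfold lam
  have h1 := th_pos N
  have h2 := th_mul N
  have hN' : (1 : ℝ) ≤ N := by exact_mod_cast hN
  have h3 := Real.pi_pos
  have h4 : |th N| ≤ Real.pi := by
    rw [abs_of_pos h1]
    nlinarith
  have h5 := Real.cos_le_one_sub_mul_cos_sq h4
  have h6 : 2 / Real.pi ^ 2 * th N ^ 2 = 2 / (2 * N + 1) ^ 2 := by
    unfold th
    field_simp
  linarith

/-- the Lyapunov function is an eigenfunction away from `0` -/
lemma tp_hh {N : ℕ} {W : ℝ} {k : ℕ} (hk : 1 ≤ k) (hkN : k ≤ N) :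
    ∑ j ∈ range (N + 1), tp N W k j * hh N j = (1 - lam N) * hh N k := by
  rw [tp_sum (by omega)]
  obtain ⟨m, rfl⟩ : ∃ m, k = m + 1 := ⟨k - 1, by omega⟩
  rw [al_succ, if_pos (by omega : 0 < m + 1)]
  have hN : 1 ≤ N := hk.trans hkN
  have hs := (sin_th_pos hN).ne'
  have key : hh N (m + 1 + 1) + hh N m = 2 * Real.cos (th N) * hh N (m + 1) := by
    unfold hh
    rw [← add_div, ← mul_div_assoc]
    congr 1
    have e1 : th N * ((m + 1 + 1 : ℕ) : ℝ) = th N * ((m + 1 : ℕ) : ℝ) + th N := by push_cast; ring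
    have e2 : th N * ((m : ℕ) : ℝ) = th N * ((m + 1 : ℕ) : ℝ) - th N := by push_cast; ring
    rw [e1, e2, Real.sin_add, Real.sin_sub]
    ring
  simp only [Nat.add_sub_cancel]
  unfold lam
  rcases Nat.lt_or_ge (m + 1) N with h | h
  · rw [if_pos h]
    linarith
  · have hmN : m + 1 = N := le_antisymm hkN h
    rw [if_neg (by omega)]
    have e3 : hh N (m + 1 + 1) = hh N (m + 1) := by
      rw [hmN]
      unfold hh
      congr 1
      have e4 : th N * ((N + 1 : ℕ) : ℝ) = Real.pi - th N * N := by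
        have := th_mul N
        push_cast
        linarith
      rw [e4, Real.sin_pi_sub]
    rw [e3] at key
    linarith

/-- at `0`, the Lyapunov function grows by `1 / (2W)` only -/
lemma tp_hh_zero {N : ℕ} {W : ℝ} (hN : 1 ≤ N) :
    ∑ j ∈ range (N + 1), tp N W 0 j * hh N j = 1 / (2 * W) := by
  rw [tp_sum (by omega), hh_zero, if_pos (by omega), if_neg (by omega)]
  have h1 : hh N (0 + 1) = 1 := by
    unfold hh
    have := (sin_th_pos hN).ne'
    simp [this]
  rw [h1]
  simp [al, wt]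

lemma PC_mulVec {N : ℕ} {W : ℝ} (i : Fin (N + 1)) (g : ℕ → ℝ) :
    (PC N W *ᵥ fun j => g j.val) i = ∑ j ∈ range (N + 1), tp N W i j * g j := by
  rw [← Fin.sum_univ_eq_sum_range (fun j => tp N W i.val j * g j) (N + 1)]
  rfl

lemma zero_notMem {N : ℕ} {W : ℝ} (hW : (N : ℝ) < W) {A : Finset (Fin (N + 1))}
    (hA : mass (pc N W) A ≤ 1 / 2) : ∀ x ∈ A, 1 ≤ x.val := by
  intro x hx
  by_contra h
  have hx0 : x.val = 0 := by omega
  have hN : (0 : ℝ) ≤ N := Nat.cast_nonneg N
  have hW0 : 0 < W := by linarith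
  have h1 : pc N W x ≤ mass (pc N W) A :=
    Finset.single_le_sum (f := pc N W) (fun y _ => div_nonneg (wt_pos hW0 _).le (by linarith)) hx
  have h2 : 1 / 2 < pc N W x := by
    unfold pc wt
    rw [hx0, if_pos rfl, lt_div_iff₀ (by linarith)]
    linarith
  linarith

/-- Survival bound. -/
lemma stay_le {N : ℕ} {W : ℝ} (hN : 1 ≤ N) (hW : (N : ℝ) < W) {A : Finset (Fin (N + 1))}
    (hA : mass (pc N W) A ≤ 1 / 2) {t : ℝ} (ht : 0 ≤ t) (x : Fin (N + 1)) :
    stay (PC N W) A t x ≤ Real.exp (-(lam N * t)) * ((2 * N + 1) / 2) := by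
  have hN' : (1 : ℝ) ≤ N := by exact_mod_cast hN
  have hW1 : 1 ≤ W := by linarith
  have hA0 := zero_notMem hW hA
  have hnn : ∀ x y, 0 ≤ PC N W x y := fun x y => tp_nonneg N hW1 _ _
  have hKnn : ∀ x y, 0 ≤ killed (PC N W) A x y := fun x y => by
    unfold killed; split_ifs
    · exact hnn x y
    · exact le_rfl
  have hl := lam_le_one hN
  have hK : ∀ x, (killed (PC N W) A *ᵥ fun j => hh N j.val) x ≤ (1 - lam N) * hh N x.val := by
    intro x
    have hx := hh_nonneg (N := N) (k := x.val) (by omega)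
    by_cases hxA : x ∈ A
    · have h1 : (killed (PC N W) A *ᵥ fun j => hh N j.val) x ≤ (PC N W *ᵥ fun j => hh N j.val) x := by
        show ∑ j, killed (PC N W) A x j * hh N j.val ≤ ∑ j, PC N W x j * hh N j.val
        refine Finset.sum_le_sum fun j _ => mul_le_mul_of_nonneg_right ?_ (hh_nonneg (by omega))
        unfold killed; split_ifs
        · exact le_rfl
        · exact hnn x j
      rw [PC_mulVec, tp_hh (hA0 x hxA) (by omega)] at h1
      exact h1
    · have h1 : (killed (PC N W) A *ᵥ fun j => hh N j.val) x = 0 := by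
        show ∑ j, killed (PC N W) A x j * hh N j.val = 0
        refine Finset.sum_eq_zero fun j _ => ?_
        unfold killed
        rw [if_neg (fun h => hxA h.1), zero_mul]
      rw [h1]
      exact mul_nonneg (by linarith) hx
  have h2 := semi_mulVec_le hKnn (by linarith : 0 ≤ 1 - lam N) hK ht x
  have h3 : stay (PC N W) A t x ≤ (semi (killed (PC N W) A) t *ᵥ fun j => hh N j.val) x := by
    unfold stay
    refine mulVec_mono (fun x y => semi_nonneg hKnn ht x y) (fun y => ?_) x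
    by_cases hy : y ∈ A
    · rw [if_pos hy]; exact one_le_hh (hA0 y hy) (by omega)
    · rw [if_neg hy]; exact hh_nonneg (by omega)
  have h4 : 1 - (1 - lam N) = lam N := by ring
  rw [h4] at h2
  refine h3.trans (h2.trans ?_)
  exact mul_le_mul_of_nonneg_left (hh_le hN) (Real.exp_pos _).le

/-- The chain is at `0` with high probability. -/
lemma semi_path_le {N : ℕ} {W : ℝ} (hN : 1 ≤ N) (hW : 1 ≤ W) {t : ℝ} (ht : 0 ≤ t)
    (x : Fin (N + 1)) :
    (semi (PC N W) t *ᵥ fun j => hh N j.val) x ≤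
      Real.exp (-(lam N * t)) * ((2 * N + 1) / 2) + (2 * N + 1) ^ 2 / (4 * W) := by
  have hnn : ∀ x y, 0 ≤ PC N W x y := fun x y => tp_nonneg N hW _ _
  have hl := lam_le_one hN
  have hlg := lam_ge hN
  have hlpos : 0 < lam N := lt_of_lt_of_le (by positivity) hlg
  have hW0 : 0 < W := by linarith
  set b : ℝ := 1 / (2 * W * lam N) with hb
  have hbpos : 0 < b := by positivity
  have hbl : b * lam N = 1 / (2 * W) := by
    rw [hb]; field_simp
  have hsum1 : ∀ x, (PC N W *ᵥ fun j => (hh N j.val - b)) x =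
      (PC N W *ᵥ fun j => hh N j.val) x - b := by
    intro x
    have h1 := PC_mulVec (N := N) (W := W) x (fun k => hh N k - b)
    have h2 := PC_mulVec (N := N) (W := W) x (fun k => hh N k)
    rw [h1, h2, tp_sum x.2, tp_sum x.2]
    split_ifs <;> ring
  have hK : ∀ x, (PC N W *ᵥ fun j => (hh N j.val - b)) x ≤ (1 - lam N) * (hh N x.val - b) := by
    intro x
    rw [hsum1, PC_mulVec]
    rcases Nat.eq_zero_or_pos x.val with h | h
    · rw [h, tp_hh_zero hN, hh_zero]
      nlinarith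
    · rw [tp_hh h (by omega)]
      have : 0 < 1 / (2 * W) := by positivity
      nlinarith
  have h2 := semi_mulVec_le hnn (by linarith : 0 ≤ 1 - lam N) hK ht x
  have h4 : 1 - (1 - lam N) = lam N := by ring
  rw [h4] at h2
  -- mass conservation
  have hone : (semi (PC N W) t *ᵥ fun _ => (1 : ℝ)) x ≤ 1 := by
    have h5 := semi_mulVec_le hnn (g := fun _ => (1 : ℝ)) (r := 1) zero_le_one
      (fun x => by
        have := PC_sum (N := N) (W := W) x (fun _ => 1)
        have h6 : (PC N W *ᵥ fun _ => (1 : ℝ)) x = ∑ j : Fin (N + 1), PC N W x j * 1 := rfl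
        rw [h6, this]; simp) ht x
    simpa using h5
  have h7 : (semi (PC N W) t *ᵥ fun j => (hh N j.val - b)) x =
      (semi (PC N W) t *ᵥ fun j => hh N j.val) x - b * (semi (PC N W) t *ᵥ fun _ => (1 : ℝ)) x := by
    show ∑ j, semi (PC N W) t x j * (hh N j.val - b) =
      ∑ j, semi (PC N W) t x j * hh N j.val - b * ∑ j, semi (PC N W) t x j * 1
    rw [Finset.mul_sum, ← Finset.sum_sub_distrib]
    exact Finset.sum_congr rfl fun j _ => by ring
  rw [h7] at h2
  have h8 : Real.exp (-(lam N * t)) * (hh N x.val - b) ≤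
      Real.exp (-(lam N * t)) * ((2 * N + 1) / 2) :=
    mul_le_mul_of_nonneg_left (by linarith [hh_le (k := x.val) hN]) (Real.exp_pos _).le
  have h9 : b * (semi (PC N W) t *ᵥ fun _ => (1 : ℝ)) x ≤ b := by
    calc _ ≤ b * 1 := mul_le_mul_of_nonneg_left hone hbpos.le
      _ = b := mul_one b
  have h10 : b ≤ (2 * N + 1) ^ 2 / (4 * W) := by
    rw [hb, div_le_div_iff₀ (by positivity) (by positivity)]
    have h11 : 2 ≤ (2 * N + 1) ^ 2 * lam N := by
      have h12 : (0 : ℝ) < (2 * N + 1) ^ 2 := by positivity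
      rw [div_le_iff₀ h12] at hlg
      linarith
    nlinarith
  linarith

end

end Pool.Agent.V7H98.MLS
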