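import Pool.Agent.V7H98.MLSDefs

open Matrix

namespace Pool.Agent.V7H98.MLS

variable {S : Type} [Fintype S] [DecidableEq S]

set_option backward.isDefEq.respectTransparency false in
lemma hasSum_exp_entry (A : Matrix S S ℝ) (i j : S) :
    HasSum (fun n : ℕ => ((n.factorial : ℝ)⁻¹) * (A ^ n) i j) (NormedSpace.exp A i j) := by
  open scoped Norms.Operator in
  have h : HasSum (fun n : ℕ => ((n.factorial : ℝ)⁻¹) • A ^ n) (NormedSpace.exp A) :=
    NormedSpace.exp_series_hasSum_exp' (𝕂 := ℝ) A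
  have h1 := (Pi.hasSum.1 h) i
  have h2 := (Pi.hasSum.1 h1) j
  simpa using h2

lemma semi_eq (K : Matrix S S ℝ) (t : ℝ) :
    semi K t = Real.exp (-t) • NormedSpace.exp (t • K) := by
  have hc : Commute (algebraMap ℝ (Matrix S S ℝ) (-t)) (t • K) := Algebra.commutes _ _
  have h1 : -(t • (1 - K)) = algebraMap ℝ (Matrix S S ℝ) (-t) + t • K := by
    rw [Algebra.algebraMap_eq_smul_one, smul_sub, neg_smul]
    abel
  rw [semi, h1, Matrix.exp_add_of_commute _ _ hc]
  have h2 : NormedSpace.exp (algebraMap ℝ (Matrix S S ℝ) (-t))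
      = algebraMap ℝ (Matrix S S ℝ) (Real.exp (-t)) := by
    rw [Real.exp_eq_exp_ℝ, Matrix.algebraMap_eq_diagonal, Matrix.exp_diagonal,
      Matrix.algebraMap_eq_diagonal]
    congr 1
    ext i
    simp [Pi.coe_exp]
  rw [h2, Algebra.algebraMap_eq_smul_one, smul_mul_assoc, one_mul]

lemma hasSum_semi (K : Matrix S S ℝ) (t : ℝ) (i j : S) :
    HasSum (fun n : ℕ => Real.exp (-t) * (t ^ n / n.factorial * (K ^ n) i j)) (semi K t i j) := by
  rw [semi_eq]
  have h := (hasSum_exp_entry (t • K) i j).mul_left (Real.exp (-t))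
  have e : (fun n : ℕ => Real.exp (-t) * ((n.factorial : ℝ)⁻¹ * ((t • K) ^ n) i j)) =
      fun n : ℕ => Real.exp (-t) * (t ^ n / n.factorial * (K ^ n) i j) := by
    funext n
    rw [smul_pow, Matrix.smul_apply, smul_eq_mul]
    ring
  rw [e] at h
  simpa only [Matrix.smul_apply, smul_eq_mul] using h

lemma hasSum_semi_mulVec (K : Matrix S S ℝ) (t : ℝ) (g : S → ℝ) (i : S) :
    HasSum (fun n : ℕ => Real.exp (-t) * (t ^ n / n.factorial * ((K ^ n) *ᵥ g) i))
      ((semi K t *ᵥ g) i) := by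
  have h : HasSum (fun n : ℕ => ∑ j, Real.exp (-t) * (t ^ n / n.factorial * (K ^ n) i j) * g j)
      (∑ j, semi K t i j * g j) :=
    hasSum_sum fun j _ => (hasSum_semi K t i j).mul_right (g j)
  have h2 : (semi K t *ᵥ g) i = ∑ j, semi K t i j * g j := rfl
  rw [h2]
  have e : (fun n : ℕ => ∑ j, Real.exp (-t) * (t ^ n / n.factorial * (K ^ n) i j) * g j) =
      fun n : ℕ => Real.exp (-t) * (t ^ n / n.factorial * ((K ^ n) *ᵥ g) i) := by
    funext n
    have : ((K ^ n) *ᵥ g) i = ∑ j, (K ^ n) i j * g j := rfl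
    rw [this, Finset.mul_sum, Finset.mul_sum]
    refine Finset.sum_congr rfl fun j _ => by ring
  rwa [e] at h

lemma pow_nonneg_entries {K : Matrix S S ℝ} (hK : ∀ x y, 0 ≤ K x y) (n : ℕ) (x y : S) :
    0 ≤ (K ^ n) x y := by
  induction n generalizing x y with
  | zero =>
    rw [pow_zero, Matrix.one_apply]
    split_ifs <;> norm_num
  | succ n ih =>
    rw [pow_succ, Matrix.mul_apply]
    exact Finset.sum_nonneg fun z _ => mul_nonneg (ih x z) (hK z y)

lemma semi_nonneg {K : Matrix S S ℝ} (hK : ∀ x y, 0 ≤ K x y) {t : ℝ} (ht : 0 ≤ t) (x y : S) :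
    0 ≤ semi K t x y := by
  refine (hasSum_semi K t x y).nonneg fun n => ?_
  have := pow_nonneg_entries hK n x y
  positivity

lemma mulVec_mono {K : Matrix S S ℝ} (hK : ∀ x y, 0 ≤ K x y) {f g : S → ℝ} (h : ∀ x, f x ≤ g x)
    (x : S) : (K *ᵥ f) x ≤ (K *ᵥ g) x := by
  show ∑ j, K x j * f j ≤ ∑ j, K x j * g j
  exact Finset.sum_le_sum fun j _ => mul_le_mul_of_nonneg_left (h j) (hK x j)

/-- If `K g ≤ r g` then `e^{-t (I - K)} g ≤ e^{-(1 - r) t} g`. -/
lemma semi_mulVec_le {K : Matrix S S ℝ} (hK : ∀ x y, 0 ≤ K x y) {g : S → ℝ} {r : ℝ} (hr : 0 ≤ r)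
    (hg : ∀ x, (K *ᵥ g) x ≤ r * g x) {t : ℝ} (ht : 0 ≤ t) (x : S) :
    (semi K t *ᵥ g) x ≤ Real.exp (-((1 - r) * t)) * g x := by
  have hpow : ∀ n : ℕ, ∀ x, ((K ^ n) *ᵥ g) x ≤ r ^ n * g x := by
    intro n
    induction n with
    | zero => intro x; simp
    | succ n ih =>
      intro x
      rw [pow_succ', ← Matrix.mulVec_mulVec]
      refine (mulVec_mono hK ih x).trans ?_
      have : (K *ᵥ fun x => r ^ n * g x) x = r ^ n * (K *ᵥ g) x := by
        show ∑ j, K x j * (r ^ n * g j) = r ^ n * ∑ j, K x j * g j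
        rw [Finset.mul_sum]
        exact Finset.sum_congr rfl fun j _ => by ring
      rw [this]
      have h1 := mul_le_mul_of_nonneg_left (hg x) (pow_nonneg hr n)
      calc r ^ n * (K *ᵥ g) x ≤ r ^ n * (r * g x) := h1
        _ = r ^ n.succ * g x := by rw [pow_succ]; ring
        _ = _ := rfl
  have h1 := hasSum_semi_mulVec K t g x
  have h2 : HasSum (fun n : ℕ => Real.exp (-t) * (t ^ n / n.factorial * (r ^ n * g x)))
      (Real.exp (-((1 - r) * t)) * g x) := by
    have h3 : HasSum (fun n : ℕ => (r * t) ^ n / n.factorial) (Real.exp (r * t)) := by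
      rw [Real.exp_eq_exp_ℝ]
      exact NormedSpace.expSeries_div_hasSum_exp (r * t)
    have h4 := (h3.mul_left (Real.exp (-t))).mul_right (g x)
    have h5 : Real.exp (-t) * Real.exp (r * t) = Real.exp (-((1 - r) * t)) := by
      rw [← Real.exp_add]; congr 1; ring
    rw [h5] at h4
    have e : (fun n : ℕ => Real.exp (-t) * ((r * t) ^ n / n.factorial) * g x) =
        fun n : ℕ => Real.exp (-t) * (t ^ n / n.factorial * (r ^ n * g x)) := by
      funext n
      rw [mul_pow]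
      ring
    rwa [e] at h4
  refine hasSum_le (fun n => ?_) h1 h2
  have := hpow n x
  gcongr

end Pool.Agent.V7H98.MLS
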