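import Pool.Agent.V7H98.MLSEst

open Matrix Finset

namespace Pool.Agent.V7H98.MLS

noncomputable section

/-- the test function -/
def ff (N k : ℕ) : ℝ := if k = 0 then -(N : ℝ) else 2 * Real.log k

/-- the weight of the vertex `0` -/
def WW (N : ℕ) : ℝ := (N : ℝ) ^ 3 * Real.exp N

lemma exp_ff_zero (N : ℕ) : Real.exp (ff N 0) = Real.exp (-N) := by simp [ff]

lemma exp_ff_succ (N k : ℕ) : Real.exp (ff N (k + 1)) = ((k : ℝ) + 1) ^ 2 := by
  unfold ff
  rw [if_neg (by omega)]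
  have h : (0 : ℝ) < ((k + 1 : ℕ) : ℝ) := by positivity
  rw [show 2 * Real.log ((k + 1 : ℕ) : ℝ) = Real.log (((k + 1 : ℕ) : ℝ) ^ 2) by
    rw [Real.log_pow]; push_cast; ring]
  rw [Real.exp_log (by positivity)]
  push_cast; ring

lemma ff_succ (N k : ℕ) : ff N (k + 1) = 2 * Real.log ((k : ℝ) + 1) := by
  unfold ff
  rw [if_neg (by omega)]
  push_cast; ring

lemma sum_sq_ge (N : ℕ) : (N : ℝ) ^ 3 / 3 ≤ ∑ k ∈ range N, ((k : ℝ) + 1) ^ 2 := by
  induction N with
  | zero => simp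
  | succ n ih => rw [sum_range_succ]; push_cast; nlinarith [Nat.cast_nonneg (α := ℝ) n]

lemma sum_sq_le (N : ℕ) : ∑ k ∈ range N, ((k : ℝ) + 1) ^ 2 ≤ (N : ℝ) ^ 3 := by
  induction N with
  | zero => simp
  | succ n ih => rw [sum_range_succ]; push_cast; nlinarith [Nat.cast_nonneg (α := ℝ) n]

lemma edge_le (N k : ℕ) : (1 / 2) * (Real.exp (ff N (k + 1)) - Real.exp (ff N k)) *
    (ff N (k + 1) - ff N k) ≤ if k = 0 then (N : ℝ) / 2 else 3 := by
  rcases Nat.eq_zero_or_pos k with h | h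
  · subst h
    rw [if_pos rfl, exp_ff_succ, exp_ff_zero, ff_succ]
    simp only [Nat.cast_zero, zero_add, Real.log_one, mul_zero, one_pow]
    have h1 := Real.exp_pos (-(N : ℝ))
    have h2 : (0 : ℝ) ≤ N := Nat.cast_nonneg N
    unfold ff
    simp only [if_true]
    nlinarith
  · obtain ⟨m, rfl⟩ : ∃ m, k = m + 1 := ⟨k - 1, by omega⟩
    rw [if_neg (by omega), exp_ff_succ, exp_ff_succ, ff_succ, ff_succ]
    push_cast
    have hm : (0 : ℝ) ≤ m := Nat.cast_nonneg m
    have h1 : Real.log ((m : ℝ) + 1 + 1) - Real.log ((m : ℝ) + 1) ≤ 1 / ((m : ℝ) + 1) := by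
      rw [← Real.log_div (by positivity) (by positivity)]
      refine (Real.log_le_sub_one_of_pos (by positivity)).trans (le_of_eq ?_)
      field_simp
      ring
    have h2 : (1 / 2) * (((m : ℝ) + 1 + 1) ^ 2 - ((m : ℝ) + 1) ^ 2) *
        (2 * Real.log ((m : ℝ) + 1 + 1) - 2 * Real.log ((m : ℝ) + 1)) =
        (2 * (m : ℝ) + 3) * (Real.log ((m : ℝ) + 1 + 1) - Real.log ((m : ℝ) + 1)) := by ring
    rw [h2]
    calc (2 * (m : ℝ) + 3) * (Real.log ((m : ℝ) + 1 + 1) - Real.log ((m : ℝ) + 1))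
        ≤ (2 * (m : ℝ) + 3) * (1 / ((m : ℝ) + 1)) := mul_le_mul_of_nonneg_left h1 (by positivity)
      _ ≤ 3 := by
        rw [mul_one_div, div_le_iff₀ (by positivity)]
        linarith

lemma WW_ge {N : ℕ} (hN : 1 ≤ N) : (N : ℝ) ^ 4 ≤ WW N := by
  have hN' : (1 : ℝ) ≤ N := by exact_mod_cast hN
  unfold WW
  have := Real.add_one_le_exp (N : ℝ)
  have h3 : (0 : ℝ) ≤ (N : ℝ) ^ 3 := by positivity
  calc (N : ℝ) ^ 4 = (N : ℝ) ^ 3 * N := by ring
    _ ≤ _ := mul_le_mul_of_nonneg_left (by linarith) h3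

lemma WW_one_le {N : ℕ} (hN : 1 ≤ N) : 1 ≤ WW N := by
  have hN' : (1 : ℝ) ≤ N := by exact_mod_cast hN
  exact (one_le_pow₀ hN').trans (WW_ge hN)

lemma lt_WW {N : ℕ} (hN : 2 ≤ N) : (N : ℝ) < WW N := by
  have hN' : (2 : ℝ) ≤ N := by exact_mod_cast hN
  have h := WW_ge (by omega : 1 ≤ N)
  have : (N : ℝ) < (N : ℝ) ^ 4 := by
    have h1 : (1 : ℝ) < (N : ℝ) ^ 3 := one_lt_pow₀ (by linarith) (by norm_num)
    nlinarith
  linarith

/-- `c_MLS ≤ 24 / N³`. -/
lemma cMLS_le {N : ℕ} (hN : 9 ≤ N) : cMLS (PC N (WW N)) (pc N (WW N)) ≤ 24 / (N : ℝ) ^ 3 := by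
  have hN1 : 1 ≤ N := by omega
  have hN' : (9 : ℝ) ≤ N := by exact_mod_cast hN
  have hW := WW_one_le hN1
  have hW0 : 0 < WW N := by linarith
  have hZ : 0 < WW N + N := by positivity
  have hP := isRevChain (N := N) hW
  have hmem : Dir (PC N (WW N)) (pc N (WW N)) (fun i => Real.exp (ff N i.val))
      (fun i => ff N i.val) / Ent (pc N (WW N)) (fun i => Real.exp (ff N i.val)) ∈
      {r | ∃ f : Fin (N + 1) → ℝ, (∃ x y, f x ≠ f y) ∧
    r = Dir (PC N (WW N)) (pc N (WW N)) (fun x => Real.exp (f x)) f /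
      Ent (pc N (WW N)) (fun x => Real.exp (f x))} := by
    refine ⟨fun i => ff N i.val, ⟨⟨0, by omega⟩, ⟨1, by omega⟩, ?_⟩, rfl⟩
    simp only [ff]
    simp
    linarith
  refine (csInf_le (cMLS_bddBelow hP) hmem).trans ?_
  -- Dirichlet form
  have hD : Dir (PC N (WW N)) (pc N (WW N)) (fun i => Real.exp (ff N i.val))
      (fun i => ff N i.val) ≤ 4 * N / (WW N + N) := by
    rw [dir_PC hW (fun k => Real.exp (ff N k)) (fun k => ff N k)]
    gcongr
    calc ∑ k ∈ range N, (1 / 2) * (Real.exp (ff N (k + 1)) - Real.exp (ff N k)) *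
          (ff N (k + 1) - ff N k)
        ≤ ∑ k ∈ range N, (if k = 0 then (N : ℝ) / 2 else 3) := sum_le_sum fun k _ => edge_le N k
      _ ≤ ∑ k ∈ range N, ((if k = 0 then (N : ℝ) / 2 else 0) + 3) := by
          refine sum_le_sum fun k _ => ?_
          split_ifs <;> linarith
      _ = (N : ℝ) / 2 + 3 * N := by
          rw [sum_add_distrib, Finset.sum_ite_eq' (range N) 0 (fun _ => (N : ℝ) / 2),
            if_pos (mem_range.2 (by omega))]
          simp; ring
      _ ≤ 4 * N := by linarith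
  -- entropy
  set S : ℝ := ∑ k ∈ range N, ((k : ℝ) + 1) ^ 2 with hS
  have hS1 := sum_sq_ge N
  have hS2 := sum_sq_le N
  rw [← hS] at hS1 hS2
  have hWe : WW N * Real.exp (-(N : ℝ)) = (N : ℝ) ^ 3 := by
    unfold WW
    rw [mul_assoc, ← Real.exp_add]
    simp
  have hmean : mean (pc N (WW N)) (fun i => Real.exp (ff N i.val)) =
      ((N : ℝ) ^ 3 + S) / (WW N + N) := by
    unfold mean
    rw [pc_sum_mul (fun k => Real.exp (ff N k)), exp_ff_zero, hWe, hS]
    congr 2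
    exact sum_congr rfl fun k _ => exp_ff_succ N k
  have hmean2 : -((N : ℝ) ^ 4) / (WW N + N) ≤ mean (pc N (WW N))
      (fun i => Real.exp (ff N i.val) * Real.log (Real.exp (ff N i.val))) := by
    unfold mean
    rw [pc_sum_mul (fun k => Real.exp (ff N k) * Real.log (Real.exp (ff N k)))]
    gcongr
    rw [Real.log_exp, exp_ff_zero, ← mul_assoc, hWe]
    have h1 : ff N 0 = -(N : ℝ) := by simp [ff]
    rw [h1]
    have h2 : 0 ≤ ∑ k ∈ range N, Real.exp (ff N (k + 1)) * Real.log (Real.exp (ff N (k + 1))) := by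
      refine sum_nonneg fun k _ => mul_nonneg (Real.exp_pos _).le ?_
      rw [Real.log_exp, ff_succ]
      have : 0 ≤ Real.log ((k : ℝ) + 1) := Real.log_nonneg (by linarith [Nat.cast_nonneg (α := ℝ) k])
      linarith
    nlinarith
  have hlog : Real.log (((N : ℝ) ^ 3 + S) / (WW N + N)) ≤ Real.log 2 - N := by
    have h1 : ((N : ℝ) ^ 3 + S) / (WW N + N) ≤ 2 * Real.exp (-(N : ℝ)) := by
      rw [div_le_iff₀ hZ]
      have h2 : 2 * Real.exp (-(N : ℝ)) * (WW N + N) =
          2 * (WW N * Real.exp (-(N : ℝ))) + 2 * Real.exp (-(N : ℝ)) * N := by ring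
      rw [h2, hWe]
      have h3 : 0 ≤ 2 * Real.exp (-(N : ℝ)) * N := by positivity
      linarith
    have h4 : 0 < ((N : ℝ) ^ 3 + S) / (WW N + N) := by
      apply div_pos _ hZ
      have : (0 : ℝ) < (N : ℝ) ^ 3 := by positivity
      linarith
    calc Real.log (((N : ℝ) ^ 3 + S) / (WW N + N)) ≤ Real.log (2 * Real.exp (-(N : ℝ))) :=
          Real.log_le_log h4 h1
      _ = Real.log 2 - N := by
          rw [Real.log_mul (by norm_num) (Real.exp_pos _).ne', Real.log_exp]; ring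
  have hlog2 : Real.log 2 ≤ 0.7 := by linarith [Real.log_two_lt_d9]
  have hE : (N : ℝ) ^ 4 / 6 / (WW N + N) ≤
      Ent (pc N (WW N)) (fun i => Real.exp (ff N i.val)) := by
    unfold Ent
    rw [hmean]
    have h1 : ((N : ℝ) ^ 3 + S) / (WW N + N) * Real.log (((N : ℝ) ^ 3 + S) / (WW N + N)) ≤
        ((N : ℝ) ^ 3 + S) / (WW N + N) * (Real.log 2 - N) := by
      apply mul_le_mul_of_nonneg_left hlog
      apply div_nonneg _ hZ.le
      have : (0 : ℝ) < (N : ℝ) ^ 3 := by positivity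
      linarith
    have h2 : (N : ℝ) ^ 4 / 6 / (WW N + N) ≤ -((N : ℝ) ^ 4) / (WW N + N) -
        ((N : ℝ) ^ 3 + S) / (WW N + N) * (Real.log 2 - N) := by
      rw [div_mul_eq_mul_div, ← sub_div]
      gcongr
      have h3 : (0 : ℝ) < (N : ℝ) ^ 3 := by positivity
      have h4 : ((N : ℝ) ^ 3 + S) * (Real.log 2 - N) ≤
          ((N : ℝ) ^ 3 + (N : ℝ) ^ 3 / 3) * (0.7 - N) + ((N : ℝ) ^ 3 + S) * 0 := by
        have h5 : Real.log 2 - N ≤ 0.7 - N := by linarith
        have h6 : 0.7 - (N : ℝ) ≤ 0 := by linarith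
        nlinarith
      nlinarith
    linarith
  have hE0 : 0 < (N : ℝ) ^ 4 / 6 / (WW N + N) := by positivity
  calc _ ≤ (4 * N / (WW N + N)) / ((N : ℝ) ^ 4 / 6 / (WW N + N)) := by
        apply div_le_div₀ (by positivity) hD hE0 hE
    _ = 24 / (N : ℝ) ^ 3 := by
        field_simp
        ring

/-- the time scale -/
def tt (N : ℕ) : ℝ := 2 * (2 * N + 1) ^ 2 * Real.log N

lemma tt_nonneg {N : ℕ} (hN : 1 ≤ N) : 0 ≤ tt N := by
  unfold tt
  have : 0 ≤ Real.log (N : ℝ) := Real.log_nonneg (by exact_mod_cast hN)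
  positivity

lemma exp_tt_le {N : ℕ} (hN : 1 ≤ N) :
    Real.exp (-(lam N * tt N)) * ((2 * N + 1) / 2) ≤ 2 / (N : ℝ) ^ 3 := by
  have hN' : (1 : ℝ) ≤ N := by exact_mod_cast hN
  have hlog : 0 ≤ Real.log (N : ℝ) := Real.log_nonneg hN'
  have h1 : 4 * Real.log N ≤ lam N * tt N := by
    have h2 := lam_ge hN
    unfold tt
    calc 4 * Real.log N = 2 / (2 * N + 1) ^ 2 * (2 * (2 * N + 1) ^ 2 * Real.log N) := by
          field_simp
          ring
      _ ≤ _ := mul_le_mul_of_nonneg_right h2 (by positivity)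
  have h3 : Real.exp (-(lam N * tt N)) ≤ 1 / (N : ℝ) ^ 4 := by
    calc Real.exp (-(lam N * tt N)) ≤ Real.exp (-(4 * Real.log N)) := Real.exp_le_exp.2 (by linarith)
      _ = 1 / (N : ℝ) ^ 4 := by
        rw [Real.exp_neg, show 4 * Real.log (N : ℝ) = Real.log ((N : ℝ) ^ 4) by
          rw [Real.log_pow]; push_cast; ring, Real.exp_log (by positivity), one_div]
  calc Real.exp (-(lam N * tt N)) * ((2 * N + 1) / 2) ≤ 1 / (N : ℝ) ^ 4 * (2 * N) := by
        gcongr
        linarith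
    _ = 2 / (N : ℝ) ^ 3 := by
        field_simp

lemma log_Z_le {N : ℕ} (hN : 2 ≤ N) : Real.log (WW N + N) ≤ 5 * N := by
  have hN' : (2 : ℝ) ≤ N := by exact_mod_cast hN
  have h1 := lt_WW hN
  have hW0 : 0 < WW N := by linarith
  have h2 : Real.log (WW N + N) ≤ Real.log (2 * WW N) := Real.log_le_log (by linarith) (by linarith)
  have h3 : Real.log (2 * WW N) = Real.log 2 + (3 * Real.log N + N) := by
    unfold WW
    rw [Real.log_mul (by norm_num) (by positivity), Real.log_mul (by positivity)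
      (Real.exp_pos _).ne', Real.log_exp, Real.log_pow]
    push_cast; ring
  have h4 := Real.log_le_sub_one_of_pos (by linarith : (0 : ℝ) < N)
  have h5 : Real.log 2 ≤ 1 := by linarith [Real.log_two_lt_d9]
  linarith

lemma mass_ge {N : ℕ} {W : ℝ} (hW : 1 ≤ W) {A : Finset (Fin (N + 1))} (hA : A.Nonempty) :
    1 / (W + N) ≤ mass (pc N W) A := by
  obtain ⟨x, hx⟩ := hA
  have hW0 : 0 < W := by linarith
  have hZ : 0 < W + N := by positivity
  have h1 : pc N W x ≤ mass (pc N W) A :=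
    Finset.single_le_sum (f := pc N W) (fun y _ => div_nonneg (wt_pos hW0 _).le hZ.le) hx
  refine le_trans ?_ h1
  unfold pc
  gcongr
  unfold wt; split_ifs <;> linarith

lemma rho_le {N : ℕ} (hN : 100 ≤ N) {c : ℝ} (hc : 10 / c ≤ (N : ℝ) ^ 2) (hc0 : 0 < c) :
    rhoEnt c (PC N (WW N)) (pc N (WW N)) ≤ tt N := by
  have hN1 : 1 ≤ N := by omega
  have hN' : (100 : ℝ) ≤ N := by exact_mod_cast hN
  have hW := WW_one_le hN1
  have hWN := lt_WW (by omega : 2 ≤ N)
  have hZ : 0 < WW N + N := by positivity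
  unfold rhoEnt
  refine ciSup_le fun x => csInf_le ⟨0, fun t ht => ht.1⟩ ⟨tt_nonneg hN1, fun A hconn hA => ?_⟩
  have h1 := (stay_le hN1 hWN hA (tt_nonneg hN1) x).trans (exp_tt_le hN1)
  refine h1.trans (le_min ?_ ?_)
  · have h2 := mass_ge hW hconn.1
    have h3 : 0 < mass (pc N (WW N)) A := lt_of_lt_of_le (by positivity) h2
    have h4 : Real.log (mass (pc N (WW N)) A) < 0 := Real.log_neg h3 (by linarith)
    rw [abs_of_neg h4]
    have h5 : -Real.log (mass (pc N (WW N)) A) ≤ 5 * N := by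
      have h6 : Real.log (1 / (WW N + N)) ≤ Real.log (mass (pc N (WW N)) A) :=
        Real.log_le_log (by positivity) h2
      rw [one_div, Real.log_inv] at h6
      linarith [log_Z_le (by omega : 2 ≤ N)]
    calc 2 / (N : ℝ) ^ 3 ≤ c / (5 * N) := by
          rw [div_le_div_iff₀ (by positivity) (by positivity)]
          rw [div_le_iff₀ hc0] at hc
          have h7 : (0 : ℝ) ≤ N := by linarith
          nlinarith
      _ ≤ _ := div_le_div_of_nonneg_left hc0.le (by linarith) h5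
  · have h8 : (1 : ℝ) ≤ (N : ℝ) ^ 2 := by nlinarith
    have h9 : (100 : ℝ) ≤ (N : ℝ) ^ 3 := by nlinarith
    rw [div_le_div_iff₀ (by positivity) (by norm_num)]
    linarith

lemma semi_entry_le_one {N : ℕ} {W : ℝ} (hW : 1 ≤ W) {t : ℝ} (ht : 0 ≤ t) (x y : Fin (N + 1)) :
    semi (PC N W) t x y ≤ 1 := by
  have hnn : ∀ x y, 0 ≤ PC N W x y := fun x y => tp_nonneg N hW _ _
  have h5 := semi_mulVec_le hnn (g := fun _ => (1 : ℝ)) (r := 1) zero_le_one
      (fun x => by
        have := PC_sum (N := N) (W := W) x (fun _ => 1)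
        have h6 : (PC N W *ᵥ fun _ => (1 : ℝ)) x = ∑ j : Fin (N + 1), PC N W x j * 1 := rfl
        rw [h6, this]; simp) ht x
  have h6 : (semi (PC N W) t *ᵥ fun _ => (1 : ℝ)) x = ∑ j, semi (PC N W) t x j * 1 := rfl
  rw [h6] at h5
  have h7 : semi (PC N W) t x y * 1 ≤ ∑ j, semi (PC N W) t x j * 1 :=
    Finset.single_le_sum (f := fun j => semi (PC N W) t x j * 1)
      (fun j _ => by simpa using semi_nonneg hnn ht x j) (Finset.mem_univ y)
  simpa using h7.trans h5

lemma tau_le {N : ℕ} (hN : 100 ≤ N) :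
    tauEnt (PC N (WW N)) (pc N (WW N)) ≤ tt N := by
  have hN1 : 1 ≤ N := by omega
  have hN' : (100 : ℝ) ≤ N := by exact_mod_cast hN
  have hW := WW_one_le hN1
  have hWN := lt_WW (by omega : 2 ≤ N)
  have hW4 := WW_ge hN1
  have hW0 : 0 < WW N := by linarith
  have hZ : 0 < WW N + N := by positivity
  have hnn : ∀ x y, 0 ≤ PC N (WW N) x y := fun x y => tp_nonneg N hW _ _
  unfold tauEnt
  refine ciSup_le fun x => csInf_le ⟨0, fun t ht => ht.1⟩ ⟨tt_nonneg hN1, ?_⟩
  have ht := tt_nonneg hN1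
  set μ : Fin (N + 1) → ℝ := fun y => semi (PC N (WW N)) (tt N) x y with hμ
  have hμ0 : ∀ y, 0 ≤ μ y := fun y => semi_nonneg hnn ht x y
  have hμ1 : ∀ y, μ y ≤ 1 := fun y => semi_entry_le_one hW ht x y
  have hterm : ∀ y, μ y * Real.log (μ y / pc N (WW N) y) ≤
      (if y = 0 then (N : ℝ) / WW N else 0) + μ y * hh N y.val * (5 * N) := by
    intro y
    have hpy : 0 < pc N (WW N) y := div_pos (wt_pos hW0 _) hZ
    have h0 : 0 ≤ (if y = 0 then (N : ℝ) / WW N else 0) := by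
      split_ifs <;> positivity
    have hh0 : 0 ≤ hh N y.val := hh_nonneg (by omega)
    rcases (hμ0 y).eq_or_lt with h | h
    · rw [← h]; simp only [zero_mul, add_zero]; exact h0
    · have h1 : Real.log (μ y / pc N (WW N) y) ≤ Real.log (1 / pc N (WW N) y) := by
        apply Real.log_le_log (div_pos h hpy)
        gcongr
        exact hμ1 y
      by_cases hy : y = 0
      · rw [if_pos hy]
        have h2 : 1 / pc N (WW N) y = 1 + N / WW N := by
          unfold pc wt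
          rw [hy]
          simp only [Fin.val_zero, if_true]
          field_simp
        have h3 : Real.log (1 / pc N (WW N) y) ≤ N / WW N := by
          rw [h2]
          have := Real.log_le_sub_one_of_pos (by positivity : 0 < 1 + N / WW N)
          linarith
        have h4 : 0 ≤ μ y * hh N y.val * (5 * N) := by positivity
        have h5 : μ y * Real.log (μ y / pc N (WW N) y) ≤ μ y * (N / WW N) :=
          mul_le_mul_of_nonneg_left (h1.trans h3) h.le
        have h6 : μ y * ((N : ℝ) / WW N) ≤ 1 * (N / WW N) :=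
          mul_le_mul_of_nonneg_right (hμ1 y) (by positivity)
        linarith
      · rw [if_neg hy, zero_add]
        have hy1 : 1 ≤ y.val := by
          by_contra hcon
          exact hy (Fin.ext (by show y.val = 0; omega))
        have h2 : 1 / pc N (WW N) y = WW N + N := by
          unfold pc wt
          rw [if_neg (by omega)]
          field_simp
        rw [h2] at h1
        have h3 := one_le_hh (N := N) hy1 (by omega)
        calc μ y * Real.log (μ y / pc N (WW N) y) ≤ μ y * (5 * N) :=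
              mul_le_mul_of_nonneg_left (h1.trans (log_Z_le (by omega))) h.le
          _ = μ y * 1 * (5 * N) := by ring
          _ ≤ _ := by gcongr
  have hsum : relEnt μ (pc N (WW N)) ≤ N / WW N +
      (semi (PC N (WW N)) (tt N) *ᵥ fun j => hh N j.val) x * (5 * N) := by
    unfold relEnt
    calc ∑ y, μ y * Real.log (μ y / pc N (WW N) y)
        ≤ ∑ y, ((if y = 0 then (N : ℝ) / WW N else 0) + μ y * hh N y.val * (5 * N)) :=
          sum_le_sum fun y _ => hterm y
      _ = _ := by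
          rw [sum_add_distrib, Finset.sum_ite_eq' univ (0 : Fin (N + 1)) (fun _ => (N : ℝ) / WW N),
            if_pos (mem_univ _), ← Finset.sum_mul]
          rfl
  have h1 := semi_path_le hN1 hW ht x
  have h2 := exp_tt_le hN1
  have h3 : (2 * (N : ℝ) + 1) ^ 2 / (4 * WW N) ≤ 9 / (4 * (N : ℝ) ^ 2) := by
    rw [div_le_div_iff₀ (by positivity) (by positivity)]
    have h4 : (2 * (N : ℝ) + 1) ^ 2 ≤ 9 * (N : ℝ) ^ 2 := by nlinarith
    calc (2 * (N : ℝ) + 1) ^ 2 * (4 * (N : ℝ) ^ 2) ≤ 9 * (N : ℝ) ^ 2 * (4 * (N : ℝ) ^ 2) := by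
          gcongr
      _ = 9 * (4 * (N : ℝ) ^ 4) := by ring
      _ ≤ 9 * (4 * WW N) := by linarith
  have h5 : (N : ℝ) / WW N ≤ 1 / 100 := by
    rw [div_le_div_iff₀ hW0 (by norm_num)]
    have : (N : ℝ) * 100 ≤ (N : ℝ) ^ 4 := by
      have h6 : (100 : ℝ) ≤ (N : ℝ) ^ 3 := by nlinarith [sq_nonneg (N : ℝ)]
      nlinarith
    linarith
  have h6 : (semi (PC N (WW N)) (tt N) *ᵥ fun j => hh N j.val) x * (5 * N) ≤
      (2 / (N : ℝ) ^ 3 + 9 / (4 * (N : ℝ) ^ 2)) * (5 * N) := by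
    apply mul_le_mul_of_nonneg_right _ (by positivity)
    linarith
  have h7 : (2 / (N : ℝ) ^ 3 + 9 / (4 * (N : ℝ) ^ 2)) * (5 * N) =
      10 / (N : ℝ) ^ 2 + 45 / (4 * N) := by
    field_simp
    ring
  have h8 : 10 / (N : ℝ) ^ 2 ≤ 1 / 100 := by
    rw [div_le_div_iff₀ (by positivity) (by norm_num)]
    nlinarith
  have h9 : 45 / (4 * (N : ℝ)) ≤ 45 / 400 := by
    rw [div_le_div_iff₀ (by positivity) (by norm_num)]
    nlinarith
  have h10 : (10 : ℝ) / (N : ℝ) ^ 2 + 45 / (4 * N) ≤ 1 / 100 + 45 / 400 := by linarith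
  show relEnt μ (pc N (WW N)) ≤ 1 / 2
  calc relEnt μ (pc N (WW N)) ≤ 1 / 100 + (1 / 100 + 45 / 400) := by linarith
    _ ≤ 1 / 2 := by norm_num

/-- For every `C` and every `C_ent` there is a chain with `C ρ_ent < 1 / c_MLS` and
`C τ_ent < 1 / c_MLS`. -/
theorem main (c : ℝ) (hc : 0 < c) (C : ℝ) (hC : 0 < C) :
    ∃ (n : ℕ) (P : Matrix (Fin n) (Fin n) ℝ) (π : Fin n → ℝ), IsRevChain P π ∧ 0 < cMLS P π ∧
      C * rhoEnt c P π < 1 / cMLS P π ∧ C * tauEnt P π < 1 / cMLS P π := by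
  have hlo := Real.isLittleO_log_id_atTop.def (by positivity : 0 < 1 / (864 * C))
  have hev : ∀ᶠ N : ℕ in Filter.atTop, ‖Real.log (N : ℝ)‖ ≤ 1 / (864 * C) * ‖id (N : ℝ)‖ :=
    tendsto_natCast_atTop_atTop.eventually hlo
  have hev2 : ∀ᶠ N : ℕ in Filter.atTop, 10 / c ≤ (N : ℝ) :=
    tendsto_natCast_atTop_atTop.eventually (Filter.eventually_ge_atTop (10 / c))
  obtain ⟨N, hN1, hN2, hN3⟩ := (hev.and (hev2.and (Filter.eventually_ge_atTop 100))).exists
  have hN' : (100 : ℝ) ≤ N := by exact_mod_cast hN3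
  have hlogN : Real.log (N : ℝ) ≤ 1 / (864 * C) * N := by
    have h1 : ‖id (N : ℝ)‖ = N := by
      rw [id, Real.norm_of_nonneg (by positivity)]
    rw [h1] at hN1
    exact (le_abs_self _).trans hN1
  have hlog0 : 0 ≤ Real.log (N : ℝ) := Real.log_nonneg (by linarith)
  have hc2 : 10 / c ≤ (N : ℝ) ^ 2 := by nlinarith
  have hP := isRevChain (N := N) (WW_one_le (by omega : 1 ≤ N))
  have hpos : 0 < cMLS (PC N (WW N)) (pc N (WW N)) := by
    refine cMLS_pos hP ⟨⟨0, by omega⟩, ⟨1, by omega⟩, ?_⟩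
    intro h
    simpa using congrArg Fin.val h
  have hle := cMLS_le (by omega : 9 ≤ N)
  have hrho := rho_le hN3 hc2 hc
  have htau := tau_le hN3
  have htt : C * tt N < 1 / cMLS (PC N (WW N)) (pc N (WW N)) := by
    have h1 : (N : ℝ) ^ 3 / 24 ≤ 1 / cMLS (PC N (WW N)) (pc N (WW N)) := by
      rw [div_le_div_iff₀ (by norm_num) hpos]
      rw [le_div_iff₀ (by positivity)] at hle
      linarith
    refine lt_of_lt_of_le ?_ h1
    unfold tt
    have h2 : (2 * (N : ℝ) + 1) ^ 2 ≤ 9 * (N : ℝ) ^ 2 := by nlinarith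
    have h3 : C * (2 * (2 * (N : ℝ) + 1) ^ 2 * Real.log N) ≤
        C * (2 * (9 * (N : ℝ) ^ 2) * (1 / (864 * C) * N)) := by gcongr
    have h4 : C * (2 * (9 * (N : ℝ) ^ 2) * (1 / (864 * C) * N)) = (N : ℝ) ^ 3 / 48 := by
      field_simp
      ring
    have h5 : (0 : ℝ) < (N : ℝ) ^ 3 := by positivity
    linarith
  refine ⟨N + 1, PC N (WW N), pc N (WW N), hP, hpos, ?_, ?_⟩
  · exact lt_of_le_of_lt (mul_le_mul_of_nonneg_left hrho hC.le) htt
  · exact lt_of_le_of_lt (mul_le_mul_of_nonneg_left htau hC.le) htt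

end

end Pool.Agent.V7H98.MLS
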