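import Pool.Agent.V7H98.MLSGen

open Matrix

namespace Pool.Agent.V7H98.MLS

variable {S : Type} [Fintype S] [DecidableEq S] {P : Matrix S S ℝ} {π : S → ℝ}

lemma sub_mulVec_apply (hP : IsRevChain P π) (f : S → ℝ) (x : S) :
    ((1 - P) *ᵥ f) x = ∑ y, P x y * (f x - f y) := by
  rw [Matrix.sub_mulVec, Matrix.one_mulVec]
  have h1 : (P *ᵥ f) x = ∑ y, P x y * f y := rfl
  rw [Pi.sub_apply, h1]
  simp only [mul_sub, Finset.sum_sub_distrib]
  rw [← Finset.sum_mul, hP.row_sum x, one_mul]

/-- The symmetric form of the Dirichlet form. -/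
lemma dir_eq (hP : IsRevChain P π) (f g : S → ℝ) :
    Dir P π f g = (1 / 2) * ∑ x, ∑ y, π x * P x y * ((f x - f y) * (g x - g y)) := by
  have h1 : Dir P π f g = ∑ x, ∑ y, π x * P x y * ((f x - f y) * g x) := by
    unfold Dir
    refine Finset.sum_congr rfl fun x _ => ?_
    rw [sub_mulVec_apply hP, Finset.mul_sum, Finset.sum_mul]
    exact Finset.sum_congr rfl fun y _ => by ring
  have h2 : Dir P π f g = ∑ x, ∑ y, π x * P x y * ((f y - f x) * g y) := by
    rw [h1, Finset.sum_comm]
    refine Finset.sum_congr rfl fun x _ => Finset.sum_congr rfl fun y _ => ?_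
    rw [hP.reversible y x]
  have h3 : Dir P π f g = (1 / 2) * (Dir P π f g + Dir P π f g) := by ring
  rw [h3]
  nth_rewrite 1 [h1]
  rw [h2, ← Finset.sum_add_distrib]
  congr 1
  refine Finset.sum_congr rfl fun x _ => ?_
  rw [← Finset.sum_add_distrib]
  exact Finset.sum_congr rfl fun y _ => by ring

lemma exp_sub_mul_nonneg (a b : ℝ) : 0 ≤ (Real.exp a - Real.exp b) * (a - b) := by
  rcases le_total a b with h | h
  · have := Real.exp_le_exp.2 h
    nlinarith
  · have := Real.exp_le_exp.2 h
    nlinarith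

lemma dir_exp_nonneg (hP : IsRevChain P π) (f : S → ℝ) :
    0 ≤ Dir P π (fun x => Real.exp (f x)) f := by
  rw [dir_eq hP]
  refine mul_nonneg (by norm_num) (Finset.sum_nonneg fun x _ => Finset.sum_nonneg fun y _ => ?_)
  exact mul_nonneg (mul_nonneg (hP.pi_nonneg x) (hP.nonneg x y)) (exp_sub_mul_nonneg _ _)

lemma pow_reversible (hP : IsRevChain P π) (n : ℕ) (x y : S) :
    π x * (P ^ n) x y = π y * (P ^ n) y x := by
  induction n generalizing x y with
  | zero =>
    rw [pow_zero, Matrix.one_apply, Matrix.one_apply]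
    by_cases h : x = y
    · subst h; rfl
    · rw [if_neg h, if_neg (Ne.symm h)]; simp
  | succ n ih =>
    nth_rewrite 1 [pow_succ]
    rw [pow_succ', Matrix.mul_apply, Matrix.mul_apply, Finset.mul_sum, Finset.mul_sum]
    refine Finset.sum_congr rfl fun z _ => ?_
    calc π x * ((P ^ n) x z * P z y) = (π x * (P ^ n) x z) * P z y := by ring
      _ = (π z * (P ^ n) z x) * P z y := by rw [ih]
      _ = (π z * P z y) * (P ^ n) z x := by ring
      _ = (π y * P y z) * (P ^ n) z x := by rw [hP.reversible]
      _ = _ := by ring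

lemma pi_pos (hP : IsRevChain P π) (x : S) : 0 < π x := by
  have hex : ∃ z, 0 < π z := by
    by_contra hcon
    push Not at hcon
    have : ∑ z, π z ≤ 0 := Finset.sum_nonpos fun z _ => hcon z
    rw [hP.pi_sum] at this
    linarith
  obtain ⟨z, hz⟩ := hex
  obtain ⟨n, hn⟩ := hP.irred z x
  have h := pow_reversible hP n z x
  have h1 : 0 < π x * (P ^ n) x z := by rw [← h]; positivity
  exact (pos_iff_pos_of_mul_pos h1).2 (by
    rcases (hP.pi_nonneg x).eq_or_lt with h0 | h0
    · rw [← h0] at h1; simp at h1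
    · exact (pos_iff_pos_of_mul_pos h1).1 h0)

lemma ent_exp_pos (hP : IsRevChain P π) (f : S → ℝ) (hf : ∃ x y, f x ≠ f y) :
    0 < Ent π (fun x => Real.exp (f x)) := by
  obtain ⟨x, y, hxy⟩ := hf
  have h := Real.strictConvexOn_mul_log.map_sum_lt (t := Finset.univ) (w := π)
    (p := fun x => Real.exp (f x)) (fun i _ => pi_pos hP i) hP.pi_sum
    (fun i _ => (Real.exp_pos _).le) ⟨x, Finset.mem_univ _, y, Finset.mem_univ _,
      fun h => hxy (Real.exp_injective h)⟩
  simp only [smul_eq_mul] at h
  unfold Ent mean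
  simp only at h ⊢
  linarith

lemma cMLS_bddBelow (hP : IsRevChain P π) : BddBelow {r | ∃ f : S → ℝ, (∃ x y, f x ≠ f y) ∧
    r = Dir P π (fun x => Real.exp (f x)) f / Ent π (fun x => Real.exp (f x))} := by
  refine ⟨0, ?_⟩
  rintro r ⟨f, hf, rfl⟩
  exact div_nonneg (dir_exp_nonneg hP f) (ent_exp_pos hP f hf).le

lemma poincare_edge (hP : IsRevChain P π) (x y : S) (n : ℕ) (hn : 0 < (P ^ n) x y) :
    ∃ C : ℝ, 0 < C ∧ ∀ g : S → ℝ, (g x - g y) ^ 2 ≤ C * Dir P π g g := by
  induction n generalizing y with
  | zero =>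
    rw [pow_zero, Matrix.one_apply] at hn
    by_cases h : x = y
    · subst h
      refine ⟨1, one_pos, fun g => ?_⟩
      rw [dir_eq hP, sub_self]
      have : 0 ≤ ∑ x, ∑ y, π x * P x y * ((g x - g y) * (g x - g y)) :=
        Finset.sum_nonneg fun x _ => Finset.sum_nonneg fun y _ =>
          mul_nonneg (mul_nonneg (hP.pi_nonneg x) (hP.nonneg x y)) (mul_self_nonneg _)
      linarith
    · rw [if_neg h] at hn; exact absurd hn (lt_irrefl _)
  | succ n ih =>
    rw [pow_succ, Matrix.mul_apply] at hn
    obtain ⟨z, -, hz⟩ := Finset.exists_lt_of_sum_lt (f := fun _ => (0 : ℝ)) (by simpa using hn)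
    have h1 : 0 ≤ (P ^ n) x z := pow_nonneg_entries hP.nonneg n x z
    have h2 : 0 ≤ P z y := hP.nonneg z y
    have h1' : 0 < (P ^ n) x z := by
      rcases h1.eq_or_lt with h | h
      · rw [← h] at hz; simp at hz
      · exact h
    have h2' : 0 < P z y := by
      rcases h2.eq_or_lt with h | h
      · rw [← h] at hz; simp at hz
      · exact h
    obtain ⟨C, hC, hCg⟩ := ih z h1'
    have hz0 := pi_pos hP z
    refine ⟨2 * C + 4 / (π z * P z y), by positivity, fun g => ?_⟩
    have h3 : (1 / 2) * (π z * P z y * ((g z - g y) * (g z - g y))) ≤ Dir P π g g := by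
      rw [dir_eq hP]
      refine mul_le_mul_of_nonneg_left ?_ (by norm_num)
      have hnn : ∀ x y, 0 ≤ π x * P x y * ((g x - g y) * (g x - g y)) := fun x y =>
        mul_nonneg (mul_nonneg (hP.pi_nonneg x) (hP.nonneg x y)) (mul_self_nonneg _)
      calc π z * P z y * ((g z - g y) * (g z - g y))
          ≤ ∑ y, π z * P z y * ((g z - g y) * (g z - g y)) :=
            Finset.single_le_sum (f := fun y => π z * P z y * ((g z - g y) * (g z - g y)))
              (fun i _ => hnn z i) (Finset.mem_univ y)
        _ ≤ _ := Finset.single_le_sum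
              (f := fun z => ∑ y, π z * P z y * ((g z - g y) * (g z - g y)))
              (fun i _ => Finset.sum_nonneg fun j _ => hnn i j) (Finset.mem_univ z)
    have h4 : (g z - g y) ^ 2 ≤ 2 / (π z * P z y) * Dir P π g g := by
      rw [div_mul_eq_mul_div, le_div_iff₀ (by positivity)]
      nlinarith
    have h5 := hCg g
    have h6 : (g x - g y) ^ 2 ≤ 2 * (g x - g z) ^ 2 + 2 * (g z - g y) ^ 2 := by
      nlinarith [sq_nonneg ((g x - g z) - (g z - g y))]
    calc (g x - g y) ^ 2 ≤ 2 * (C * Dir P π g g) + 2 * (2 / (π z * P z y) * Dir P π g g) := by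
          linarith
      _ = _ := by ring

lemma poincare (hP : IsRevChain P π) : ∃ C : ℝ, 0 < C ∧ ∀ (g : S → ℝ) (x y : S),
    (g x - g y) ^ 2 ≤ C * Dir P π g g := by
  have h : ∀ p : S × S, ∃ C : ℝ, 0 < C ∧ ∀ g : S → ℝ, (g p.1 - g p.2) ^ 2 ≤ C * Dir P π g g := by
    rintro ⟨x, y⟩
    obtain ⟨n, hn⟩ := hP.irred x y
    exact poincare_edge hP x y n hn
  choose C hC hCg using h
  have hne : Nonempty S := by
    by_contra hne
    rw [not_nonempty_iff] at hne
    have := hP.pi_sum
    simp at this
  obtain ⟨x0⟩ := hne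
  have hD : ∀ g : S → ℝ, 0 ≤ Dir P π g g := fun g => by
    have h1 := hCg (x0, x0) g
    have h2 := hC (x0, x0)
    simp only [sub_self] at h1
    by_contra hneg
    push Not at hneg
    nlinarith
  refine ⟨∑ p, C p, Finset.sum_pos (fun p _ => hC p) ⟨(x0, x0), Finset.mem_univ _⟩,
    fun g x y => (hCg (x, y) g).trans ?_⟩
  exact mul_le_mul_of_nonneg_right
    (Finset.single_le_sum (f := C) (fun p _ => (hC p).le) (Finset.mem_univ (x, y))) (hD g)

/-- `c_MLS` is positive. -/
theorem cMLS_pos (hP : IsRevChain P π) (hS : ∃ x y : S, x ≠ y) : 0 < cMLS P π := by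
  obtain ⟨C, hC, hCg⟩ := poincare hP
  have hne : Nonempty S := ⟨hS.choose⟩
  obtain ⟨z, hz⟩ := Finite.exists_min π
  have hz0 := pi_pos hP z
  have hkey : ∀ r ∈ {r | ∃ f : S → ℝ, (∃ x y, f x ≠ f y) ∧
      r = Dir P π (fun x => Real.exp (f x)) f / Ent π (fun x => Real.exp (f x))}, π z / C ≤ r := by
    rintro r ⟨f, hf, rfl⟩
    have hEnt := ent_exp_pos hP f hf
    rw [le_div_iff₀ hEnt]
    obtain ⟨a, ha⟩ := Finite.exists_max f
    obtain ⟨b, hb⟩ := Finite.exists_min f
    set g : S → ℝ := fun x => Real.exp (f x) with hg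
    have hgpos : ∀ x, 0 < g x := fun x => Real.exp_pos _
    have hga : ∀ x, g x ≤ g a := fun x => Real.exp_le_exp.2 (ha x)
    have hgb : ∀ x, g b ≤ g x := fun x => Real.exp_le_exp.2 (hb x)
    -- lower bound of the Dirichlet form
    have h1 : Dir P π g g ≤ g a * Dir P π g f := by
      rw [dir_eq hP, dir_eq hP]
      have : g a * ((1 / 2) * ∑ x, ∑ y, π x * P x y * ((g x - g y) * (f x - f y)))
          = (1 / 2) * ∑ x, ∑ y, π x * P x y * (g a * ((g x - g y) * (f x - f y))) := by
        rw [mul_left_comm, Finset.mul_sum]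
        congr 1
        refine Finset.sum_congr rfl fun x _ => ?_
        rw [Finset.mul_sum]
        exact Finset.sum_congr rfl fun y _ => by ring
      rw [this]
      refine mul_le_mul_of_nonneg_left (Finset.sum_le_sum fun x _ => Finset.sum_le_sum fun y _ =>
        mul_le_mul_of_nonneg_left ?_ (mul_nonneg (hP.pi_nonneg x) (hP.nonneg x y))) (by norm_num)
      have key : ∀ x y, f y ≤ f x → (g x - g y) * (g x - g y) ≤
          g a * ((g x - g y) * (f x - f y)) := by
        intro x y hxy
        have e1 : g y ≤ g x := Real.exp_le_exp.2 hxy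
        have e2 : g x - g y ≤ g x * (f x - f y) := by
          have := Real.add_one_le_exp (f y - f x)
          have e3 : g y = g x * Real.exp (f y - f x) := by
            rw [hg]; simp only [← Real.exp_add]; congr 1; ring
          rw [e3]
          nlinarith [hgpos x]
        have e4 : g x * (f x - f y) ≤ g a * (f x - f y) :=
          mul_le_mul_of_nonneg_right (hga x) (by linarith)
        nlinarith
      rcases le_total (f y) (f x) with h | h
      · exact key x y h
      · have := key y x h
        nlinarith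
    -- upper bound of the entropy
    set m := mean π g with hm
    have hmpos : 0 < m := Finset.sum_pos (fun x _ => mul_pos (pi_pos hP x) (hgpos x))
      ⟨a, Finset.mem_univ a⟩
    have hm1 : m ≤ g a := by
      calc m ≤ ∑ x, π x * g a := Finset.sum_le_sum fun x _ =>
            mul_le_mul_of_nonneg_left (hga x) (hP.pi_nonneg x)
        _ = g a := by rw [← Finset.sum_mul, hP.pi_sum, one_mul]
    have hm2 : g b ≤ m := by
      calc g b = ∑ x, π x * g b := by rw [← Finset.sum_mul, hP.pi_sum, one_mul]
        _ ≤ m := Finset.sum_le_sum fun x _ =>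
            mul_le_mul_of_nonneg_left (hgb x) (hP.pi_nonneg x)
    have hm3 : π z * g a ≤ m := by
      calc π z * g a ≤ π a * g a := mul_le_mul_of_nonneg_right (hz a) (hgpos a).le
        _ ≤ m := Finset.single_le_sum (f := fun x => π x * g x)
            (fun x _ => mul_nonneg (hP.pi_nonneg x) (hgpos x).le) (Finset.mem_univ a)
    have h2 : Ent π g * m ≤ (g a - g b) ^ 2 := by
      have e1 : Ent π g * m = ∑ x, π x * (m * (g x * (Real.log (g x) - Real.log m))) := by
        unfold Ent
        rw [← hm]
        simp only [mul_sub, Finset.sum_sub_distrib]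
        unfold mean
        rw [sub_mul, Finset.sum_mul]
        congr 1
        · exact Finset.sum_congr rfl fun x _ => by ring
        · rw [hm]; unfold mean
          rw [Finset.sum_mul, Finset.sum_mul]
          exact Finset.sum_congr rfl fun x _ => by ring
      have e2 : ∀ x, m * (g x * (Real.log (g x) - Real.log m)) ≤
          (g a - g b) ^ 2 + m * (g x - m) := by
        intro x
        have e3 : Real.log (g x) - Real.log m ≤ g x / m - 1 := by
          rw [← Real.log_div (hgpos x).ne' hmpos.ne']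
          exact Real.log_le_sub_one_of_pos (div_pos (hgpos x) hmpos)
        have e4 : m * (g x * (Real.log (g x) - Real.log m)) ≤ m * (g x * (g x / m - 1)) := by
          have := hgpos x
          gcongr
        have e5 : m * (g x * (g x / m - 1)) = (g x - m) ^ 2 + m * (g x - m) := by
          field_simp
          ring
        have e6 : (g x - m) ^ 2 ≤ (g a - g b) ^ 2 := by
          apply sq_le_sq'
          · linarith [hgb x]
          · linarith [hga x]
        linarith
      rw [e1]
      calc ∑ x, π x * (m * (g x * (Real.log (g x) - Real.log m)))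
          ≤ ∑ x, π x * ((g a - g b) ^ 2 + m * (g x - m)) :=
            Finset.sum_le_sum fun x _ => mul_le_mul_of_nonneg_left (e2 x) (hP.pi_nonneg x)
        _ = (∑ x, π x) * (g a - g b) ^ 2 + m * (∑ x, π x * g x) - m * m * ∑ x, π x := by
            rw [Finset.sum_mul, Finset.mul_sum, Finset.mul_sum, ← Finset.sum_add_distrib,
              ← Finset.sum_sub_distrib]
            exact Finset.sum_congr rfl fun x _ => by ring
        _ = (g a - g b) ^ 2 := by
            have : ∑ x, π x * g x = m := rfl
            rw [this, hP.pi_sum]; ring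
    have h3 : Ent π g * (π z * g a) ≤ C * (g a * Dir P π g f) := by
      calc Ent π g * (π z * g a) ≤ Ent π g * m := mul_le_mul_of_nonneg_left hm3 hEnt.le
        _ ≤ (g a - g b) ^ 2 := h2
        _ ≤ C * Dir P π g g := hCg g a b
        _ ≤ C * (g a * Dir P π g f) := mul_le_mul_of_nonneg_left h1 hC.le
    have h4 : Ent π g * π z ≤ C * Dir P π g f := by
      have hga0 := hgpos a
      by_contra hcon
      push Not at hcon
      have := mul_lt_mul_of_pos_right hcon hga0
      nlinarith
    rw [div_mul_eq_mul_div, div_le_iff₀ hC]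
    linarith
  obtain ⟨x, y, hxy⟩ := hS
  have hnonempty : {r | ∃ f : S → ℝ, (∃ x y, f x ≠ f y) ∧
      r = Dir P π (fun x => Real.exp (f x)) f / Ent π (fun x => Real.exp (f x))}.Nonempty := by
    refine ⟨_, fun s => if s = x then 1 else 0, ⟨x, y, ?_⟩, rfl⟩
    simp [Ne.symm hxy]
  exact lt_of_lt_of_le (div_pos hz0 hC) (le_csInf hnonempty hkey)

end Pool.Agent.V7H98.MLS
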