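import Pool.Agent.V7H98.TCProd

/-!
# Approximate integer cocycles on three independent copies
-/

open MeasureTheory Measure Set Function
open scoped ENNReal

namespace Pool.Agent.V7H98.TC

variable {X : Type*} [MeasurableSpace X] (P : Measure X) [IsProbabilityMeasure P]

/-- the law of three independent copies -/
noncomputable abbrev P3 : Measure (Fin 3 → X) := iid (Fin 3) P

lemma perm_le {σ : Fin 3 → Fin 3} (hσ : Injective σ) {B : Set (Fin 3 → X)} (hB : MeasurableSet B)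
    {ε : ℝ≥0∞} (h : P3 P B ≤ ε) : P3 P {z | (fun i => z (σ i)) ∈ B} ≤ ε := by
  have := (mp_comp P hσ).measure_preimage hB.nullMeasurableSet
  exact (le_of_eq this).trans h

lemma union_le {A B C : Set (Fin 3 → X)} {a b : ℝ≥0∞} (hC : C ⊆ A ∪ B) (hA : P3 P A ≤ a)
    (hB : P3 P B ≤ b) : P3 P C ≤ a + b :=
  (measure_mono hC).trans ((measure_union_le _ _).trans (add_le_add hA hB))

lemma exists_notMem {A : Set (Fin 3 → X)} {a : ℝ≥0∞} (hA : P3 P A ≤ a) (ha : a < 1) :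
    ∃ z, z ∉ A := by
  by_contra hcon
  push Not at hcon
  have : A = univ := eq_univ_of_forall hcon
  rw [this, measure_univ] at hA
  exact absurd hA (not_le.2 ha)

section meas

lemma meas2 {f : X → X → ℤ} (hf : Measurable (uncurry f)) (i j : Fin 3) :
    Measurable fun z : Fin 3 → X => f (z i) (z j) := by
  have h : Measurable fun z : Fin 3 → X => (z i, z j) :=
    (measurable_pi_apply i).prodMk (measurable_pi_apply j)
  exact hf.comp h

end meas

/-- If `φ(a, c) = φ(b, a)` with high probability then `φ` is constant with high probability. -/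
lemma const_of {φ : X → X → ℤ} (hφ : Measurable (uncurry φ)) {δ : ℝ≥0∞}
    (h : P3 P {z | φ (z 0) (z 2) ≠ φ (z 1) (z 0)} ≤ δ) :
    ∃ K : ℤ, P3 P {z | φ (z 0) (z 2) ≠ K} ≤ δ + (δ + δ + δ) := by
  have hm : MeasurableSet {z : Fin 3 → X | φ (z 0) (z 2) ≠ φ (z 1) (z 0)} :=
    (measurableSet_eq_fun (meas2 hφ 0 2) (meas2 hφ 1 0)).compl
  obtain ⟨b, hb⟩ := exists_update P 1 hm
  have hA1 : P3 P {z | φ (z 0) (z 2) ≠ φ b (z 0)} ≤ δ := by
    refine le_trans (le_of_eq ?_) (hb.trans h)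
    congr 1
  have hψ : Measurable fun a => φ b a := hφ.comp (measurable_const.prodMk measurable_id)
  have hmA1 : MeasurableSet {z : Fin 3 → X | φ (z 0) (z 2) ≠ φ b (z 0)} :=
    (measurableSet_eq_fun (meas2 hφ 0 2) (hψ.comp (measurable_pi_apply 0))).compl
  have hA2 : P3 P {z | φ (z 1) (z 0) ≠ φ b (z 1)} ≤ δ := by
    have := perm_le P (σ := ![1, 2, 0]) (by decide) hmA1 hA1
    simpa using this
  have hA3 : P3 P {z | φ b (z 0) ≠ φ b (z 1)} ≤ δ + δ + δ := by
    refine union_le P ?_ (union_le P (subset_refl _) hA1 hA2) h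
    intro z hz
    simp only [mem_union, mem_ofPred_eq] at hz ⊢
    by_contra hcon
    push Not at hcon
    exact hz (by rw [← hcon.1.1, ← hcon.1.2, hcon.2])
  have hmA3 : MeasurableSet {z : Fin 3 → X | φ b (z 0) ≠ φ b (z 1)} :=
    (measurableSet_eq_fun (hψ.comp (measurable_pi_apply 0)) (hψ.comp (measurable_pi_apply 1))).compl
  obtain ⟨c, hc⟩ := exists_update P 1 hmA3
  have hA4 : P3 P {z | φ b (z 0) ≠ φ b c} ≤ δ + δ + δ := by
    refine le_trans (le_of_eq ?_) (hc.trans hA3)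
    congr 1
  refine ⟨φ b c, union_le P ?_ hA1 hA4⟩
  intro z hz
  simp only [mem_union, mem_ofPred_eq] at hz ⊢
  by_contra hcon
  push Not at hcon
  exact hz (by rw [hcon.1, hcon.2])

/-- The properties of the approximate cocycle. -/
structure Coc (L : ℕ) (ε : ℝ≥0∞) (x : X → ZMod 3) (f : ℕ → X → X → ℤ) : Prop where
  meas : ∀ l, Measurable (uncurry (f l))
  measx : Measurable x
  add : ∀ l m, L ≤ l → l ≤ 4 * L → L ≤ m → m ≤ 4 * L →
    P3 P {z | f l (z 0) (z 1) + f m (z 1) (z 2) ≠ f (l + m) (z 0) (z 2)} ≤ ε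
  val : ∀ l, L ≤ l → l ≤ 4 * L →
    P3 P {z | ¬ (|f l (z 0) (z 1)| ≤ (l : ℤ) ∧ (f l (z 0) (z 1) - (l : ℤ)) % 2 = 0 ∧
      ((f l (z 0) (z 1) : ℤ) : ZMod 3) = x (z 1) - x (z 0))} ≤ ε

variable {P}

/-- the three-cycle sum -/
def T (f : ℕ → X → X → ℤ) (l : ℕ) (z : Fin 3 → X) : ℤ :=
  f l (z 0) (z 1) + f l (z 1) (z 2) + f l (z 2) (z 0)

lemma meas_T {f : ℕ → X → X → ℤ} (hf : ∀ l, Measurable (uncurry (f l))) (l : ℕ) :
    Measurable (T f l) :=
  ((meas2 (hf l) 0 1).add (meas2 (hf l) 1 2)).add (meas2 (hf l) 2 0)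

lemma exists_K {L : ℕ} {ε : ℝ≥0∞} {x : X → ZMod 3} {f : ℕ → X → X → ℤ} (h : Coc P L ε x f) {l : ℕ}
    (h1 : L ≤ l) (h2 : l ≤ 4 * L) :
    ∃ K : ℤ, P3 P {z | T f l z ≠ K} ≤ 9 * ε := by
  set φ : X → X → ℤ := fun a c => f (l + l) a c + f l c a with hφdef
  have hφ : Measurable (uncurry φ) :=
    (h.meas (l + l)).add ((h.meas l).comp measurable_swap)
  have e1 : P3 P {z | T f l z ≠ φ (z 0) (z 2)} ≤ ε := by
    refine le_trans (measure_mono ?_) (h.add l l h1 h2 h1 h2)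
    intro z hz
    simp only [mem_ofPred_eq, T, hφdef] at hz ⊢
    intro hcon
    exact hz (by rw [← hcon])
  have hm1 : MeasurableSet {z : Fin 3 → X | T f l z ≠ φ (z 0) (z 2)} :=
    (measurableSet_eq_fun (meas_T h.meas l) (meas2 hφ 0 2)).compl
  have e2 : P3 P {z | T f l z ≠ φ (z 1) (z 0)} ≤ ε := by
    have := perm_le P (σ := ![1, 2, 0]) (by decide) hm1 e1
    refine le_trans (le_of_eq ?_) this
    congr 1
    ext z
    simp only [mem_ofPred_eq, T]
    have e : f l (z 0) (z 1) + f l (z 1) (z 2) + f l (z 2) (z 0) =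
      f l (z 1) (z 2) + f l (z 2) (z 0) + f l (z 0) (z 1) := by ring
    rw [e]
    rfl
  have e3 : P3 P {z | φ (z 0) (z 2) ≠ φ (z 1) (z 0)} ≤ ε + ε := by
    refine union_le P ?_ e1 e2
    intro z hz
    simp only [mem_union, mem_ofPred_eq] at hz ⊢
    by_contra hcon
    push Not at hcon
    exact hz (by rw [← hcon.1, ← hcon.2])
  obtain ⟨K, hK⟩ := const_of P hφ e3
  refine ⟨K, ?_⟩
  have e4 : P3 P {z | T f l z ≠ K} ≤ ε + (ε + ε + (ε + ε + (ε + ε) + (ε + ε))) := by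
    refine union_le P ?_ e1 hK
    intro z hz
    simp only [mem_union, mem_ofPred_eq] at hz ⊢
    by_contra hcon
    push Not at hcon
    exact hz (by rw [hcon.1, hcon.2])
  refine e4.trans (le_of_eq ?_)
  ring

lemma nine_lt {ε : ℝ≥0∞} (hε : 30 * ε < 1) (n : ℕ) (hn : n ≤ 30) : (n : ℝ≥0∞) * ε < 1 :=
  lt_of_le_of_lt (mul_le_mul_left (by exact_mod_cast hn) ε) hε

lemma K_add {L : ℕ} {ε : ℝ≥0∞} {x : X → ZMod 3} {f : ℕ → X → X → ℤ} (h : Coc P L ε x f)
    (hε : 30 * ε < 1) {l m : ℕ}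
    (h1 : L ≤ l) (h2 : L ≤ m) (h3 : l + m ≤ 4 * L) {Kl Km Kn : ℤ}
    (hl : P3 P {z | T f l z ≠ Kl} ≤ 9 * ε) (hm : P3 P {z | T f m z ≠ Km} ≤ 9 * ε)
    (hn : P3 P {z | T f (l + m) z ≠ Kn} ≤ 9 * ε) : Kl + Km = Kn := by
  have a1 := h.add l m h1 (by omega) h2 (by omega)
  have hmeas : MeasurableSet {z : Fin 3 → X | f l (z 0) (z 1) + f m (z 1) (z 2) ≠
      f (l + m) (z 0) (z 2)} :=
    (measurableSet_eq_fun ((meas2 (h.meas l) 0 1).add (meas2 (h.meas m) 1 2))
      (meas2 (h.meas (l + m)) 0 2)).compl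
  have a2 := perm_le P (σ := ![1, 2, 0]) (by decide) hmeas a1
  have a3 := perm_le P (σ := ![2, 0, 1]) (by decide) hmeas a1
  have hn' := perm_le P (σ := ![0, 2, 1]) (B := {z | T f (l + m) z ≠ Kn}) (by decide)
    (measurableSet_eq_fun (meas_T h.meas (l + m)) measurable_const).compl hn
  have tot := union_le P (subset_refl _) (union_le P (subset_refl _) (union_le P (subset_refl _) a1 a2) a3)
    (union_le P (subset_refl _) (union_le P (subset_refl _) hl hm) hn')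
  obtain ⟨z, hz⟩ := exists_notMem P tot (by
    have := nine_lt hε 30 le_rfl
    refine lt_of_le_of_lt (le_of_eq ?_) hε
    ring)
  simp only [mem_union, mem_ofPred_eq, not_or, not_not] at hz
  obtain ⟨⟨⟨z1, z2⟩, z3⟩, ⟨z4, z5⟩, z6⟩ := hz
  simp only [T, Matrix.cons_val_zero, Matrix.cons_val_one, Matrix.cons_val] at z1 z2 z3 z4 z5 z6
  linarith

/-- The good values. -/
lemma K_props {L : ℕ} {ε : ℝ≥0∞} {x : X → ZMod 3} {f : ℕ → X → X → ℤ} (h : Coc P L ε x f)
    (hε : 30 * ε < 1) {l : ℕ} (h1 : L ≤ l) (h2 : l ≤ 4 * L) {K : ℤ}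
    (hK : P3 P {z | T f l z ≠ K} ≤ 9 * ε) :
    |K| ≤ 3 * l ∧ (K - l) % 2 = 0 ∧ ((K : ℤ) : ZMod 3) = 0 ∧
      (K = 3 * l ∨ K = -(3 * l) → ((l : ℕ) : ZMod 3) = 0) := by
  have a1 := h.val l h1 h2
  have hmeas : MeasurableSet {z : Fin 3 → X | ¬ (|f l (z 0) (z 1)| ≤ (l : ℤ) ∧
      (f l (z 0) (z 1) - (l : ℤ)) % 2 = 0 ∧
      ((f l (z 0) (z 1) : ℤ) : ZMod 3) = x (z 1) - x (z 0))} := by
    have m1 := meas2 (h.meas l) 0 1
    have m2 : Measurable fun z : Fin 3 → X => (f l (z 0) (z 1), x (z 0), x (z 1)) :=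
      m1.prodMk ((h.measx.comp (measurable_pi_apply 0)).prodMk
        (h.measx.comp (measurable_pi_apply 1)))
    have : {z : Fin 3 → X | ¬ (|f l (z 0) (z 1)| ≤ (l : ℤ) ∧
      (f l (z 0) (z 1) - (l : ℤ)) % 2 = 0 ∧
      ((f l (z 0) (z 1) : ℤ) : ZMod 3) = x (z 1) - x (z 0))} =
      (fun z : Fin 3 → X => (f l (z 0) (z 1), x (z 0), x (z 1))) ⁻¹'
        {p : ℤ × ZMod 3 × ZMod 3 | ¬ (|p.1| ≤ (l : ℤ) ∧ (p.1 - (l : ℤ)) % 2 = 0 ∧
          ((p.1 : ℤ) : ZMod 3) = p.2.2 - p.2.1)} := rfl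
    rw [this]
    exact m2 (MeasurableSet.of_discrete)
  have a2 := perm_le P (σ := ![1, 2, 0]) (by decide) hmeas a1
  have a3 := perm_le P (σ := ![2, 0, 1]) (by decide) hmeas a1
  have b1 := perm_le P (σ := ![1, 0, 2]) (by decide) hmeas a1
  have b2 := perm_le P (σ := ![0, 2, 1]) (by decide) hmeas a1
  have b3 := perm_le P (σ := ![2, 1, 0]) (by decide) hmeas a1
  have hK' := perm_le P (σ := ![1, 0, 2]) (B := {z | T f l z ≠ K}) (by decide)
    (measurableSet_eq_fun (meas_T h.meas l) measurable_const).compl hK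
  have tot := union_le P (subset_refl _) (union_le P (subset_refl _) (union_le P (subset_refl _) a1 a2) a3)
    (union_le P (subset_refl _) (union_le P (subset_refl _) (union_le P (subset_refl _) b1 b2) b3)
      (union_le P (subset_refl _) hK hK'))
  obtain ⟨z, hz⟩ := exists_notMem P tot (by
    refine lt_of_le_of_lt (le_of_eq ?_) (nine_lt hε 24 (by norm_num))
    push_cast
    ring)
  simp only [mem_union, mem_ofPred_eq, not_or, not_not] at hz
  obtain ⟨⟨⟨z1, z2⟩, z3⟩, ⟨⟨y1, y2⟩, y3⟩, z4, y4⟩ := hz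
  simp only [T, Matrix.cons_val_zero, Matrix.cons_val_one, Matrix.cons_val] at z1 z2 z3 z4 y1 y2 y3 y4
  obtain ⟨u1, v1, w1⟩ := z1
  obtain ⟨u2, v2, w2⟩ := z2
  obtain ⟨u3, v3, w3⟩ := z3
  obtain ⟨r1, s1, t1⟩ := y1
  obtain ⟨r2, s2, t2⟩ := y2
  obtain ⟨r3, s3, t3⟩ := y3
  rw [abs_le] at u1 u2 u3 r1 r2 r3
  refine ⟨?_, ?_, ?_, ?_⟩
  · rw [abs_le]; constructor <;> linarith
  · omega
  · rw [← z4]
    push_cast
    rw [w1, w2, w3]
    ring
  · rintro (hcase | hcase)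
    · have e1 : f l (z 0) (z 1) = l := by linarith
      have e2 : f l (z 1) (z 0) = l := by linarith
      rw [e1] at w1
      rw [e2] at t1
      have e3 : ((l : ℕ) : ZMod 3) + ((l : ℕ) : ZMod 3) = 0 := by
        have := congrArg₂ (· + ·) w1 t1
        simp only [Int.cast_natCast] at this
        rw [this]; ring
      have e4 : ((l : ℕ) : ZMod 3) + ((l : ℕ) : ZMod 3) + ((l : ℕ) : ZMod 3) = 0 := by
        have : (3 : ZMod 3) = 0 := rfl
        linear_combination ((l : ℕ) : ZMod 3) * this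
      rw [e3, zero_add] at e4
      exact e4
    · have e1 : f l (z 0) (z 1) = -l := by linarith
      have e2 : f l (z 1) (z 0) = -l := by linarith
      rw [e1] at w1
      rw [e2] at t1
      have e3 : ((l : ℕ) : ZMod 3) + ((l : ℕ) : ZMod 3) = 0 := by
        have := congrArg₂ (· + ·) w1 t1
        simp only [Int.cast_neg, Int.cast_natCast] at this
        have h0 : -((l : ℕ) : ZMod 3) + -((l : ℕ) : ZMod 3) = 0 := by rw [this]; ring
        linear_combination -h0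
      have e4 : ((l : ℕ) : ZMod 3) + ((l : ℕ) : ZMod 3) + ((l : ℕ) : ZMod 3) = 0 := by
        have : (3 : ZMod 3) = 0 := rfl
        linear_combination ((l : ℕ) : ZMod 3) * this
      rw [e3, zero_add] at e4
      exact e4

/-- There is no approximate cocycle. -/
theorem no_coc {L : ℕ} (hL : 1 ≤ L) {ε : ℝ≥0∞} (hε : 30 * ε < 1) {x : X → ZMod 3}
    {f : ℕ → X → X → ℤ} (h : Coc P L ε x f) : False := by
  have hK : ∀ l, ∃ K : ℤ, L ≤ l → l ≤ 4 * L → P3 P {z | T f l z ≠ K} ≤ 9 * ε := by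
    intro l
    by_cases hl : L ≤ l ∧ l ≤ 4 * L
    · obtain ⟨K, hK⟩ := exists_K h hl.1 hl.2
      exact ⟨K, fun _ _ => hK⟩
    · exact ⟨0, fun h1 h2 => absurd ⟨h1, h2⟩ hl⟩
  choose K hK using hK
  have hadd : ∀ l m, L ≤ l → L ≤ m → l + m ≤ 4 * L → K l + K m = K (l + m) := fun l m h1 h2 h3 =>
    K_add h hε h1 h2 h3 (hK l h1 (by omega)) (hK m h2 (by omega)) (hK (l + m) (by omega) h3)
  have hprop := fun l (h1 : L ≤ l) (h2 : l ≤ 4 * L) => K_props h hε h1 h2 (hK l h1 h2)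
  set Δ := K (L + 1) - K L with hΔ
  have hlin : ∀ n, n ≤ L → K (L + n) = K L + n * Δ := by
    intro n
    induction n with
    | zero => intro _; simp
    | succ n ih =>
      intro hn
      have i1 := ih (by omega)
      have i2 := hadd (L + n + 1) L (by omega) le_rfl (by omega)
      have i3 := hadd (L + n) (L + 1) (by omega) (by omega) (by omega)
      have i4 : L + n + 1 + L = L + n + (L + 1) := by ring
      rw [i4] at i2
      have i5 : K (L + (n + 1)) = K (L + n + 1) := by rw [add_assoc]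
      rw [i5]
      push_cast
      linarith
  have h2L := hadd L L le_rfl le_rfl (by omega)
  have hLL := hlin L le_rfl
  have hKL : K L = L * Δ := by linarith
  obtain ⟨p1, p2, p3, p4⟩ := hprop L le_rfl (by omega)
  obtain ⟨q1, q2, q3, q4⟩ := hprop (L + 1) (by omega) (by omega)
  have hLpos : (1 : ℤ) ≤ L := by exact_mod_cast hL
  -- `Δ` is odd
  have hodd : (Δ - 1) % 2 = 0 := by push_cast at q2; omega
  -- `Δ` is divisible by three
  have hdiv : (3 : ℤ) ∣ Δ := by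
    have : ((Δ : ℤ) : ZMod 3) = 0 := by rw [hΔ]; push_cast; rw [q3, p3, sub_zero]
    exact (ZMod.intCast_zmod_eq_zero_iff_dvd Δ 3).1 this
  -- `|Δ| ≤ 3`
  have habs : |Δ| ≤ 3 := by
    rw [hKL, abs_mul, abs_of_pos (by linarith : (0 : ℤ) < L)] at p1
    by_contra hcon
    push Not at hcon
    nlinarith
  rw [abs_le] at habs
  have hcase : Δ = 3 ∨ Δ = -3 := by omega
  have hKL1 : K (L + 1) = (L + 1) * Δ := by
    have := hlin 1 hL
    rw [this, hKL]
    push_cast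
    ring
  have z1 : ((L : ℕ) : ZMod 3) = 0 := by
    apply p4
    rcases hcase with h3 | h3
    · left; rw [hKL, h3]; ring
    · right; rw [hKL, h3]; ring
  have z2 : ((L + 1 : ℕ) : ZMod 3) = 0 := by
    apply q4
    rcases hcase with h3 | h3
    · left; rw [hKL1, h3]; push_cast; ring
    · right; rw [hKL1, h3]; push_cast; ring
  push_cast at z2
  rw [z1, zero_add] at z2
  exact absurd z2 (by decide)

end Pool.Agent.V7H98.TC
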