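import Pool.Agent.V7H98.TCToast

/-!
# The colouring of the construction
-/

open Set Function

namespace Pool.Agent.V7H98.TC

variable {d : ℕ}

/-- the parity of a site -/
def par (v : Site d) : ZMod 2 := ((∑ i, v i : ℤ) : ZMod 2)

lemma par_add (u v : Site d) : par (u + v) = par u + par v := by
  unfold par
  simp [Finset.sum_add_distrib]

lemma par_sub (u v : Site d) : par (u - v) = par u - par v := by
  unfold par
  simp [Finset.sum_sub_distrib]

lemma par_of_gdist {u v : Site d} (h : gdist u v = 1) : par u = par v + 1 := by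
  have h1 : par (u - v) = 1 := by
    unfold gdist at h
    have h2 : ((∑ i, (u i - v i).natAbs : ℕ) : ZMod 2) = ((∑ i, (u i - v i) : ℤ) : ZMod 2) := by
      push_cast
      refine Finset.sum_congr rfl fun i _ => ?_
      rcases Int.natAbs_eq (u i - v i) with h3 | h3
      · conv_rhs => rw [← Int.cast_sub, h3]
        simp
      · conv_rhs => rw [← Int.cast_sub, h3]
        simp only [Int.cast_neg, Int.cast_natCast]
        rw [ZMod.neg_eq_self_mod_two]
    unfold par
    simp only [Pi.sub_apply]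
    rw [← h2, h]
    rfl
  have h2 : u = v + (u - v) := by abel
  rw [h2, par_add, h1]

lemma near_of_gdist {u v : Site d} (h : gdist u v = 1) : near 1 u v := by
  intro i
  have h1 : (u i - v i).natAbs ≤ gdist u v := by
    unfold gdist
    exact Finset.single_le_sum (f := fun i => (u i - v i).natAbs)
      (fun i _ => Nat.zero_le _) (Finset.mem_univ i)
  rw [h] at h1
  rw [Int.abs_eq_natAbs]
  exact_mod_cast h1

/-- the colour with parity `e` in the layer `l` -/
def colr (e : ZMod 2) (l : Fin 3) : Fin 3 :=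
  if e = 0 then (if l = 0 then 0 else 2) else (if l = 2 then 0 else 1)

lemma colr_ne : ∀ (e : ZMod 2) (l l' : Fin 3), ¬ (l = 0 ∧ l' = 2) → ¬ (l = 2 ∧ l' = 0) →
    colr e l ≠ colr (e + 1) l' := by decide

lemma colr_ne' : ∀ (e : ZMod 2), colr e 0 ≠ colr e 2 := by decide

section colouring

variable (N : ℕ) (κ : Kap d)

/-- covered at level `k` -/
def Cov (k : ℕ) (v : Site d) : Prop := ∃ c, InO N κ k c v

/-- the sites whose highest object below level `k` has the wrong parity -/
def Wrong (k : ℕ) (c u : Site d) : Prop :=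
  ∃ j < k, ∃ c', InO N κ j c' u ∧ (∀ j', j < j' → j' < k → ¬ Cov N κ j' u) ∧ par c' ≠ par c

/-- the layer of a site -/
noncomputable def ell (k : ℕ) (c v : Site d) : Fin 3 := by
  classical
  exact if ∃ u, near 1 u v ∧ Wrong N κ k c u then 2 else
    if ∃ u, near 2 u v ∧ Wrong N κ k c u then 1 else 0

/-- the site `v` is first covered at level `k` and gets colour `a` -/
def Col (v : Site d) (k : ℕ) (a : Fin 3) : Prop :=
  ∃ c, InO N κ k c v ∧ (∀ j < k, ¬ Cov N κ j v) ∧ a = colr (par (v - c)) (ell N κ k c v)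

variable {N κ}

lemma ell_two {k : ℕ} {c v : Site d} (h : ∃ u, near 1 u v ∧ Wrong N κ k c u) :
    ell N κ k c v = 2 := by unfold ell; rw [if_pos h]

lemma ell_two_iff {k : ℕ} {c v : Site d} :
    ell N κ k c v = 2 ↔ ∃ u, near 1 u v ∧ Wrong N κ k c u := by
  refine ⟨fun h => ?_, ell_two⟩
  unfold ell at h
  split_ifs at h with h1 h2
  · exact h1
  · exact absurd h (by decide)
  · exact absurd h (by decide)

lemma ell_zero_iff {k : ℕ} {c v : Site d} :
    ell N κ k c v = 0 ↔ ¬ ∃ u, near 2 u v ∧ Wrong N κ k c u := by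
  unfold ell
  split_ifs with h1 h2
  · constructor
    · intro h; exact absurd h (by decide)
    · intro h
      obtain ⟨u, hu, hw⟩ := h1
      exact absurd ⟨u, near_mono hu (by omega), hw⟩ h
  · constructor
    · intro h; exact absurd h (by decide)
    · intro h; exact absurd h2 h
  · exact ⟨fun _ => h2, fun _ => rfl⟩

lemma same_level {k : ℕ} {u v : Site d} {a b : Fin 3} (huv : gdist u v = 1)
    (hu : Col N κ u k a) (hv : Col N κ v k b) : a ≠ b := by
  obtain ⟨c, hc, -, rfl⟩ := hu
  obtain ⟨c', hc', -, rfl⟩ := hv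
  have hn := near_of_gdist huv
  have hcc : c = c' := far hc hc' (near_mono hn (by omega))
  subst hcc
  have hp : par (u - c) = par (v - c) + 1 := by
    rw [par_sub, par_sub, par_of_gdist huv]; ring
  have hp' : par (v - c) = par (u - c) + 1 := by
    rw [hp, add_assoc]
    have : (1 : ZMod 2) + 1 = 0 := by decide
    rw [this, add_zero]
  rw [hp']
  refine colr_ne _ _ _ ?_ ?_
  · rintro ⟨h1, h2⟩
    rw [ell_zero_iff] at h1
    rw [ell_two_iff] at h2
    obtain ⟨w, hw, hw'⟩ := h2
    exact h1 ⟨w, near_mono (near_trans hw (near_symm hn)) (by omega), hw'⟩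
  · rintro ⟨h1, h2⟩
    rw [ell_zero_iff] at h2
    rw [ell_two_iff] at h1
    obtain ⟨w, hw, hw'⟩ := h1
    exact h2 ⟨w, near_mono (near_trans hw hn) (by omega), hw'⟩

lemma diff_level {k k' : ℕ} (hkk : k < k') {u v : Site d} {a b : Fin 3} (huv : gdist u v = 1)
    (hu : Col N κ u k a) (hv : Col N κ v k' b) : a ≠ b := by
  obtain ⟨c, hc, -, rfl⟩ := hu
  obtain ⟨c', hc', hv', rfl⟩ := hv
  have hn := near_of_gdist huv
  -- the site `u` is in the lowest layer
  have hA : ell N κ k c u = 0 := by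
    rw [ell_zero_iff]
    rintro ⟨w, hw, j, hj, c'', hw', -, -⟩
    have : InO N κ k c v := absorbed hj hw' hc (near_mono hw (by omega)) hw'
      (near_mono (near_trans (near_symm hn) (near_symm hw)) (by omega))
    exact hv' k hkk ⟨c, this⟩
  -- the highest object near `v` is the one of `u`
  have hB : ∀ w, near 2 w v → ∀ j < k', ∀ c'', InO N κ j c'' w →
      (∀ j', j < j' → j' < k' → ¬ Cov N κ j' w) → c'' = c := by
    intro w hw j hj c'' hw' hmax
    have hwu : near 3 w u := near_mono (near_trans hw (near_symm hn)) (by omega)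
    rcases lt_trichotomy j k with h | h | h
    · exfalso
      refine hmax k h hkk ⟨c, absorbed h hw' hc (near_mono hwu (by omega)) hw' (near_refl _ _)⟩
    · subst h
      exact far hw' hc (near_mono hwu (by omega))
    · exfalso
      exact hv' j hj ⟨c'', absorbed h hc hw' (near_symm (near_mono hwu (by omega))) hc
        (near_mono (near_symm hn) (by omega))⟩
  -- `u` is covered below level `k'` by its own object
  have hC : ∀ j', k < j' → j' < k' → ¬ Cov N κ j' u := by
    rintro j' h1 h2 ⟨c'', h3⟩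
    exact hv' j' h2 ⟨c'', absorbed h1 hc h3 (near_refl _ _) hc
      (near_mono (near_symm hn) (by omega))⟩
  rw [hA]
  by_cases hcc : par c = par c'
  · have hell : ell N κ k' c' v = 0 := by
      rw [ell_zero_iff]
      rintro ⟨w, hw, j, hj, c'', hw', hmax, hne⟩
      exact hne (by rw [hB w hw j hj c'' hw' hmax, hcc])
    rw [hell]
    have hp : par (v - c') = par (u - c) + 1 := by
      rw [par_sub, par_sub, par_of_gdist huv, hcc]
      have : (1 : ZMod 2) + 1 = 0 := by decide
      linear_combination -this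
    rw [hp]
    exact colr_ne _ _ _ (by decide) (by decide)
  · have hell : ell N κ k' c' v = 2 :=
      ell_two ⟨u, hn, k, hkk, c, hc, hC, hcc⟩
    rw [hell]
    have hp : par (v - c') = par (u - c) := by
      rw [par_sub, par_sub, par_of_gdist huv]
      have h1 : ∀ a b : ZMod 2, a ≠ b → a = b + 1 := by decide
      rw [h1 _ _ hcc]
      ring
    rw [hp]
    exact colr_ne' _

lemma gdist_comm (u v : Site d) : gdist u v = gdist v u := by
  unfold gdist
  refine Finset.sum_congr rfl fun i _ => ?_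
  rw [← Int.natAbs_neg]
  congr 1
  ring

/-- properness -/
lemma proper {k k' : ℕ} {u v : Site d} {a b : Fin 3} (huv : gdist u v = 1)
    (hu : Col N κ u k a) (hv : Col N κ v k' b) : a ≠ b := by
  rcases lt_trichotomy k k' with h | h | h
  · exact diff_level h huv hu hv
  · subst h; exact same_level huv hu hv
  · exact (diff_level h (by rw [gdist_comm]; exact huv) hv hu).symm

lemma Col_unique {k k' : ℕ} {v : Site d} {a b : Fin 3} (hu : Col N κ v k a)
    (hv : Col N κ v k' b) : k = k' ∧ a = b := by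
  obtain ⟨c, hc, h1, rfl⟩ := hu
  obtain ⟨c', hc', h2, rfl⟩ := hv
  have hk : k = k' := by
    rcases lt_trichotomy k k' with h | h | h
    · exact absurd ⟨c, hc⟩ (h2 k h)
    · exact h
    · exact absurd ⟨c', hc'⟩ (h1 k' h)
  subst hk
  have hcc : c = c' := far hc hc' (near_refl _ _)
  subst hcc
  exact ⟨rfl, rfl⟩

lemma Col_exists {v : Site d} (h : ∃ k, Cov N κ k v) : ∃ k a, Col N κ v k a := by
  classical
  obtain ⟨c, hc⟩ := Nat.find_spec h
  exact ⟨Nat.find h, _, c, hc, fun j hj => Nat.find_min h hj, rfl⟩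

variable (N κ)

/-- the colouring -/
noncomputable def colour (v : Site d) : Fin 3 := by
  classical
  exact if h : ∃ a, ∃ k, Col N κ v k a then h.choose else 0

variable {N κ}

lemma colour_eq {v : Site d} {k : ℕ} {a : Fin 3} (h : Col N κ v k a) : colour N κ v = a := by
  have h' : ∃ a, ∃ k, Col N κ v k a := ⟨a, k, h⟩
  unfold colour
  rw [dif_pos h']
  obtain ⟨k', hk'⟩ := h'.choose_spec
  exact (Col_unique hk' h).2

lemma colour_eq_zero {v : Site d} (h : ¬ ∃ a, ∃ k, Col N κ v k a) : colour N κ v = 0 := by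
  unfold colour
  rw [dif_neg h]

end colouring

section locality

variable {N : ℕ} {κ κ' : Kap d}

lemma InO_near_local (hN : 1 ≤ N) {k : ℕ} {v : Site d} (h : Agree k v (5 * rr N k) κ κ') {j : ℕ}
    (hj : j ≤ k) {u c : Site d} (hu : near 2 u v) (hc : InO N κ j c u) : InO N κ' j c u := by
  refine InO_local hN j (h.sub hj (near_trans (near_symm (InO_near hc)) hu) ?_) u hc
  have h1 := rr_ge hN k
  have h2 := rr_ge hN j
  have h3 := EE_mono N hj
  have h4 : rr N j ≤ rr N k := by
    unfold rr ss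
    gcongr
  omega

lemma Cov_near_local (hN : 1 ≤ N) {k : ℕ} {v : Site d} (h : Agree k v (5 * rr N k) κ κ') {j : ℕ}
    (hj : j ≤ k) {u : Site d} (hu : near 2 u v) : Cov N κ j u ↔ Cov N κ' j u :=
  ⟨fun ⟨c, hc⟩ => ⟨c, InO_near_local hN h hj hu hc⟩,
    fun ⟨c, hc⟩ => ⟨c, InO_near_local hN h.symm hj hu hc⟩⟩

lemma Wrong_local (hN : 1 ≤ N) {k : ℕ} {v : Site d} (h : Agree k v (5 * rr N k) κ κ')
    {u c : Site d} (hu : near 2 u v) (hw : Wrong N κ k c u) : Wrong N κ' k c u := by
  obtain ⟨j, hj, c', hc', hmax, hne⟩ := hw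
  refine ⟨j, hj, c', InO_near_local hN h hj.le hu hc', fun j' h1 h2 h3 => ?_, hne⟩
  exact hmax j' h1 h2 ((Cov_near_local hN h h2.le hu).2 h3)

lemma ell_local (hN : 1 ≤ N) {k : ℕ} {v : Site d} (h : Agree k v (5 * rr N k) κ κ')
    {c : Site d} : ell N κ k c v = ell N κ' k c v := by
  have h1 : (∃ u, near 1 u v ∧ Wrong N κ k c u) ↔ (∃ u, near 1 u v ∧ Wrong N κ' k c u) :=
    ⟨fun ⟨u, hu, hw⟩ => ⟨u, hu, Wrong_local hN h (near_mono hu (by omega)) hw⟩,
      fun ⟨u, hu, hw⟩ => ⟨u, hu, Wrong_local hN h.symm (near_mono hu (by omega)) hw⟩⟩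
  have h2 : (∃ u, near 2 u v ∧ Wrong N κ k c u) ↔ (∃ u, near 2 u v ∧ Wrong N κ' k c u) :=
    ⟨fun ⟨u, hu, hw⟩ => ⟨u, hu, Wrong_local hN h hu hw⟩,
      fun ⟨u, hu, hw⟩ => ⟨u, hu, Wrong_local hN h.symm hu hw⟩⟩
  classical
  unfold ell
  exact if_congr h1 rfl (if_congr h2 rfl rfl)

lemma Col_local (hN : 1 ≤ N) {k : ℕ} {v : Site d} (h : Agree k v (5 * rr N k) κ κ') {a : Fin 3}
    (hc : Col N κ v k a) : Col N κ' v k a := by
  obtain ⟨c, hc, hmin, rfl⟩ := hc
  refine ⟨c, InO_near_local hN h (le_refl _) (near_refl _ _) hc, fun j hj hcov => ?_, ?_⟩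
  · exact hmin j hj ((Cov_near_local hN h hj.le (near_refl _ _)).2 hcov)
  · rw [ell_local hN h]

end locality

section shift

variable {N : ℕ} (a : Site d) (κ : Kap d)

lemma Cov_shift {k : ℕ} {v : Site d} : Cov N (shK a κ) k v ↔ Cov N κ k (v + a) := by
  constructor
  · rintro ⟨c, hc⟩
    exact ⟨c + a, (InO_shift a κ).1 hc⟩
  · rintro ⟨c, hc⟩
    refine ⟨c - a, (InO_shift a κ).2 ?_⟩
    rwa [sub_add_cancel]

lemma Wrong_shift {k : ℕ} {c u : Site d} :
    Wrong N (shK a κ) k c u ↔ Wrong N κ k (c + a) (u + a) := by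
  constructor
  · rintro ⟨j, hj, c', hc', hmax, hne⟩
    refine ⟨j, hj, c' + a, (InO_shift a κ).1 hc', fun j' h1 h2 h3 => ?_, ?_⟩
    · exact hmax j' h1 h2 ((Cov_shift a κ).2 h3)
    · rw [par_add, par_add]
      exact fun h => hne (add_right_cancel h)
  · rintro ⟨j, hj, c', hc', hmax, hne⟩
    refine ⟨j, hj, c' - a, (InO_shift a κ).2 (by rwa [sub_add_cancel]),
      fun j' h1 h2 h3 => ?_, ?_⟩
    · exact hmax j' h1 h2 ((Cov_shift a κ).1 h3)
    · rw [par_add] at hne
      rw [par_sub]
      exact fun h => hne (by rw [← h, sub_add_cancel])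

lemma exists_near_shift {n : ℕ} {v : Site d} {P : Site d → Prop} :
    (∃ u, near n u v ∧ P (u + a)) ↔ (∃ u, near n u (v + a) ∧ P u) := by
  constructor
  · rintro ⟨u, hu, hP⟩
    exact ⟨u + a, (near_add a).2 hu, hP⟩
  · rintro ⟨u, hu, hP⟩
    refine ⟨u - a, ?_, by rwa [sub_add_cancel]⟩
    rw [← near_add a, sub_add_cancel]
    exact hu

lemma ell_shift {k : ℕ} {c v : Site d} :
    ell N (shK a κ) k c v = ell N κ k (c + a) (v + a) := by
  have h1 : ∀ n : ℕ, (∃ u, near n u v ∧ Wrong N (shK a κ) k c u) ↔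
      (∃ u, near n u (v + a) ∧ Wrong N κ k (c + a) u) := by
    intro n
    rw [← exists_near_shift a (P := fun u => Wrong N κ k (c + a) u)]
    simp only [Wrong_shift]
  classical
  unfold ell
  exact if_congr (h1 1) rfl (if_congr (h1 2) rfl rfl)

lemma Col_shift {k : ℕ} {v : Site d} {b : Fin 3} :
    Col N (shK a κ) v k b ↔ Col N κ (v + a) k b := by
  constructor
  · rintro ⟨c, hc, hmin, rfl⟩
    refine ⟨c + a, (InO_shift a κ).1 hc, fun j hj h => hmin j hj ((Cov_shift a κ).2 h), ?_⟩
    rw [ell_shift, add_sub_add_right_eq_sub]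
  · rintro ⟨c, hc, hmin, rfl⟩
    refine ⟨c - a, (InO_shift a κ).2 (by rwa [sub_add_cancel]),
      fun j hj h => hmin j hj ((Cov_shift a κ).1 h), ?_⟩
    rw [ell_shift, sub_add_cancel]
    congr 2
    abel

lemma colour_shift (v : Site d) : colour N (shK a κ) v = colour N κ (v + a) := by
  by_cases h : ∃ b, ∃ k, Col N κ (v + a) k b
  · obtain ⟨b, k, hk⟩ := h
    rw [colour_eq hk, colour_eq ((Col_shift a κ).2 hk)]
  · rw [colour_eq_zero h, colour_eq_zero]
    rintro ⟨b, k, hk⟩
    exact h ⟨b, k, (Col_shift a κ).1 hk⟩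

end shift

end Pool.Agent.V7H98.TC
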