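import Pool.Agent.V7H98.TCUpper

/-!
# Finitary factors of i.i.d. that are proper three-colourings of the lattice
-/

open MeasureTheory Measure Set Function
open scoped ENNReal

namespace Pool.Agent.V7H98.TC

/-- The distance in the graph `ℤ^d` (the `ℓ¹` distance). -/
def gdist {d : ℕ} (u v : Site d) : ℕ := ∑ i, (u i - v i).natAbs

section defs

variable {d : ℕ} {Λ : Type*}

/-- The value `F y 0` is determined by the values of `y` on the ball `B(0, r)`. -/
def Determined (F : (Site d → Λ) → Site d → Fin 3) (y : Site d → Λ) (r : ℕ) : Prop :=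
  ∀ y' : Site d → Λ, (∀ v, gdist v 0 ≤ r → y' v = y v) → F y' 0 = F y 0

/-- The coding radius: the least `r` such that `F y 0` is determined by the values of `y` on the
ball `B(0, r)` (infinite if there is none). -/
noncomputable def codingRadius (F : (Site d → Λ) → Site d → Fin 3) (y : Site d → Λ) : ℕ∞ :=
  ⨅ (r : ℕ) (_ : Determined F y r), (r : ℕ∞)

variable [MeasurableSpace Λ]

/-- `F` is measurable, commutes with all translations almost surely, is finitary, and is almost
surely a proper three-colouring. -/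
structure IsFFIIDae (ν : Measure Λ) [IsProbabilityMeasure ν]
    (F : (Site d → Λ) → Site d → Fin 3) : Prop where
  meas : Measurable F
  comm_ae : ∀ a : Site d, ∀ᵐ y ∂ iid (Site d) ν, F (sh a y) = sh a (F y)
  finitary : ∀ᵐ y ∂ iid (Site d) ν, ∃ r, Determined F y r
  proper : ∀ᵐ y ∂ iid (Site d) ν, ∀ u v, gdist u v = 1 → F y u ≠ F y v

/-- An ffiid three-colouring: `F` is measurable, commutes with all translations, is finitary, and
is almost surely a proper three-colouring. -/
structure IsFFIID (ν : Measure Λ) [IsProbabilityMeasure ν]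
    (F : (Site d → Λ) → Site d → Fin 3) : Prop where
  meas : Measurable F
  comm : ∀ (a : Site d) (y : Site d → Λ), F (sh a y) = sh a (F y)
  finitary : ∀ᵐ y ∂ iid (Site d) ν, ∃ r, Determined F y r
  proper : ∀ᵐ y ∂ iid (Site d) ν, ∀ u v, gdist u v = 1 → F y u ≠ F y v

lemma IsFFIID.ae {ν : Measure Λ} [IsProbabilityMeasure ν] {F : (Site d → Λ) → Site d → Fin 3}
    (h : IsFFIID ν F) : IsFFIIDae ν F :=
  ⟨h.meas, fun a => Filter.Eventually.of_forall fun y => h.comm a y, h.finitary, h.proper⟩

end defs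

section lower

variable {d : ℕ} {Λ : Type*} [MeasurableSpace Λ] {ν : Measure Λ} [IsProbabilityMeasure ν]
  {F : (Site d → Λ) → Site d → Fin 3}

/-- Truncation outside the box of radius `r`. -/
noncomputable def trunc (l0 : Λ) (r : ℕ) (y : Site d → Λ) : Site d → Λ := by
  classical
  exact fun u => if u ∈ Bx 0 r then y u else l0

omit [MeasurableSpace Λ] in
lemma trunc_pos {l0 : Λ} {r : ℕ} {y : Site d → Λ} {u : Site d} (h : u ∈ Bx 0 r) :
    trunc l0 r y u = y u := by
  unfold trunc; rw [if_pos h]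

omit [MeasurableSpace Λ] in
lemma trunc_neg {l0 : Λ} {r : ℕ} {y : Site d → Λ} {u : Site d} (h : u ∉ Bx 0 r) :
    trunc l0 r y u = l0 := by
  unfold trunc; rw [if_neg h]

lemma measurable_trunc (l0 : Λ) (r : ℕ) :
    Measurable (trunc l0 r : (Site d → Λ) → Site d → Λ) := by
  refine measurable_pi_lambda _ fun u => ?_
  by_cases h : u ∈ Bx 0 r
  · simp only [trunc_pos h]; exact measurable_pi_apply u
  · simp only [trunc_neg h]; exact measurable_const

omit [MeasurableSpace Λ] in
lemma loc_trunc (l0 : Λ) (r : ℕ) {E : Type*} (x : (Site d → Λ) → E) :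
    Loc r (fun y => x (trunc l0 r y)) := by
  intro y y' h
  show x _ = x _
  congr 1
  funext u
  by_cases hu : u ∈ Bx 0 r
  · rw [trunc_pos hu, trunc_pos hu, h u hu]
  · rw [trunc_neg hu, trunc_neg hu]

lemma mem_Bx_of_gdist {u : Site d} {r : ℕ} (h : gdist u 0 ≤ r) : u ∈ Bx 0 r := by
  intro k
  have h1 : (u k - 0).natAbs ≤ gdist u 0 := by
    unfold gdist
    exact Finset.single_le_sum (f := fun i => (u i - (0 : Site d) i).natAbs)
      (fun i _ => Nat.zero_le _) (Finset.mem_univ k)
  have h2 : (u k).natAbs ≤ r := by simpa using h1.trans h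
  simp only [Pi.zero_apply, sub_zero]
  rw [Int.abs_eq_natAbs]
  exact_mod_cast h2

omit [MeasurableSpace Λ] in
lemma determined_of_le {y : Site d → Λ} {r : ℕ} (h : codingRadius F y ≤ r) :
    Determined F y r := by
  unfold codingRadius at h
  by_contra hcon
  have h2 : ∀ r', Determined F y r' → r < r' := by
    intro r' hr'
    by_contra hle
    push Not at hle
    exact hcon fun y' hy' => hr' y' fun v hv => hy' v (hv.trans hle)
  have h3 : ((r + 1 : ℕ) : ℕ∞) ≤ ⨅ (r : ℕ) (_ : Determined F y r), (r : ℕ∞) := by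
    refine le_iInf₂ fun r' hr' => ?_
    exact_mod_cast h2 r' hr'
  have h4 := h3.trans h
  have h5 : r + 1 ≤ r := by exact_mod_cast h4
  omega

omit [MeasurableSpace Λ] in
lemma codingRadius_le {y : Site d → Λ} {r : ℕ} (h : Determined F y r) :
    codingRadius F y ≤ r := iInf₂_le r h

lemma gdist_pt {i0 i1 : Fin d} (h01 : i0 ≠ i1) (i j i' j' : ℤ) :
    gdist (pt i0 i1 i j) (pt i0 i1 i' j') = (i - i').natAbs + (j - j').natAbs := by
  classical
  unfold gdist
  have h1 : ∀ k, (pt i0 i1 i j k - pt i0 i1 i' j' k).natAbs =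
      (if k = i0 then (i - i').natAbs else 0) + (if k = i1 then (j - j').natAbs else 0) := by
    intro k
    by_cases hk0 : k = i0
    · subst hk0
      simp [pt_0 h01, h01]
    · by_cases hk1 : k = i1
      · subst hk1
        simp [pt_1 h01, h01.symm]
      · simp [pt_k hk0 hk1, hk0, hk1]
  simp only [h1, Finset.sum_add_distrib]
  simp

/-- the event that the truncated rule gives the wrong value -/
def badEv (F : (Site d → Λ) → Site d → Fin 3) (l0 : Λ) (r : ℕ) : Set (Site d → Λ) :=
  {y | F (trunc l0 r y) 0 ≠ F y 0}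

omit [MeasurableSpace Λ] in
lemma badEv_subset (l0 : Λ) (r : ℕ) : badEv F l0 r ⊆ {y | (r : ℕ∞) < codingRadius F y} := by
  intro y hy
  by_contra hcon
  simp only [mem_ofPred_eq, not_lt] at hcon
  have h := determined_of_le hcon
  exact hy (h _ fun v hv => trunc_pos (mem_Bx_of_gdist hv))

lemma measurableSet_badEv (hF : Measurable F) (l0 : Λ) (r : ℕ) : MeasurableSet (badEv F l0 r) := by
  have h0 : Measurable fun y => F y 0 := (measurable_pi_apply 0).comp hF
  exact (measurableSet_eq_fun (h0.comp (measurable_trunc l0 r)) h0).compl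

lemma badEv_lower (hd : 2 ≤ d) (hF : IsFFIIDae ν F) (l0 : Λ) {r : ℕ} (hr : 1 ≤ r) :
    1 ≤ 9000 * (r : ℝ≥0∞) * iid (Site d) ν (badEv F l0 r) := by
  set i0 : Fin d := ⟨0, by omega⟩ with hi0
  set i1 : Fin d := ⟨1, by omega⟩ with hi1
  have h01 : i0 ≠ i1 := by simp [hi0, hi1]
  let e : Fin 3 → ZMod 3 := fun c => (c.val : ZMod 3)
  have he : Injective e := by decide
  have h0 : Measurable fun y => F y 0 := (measurable_pi_apply 0).comp hF.meas
  have hx : Measurable fun y => e (F y 0) := (measurable_of_countable e).comp h0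
  have hx' : Measurable fun y => e (F (trunc l0 r y) 0) := hx.comp (measurable_trunc l0 r)
  have hloc : Loc r (fun y => e (F (trunc l0 r y) 0)) := loc_trunc l0 r (fun y => e (F y 0))
  have hP : ∀ᵐ y ∂ iid (Site d) ν, Prop2 (fld i0 i1 (fun y => e (F y 0)) y) := by
    have hc : ∀ᵐ y ∂ iid (Site d) ν, ∀ a : Site d, F (sh a y) = sh a (F y) := by
      rw [ae_all_iff]
      exact hF.comm_ae
    filter_upwards [hc, hF.proper] with y hy1 hy2
    have key : ∀ i j, fld i0 i1 (fun y => e (F y 0)) y i j = e (F y (pt i0 i1 i j)) := by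
      intro i j
      show e (F (sh (pt i0 i1 i j) y) 0) = _
      rw [hy1]
      simp [sh]
    intro i j
    rw [key, key, key]
    constructor
    · refine he.ne (hy2 _ _ ?_)
      rw [gdist_pt h01]
      simp
    · refine he.ne (hy2 _ _ ?_)
      rw [gdist_pt h01]
      simp
  have h := q_lower ν h01 hr hx hx' hloc hP
  have hset : {y | e (F (trunc l0 r y) 0) ≠ e (F y 0)} = badEv F l0 r := by
    ext y
    simp only [badEv, mem_ofPred_eq, he.ne_iff]
  rw [hset] at h
  exact h

/-- Tail of the coding radius. -/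
theorem tail_lower (hd : 2 ≤ d) (hF : IsFFIIDae ν F) {r : ℕ} (hr : 1 ≤ r) :
    1 / (9000 * (r : ℝ≥0∞)) ≤ iid (Site d) ν {y | (r : ℕ∞) < codingRadius F y} := by
  obtain ⟨l0⟩ : Nonempty Λ := nonempty_of_isProbabilityMeasure ν
  have h := badEv_lower hd hF l0 hr
  refine le_trans ?_ (measure_mono (badEv_subset l0 r))
  rw [ENNReal.div_le_iff' (by simp; omega) (by finiteness)]
  exact h

lemma tsum_harm : ∑' r : ℕ, 1 / (9000 * ((r + 1 : ℕ) : ℝ≥0∞)) = ∞ := by
  by_contra hcon
  have h := ENNReal.summable_toReal hcon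
  have h2 : Summable fun r : ℕ => (1 : ℝ) / 9000 * (1 / ((r : ℝ) + 1)) := by
    refine h.congr fun r => ?_
    rw [ENNReal.toReal_div, ENNReal.toReal_mul, ENNReal.toReal_natCast]
    push_cast
    simp
    ring
  have h3 := (summable_mul_left_iff (by norm_num)).1 h2
  have h4 := (summable_nat_add_iff (f := fun n : ℕ => (1 : ℝ) / (n : ℝ)) 1).1 (by
    simpa using h3)
  exact Real.not_summable_one_div_natCast h4

/-- The first moment of the coding radius is infinite. -/
theorem moment_one (hd : 2 ≤ d) (hF : IsFFIIDae ν F) :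
    ∫⁻ y, ((codingRadius F y : ℕ∞) : ℝ≥0∞) ∂ iid (Site d) ν = ∞ := by
  obtain ⟨l0⟩ : Nonempty Λ := nonempty_of_isProbabilityMeasure ν
  rw [eq_top_iff]
  calc (∞ : ℝ≥0∞) = ∑' r : ℕ, 1 / (9000 * ((r + 1 : ℕ) : ℝ≥0∞)) := tsum_harm.symm
    _ ≤ ∑' r : ℕ, iid (Site d) ν (badEv F l0 (r + 1)) := by
        refine ENNReal.tsum_le_tsum fun r => ?_
        have h := badEv_lower hd hF l0 (Nat.le_add_left 1 r)
        rw [ENNReal.div_le_iff' (by simp) (by finiteness)]
        exact h
    _ = ∑' r : ℕ, ∫⁻ y, (badEv F l0 (r + 1)).indicator 1 y ∂ iid (Site d) ν := by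
        refine tsum_congr fun r => ?_
        rw [lintegral_indicator_one (measurableSet_badEv hF.meas l0 _)]
    _ = ∫⁻ y, ∑' r : ℕ, (badEv F l0 (r + 1)).indicator 1 y ∂ iid (Site d) ν := by
        rw [lintegral_tsum]
        intro r
        exact (measurable_one.indicator (measurableSet_badEv hF.meas l0 _)).aemeasurable
    _ ≤ ∫⁻ y, ((codingRadius F y : ℕ∞) : ℝ≥0∞) ∂ iid (Site d) ν := by
        refine lintegral_mono fun y => ?_
        show ∑' r : ℕ, (badEv F l0 (r + 1)).indicator 1 y ≤ ((codingRadius F y : ℕ∞) : ℝ≥0∞)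
        cases hR : codingRadius F y with
        | top => simp
        | coe n =>
          have h1 : ∀ r ∉ Finset.range n, (badEv F l0 (r + 1)).indicator (1 : (Site d → Λ) → ℝ≥0∞) y = 0 := by
            intro r hr
            rw [Finset.mem_range, not_lt] at hr
            refine indicator_of_notMem (fun hy => ?_) _
            have := badEv_subset l0 (r + 1) hy
            simp only [mem_ofPred_eq, hR] at this
            have h2 : r + 1 < n := by exact_mod_cast this
            omega
          rw [tsum_eq_sum h1]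
          calc ∑ r ∈ Finset.range n, (badEv F l0 (r + 1)).indicator (1 : (Site d → Λ) → ℝ≥0∞) y
              ≤ ∑ r ∈ Finset.range n, (1 : ℝ≥0∞) := by
                refine Finset.sum_le_sum fun r _ => ?_
                exact indicator_le_self' (fun _ _ => zero_le_one) y
            _ = ((n : ℕ∞) : ℝ≥0∞) := by simp

/-- No moment of order at least one is finite. -/
theorem moment_ge_one (hd : 2 ≤ d) (hF : IsFFIIDae ν F) {α : ℝ} (hα : 1 ≤ α) :
    ∫⁻ y, ((codingRadius F y : ℕ∞) : ℝ≥0∞) ^ α ∂ iid (Site d) ν = ∞ := by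
  rw [eq_top_iff, ← moment_one hd hF]
  refine lintegral_mono fun y => ?_
  show ((codingRadius F y : ℕ∞) : ℝ≥0∞) ≤ ((codingRadius F y : ℕ∞) : ℝ≥0∞) ^ α
  rcases eq_or_ne (codingRadius F y) 0 with h | h
  · rw [h]; simp
  · have h1 : (1 : ℝ≥0∞) ≤ ((codingRadius F y : ℕ∞) : ℝ≥0∞) := by
      have : (1 : ℕ∞) ≤ codingRadius F y := Order.one_le_iff_ne_zero.2 h
      exact_mod_cast this
    calc ((codingRadius F y : ℕ∞) : ℝ≥0∞) = ((codingRadius F y : ℕ∞) : ℝ≥0∞) ^ (1 : ℝ) := by simp
      _ ≤ _ := ENNReal.rpow_le_rpow_of_exponent_le h1 hα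

end lower

end Pool.Agent.V7H98.TC
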