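import Pool.Agent.V7H98.TCProb

/-!
# The three-colouring with coding radius of every moment of order less than one
-/

open MeasureTheory Measure Set Function Filter
open scoped ENNReal Topology

namespace Pool.Agent.V7H98.TC

variable {d : ℕ}

section levels

variable (P : Measure ℝ) [IsProbabilityMeasure P]

lemma mp_levels : MeasurePreserving (fun (y : Site d → ℕ → ℝ) (k : ℕ) (u : Site d) => y u k)
    (iid (Site d) (iid ℕ P)) (iid ℕ (iid (Site d) P)) := by
  have h1 : MeasurePreserving (MeasurableEquiv.curry (Site d) ℕ ℝ).symm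
      (iid (Site d) (iid ℕ P)) (iid (Site d × ℕ) P) :=
    ⟨MeasurableEquiv.measurable _, infinitePi_map_curry_symm fun _ _ => P⟩
  have h2 := mp_comp P (I := ℕ × Site d) (J := Site d × ℕ) (j := Prod.swap) Prod.swap_injective
  have h3 : MeasurePreserving (MeasurableEquiv.curry ℕ (Site d) ℝ)
      (iid (ℕ × Site d) P) (iid ℕ (iid (Site d) P)) :=
    ⟨MeasurableEquiv.measurable _, infinitePi_map_curry fun _ _ => P⟩
  exact h3.comp (h2.comp h1)

/-- the origin is possibly not covered below level `k` -/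
def CC (d : ℕ) (N k : ℕ) : Set (Site d → ℕ → ℝ) := {y | ∀ j < k, (fun u => y u j) ∈ Bad d N j}

lemma measurable_level (j : ℕ) : Measurable fun (y : Site d → ℕ → ℝ) (u : Site d) => y u j :=
  measurable_pi_lambda _ fun u => (measurable_pi_apply j).comp (measurable_pi_apply u)

lemma measurableSet_CC (N k : ℕ) : MeasurableSet (CC d N k) := by
  have : CC d N k = ⋂ j ∈ Finset.range k, (fun (y : Site d → ℕ → ℝ) (u : Site d) => y u j) ⁻¹'
      Bad d N j := by
    ext y
    simp [CC]
  rw [this]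
  exact Finset.measurableSet_biInter _ fun j _ => measurable_level j (measurableSet_Bad N j)

lemma CC_prob [NullSingletonClass P] {N : ℕ} (hN : 1 ≤ N) (k : ℕ) :
    iid (Site d) (iid ℕ P) (CC d N k) ≤ ENNReal.ofReal (2 * d / N) ^ k := by
  have h1 : CC d N k = (fun (y : Site d → ℕ → ℝ) (k : ℕ) (u : Site d) => y u k) ⁻¹'
      (((Finset.range k : Finset ℕ) : Set ℕ).pi fun j => Bad d N j) := by
    ext y
    simp [CC, Set.mem_pi]
  rw [h1, (mp_levels P).measure_preimage (MeasurableSet.pi (Finset.countable_toSet _)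
    fun j _ => measurableSet_Bad N j).nullMeasurableSet,
    infinitePi_pi _ fun j _ => measurableSet_Bad N j]
  calc ∏ j ∈ Finset.range k, iid (Site d) P (Bad d N j)
      ≤ ∏ j ∈ Finset.range k, ENNReal.ofReal (2 * d / N) :=
        Finset.prod_le_prod' fun j _ => Bad_prob P hN j
    _ = _ := by simp

end levels

section measurability

variable (N : ℕ)

lemma measurableSet_KK (j : ℕ) (u : Site d) (o : Option (Site d)) :
    MeasurableSet {y : Site d → ℕ → ℝ | KK N y j u = o} := by
  have hsome : ∀ b : Site d, MeasurableSet {y : Site d → ℕ → ℝ | KK N y j u = some b} := by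
    intro b
    have : {y : Site d → ℕ → ℝ | KK N y j u = some b} =
        (fun (y : Site d → ℕ → ℝ) (u : Site d) => y u j) ⁻¹'
          {w | Top (box u (rr N j)) (u + b) w} := by
      ext y
      exact kap_eq_some
    rw [this]
    exact measurable_level j (measurableSet_Top _ _)
  cases o with
  | some b => exact hsome b
  | none =>
    have : {y : Site d → ℕ → ℝ | KK N y j u = none} =
        (⋃ b : Site d, {y : Site d → ℕ → ℝ | KK N y j u = some b})ᶜ := by
      ext y
      simp only [mem_ofPred_eq, mem_compl_iff, mem_iUnion, not_exists]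
      exact Option.eq_none_iff_forall_ne_some
    rw [this]
    exact (MeasurableSet.iUnion hsome).compl

lemma measurableSet_of_local {p : Kap d → Prop} {k r : ℕ} {v : Site d}
    (hp : ∀ κ κ' : Kap d, Agree k v r κ κ' → p κ → p κ') :
    MeasurableSet {y : Site d → ℕ → ℝ | p (KK N y)} := by
  classical
  set T : Finset (ℕ × Site d) := Finset.range (k + 1) ×ˢ box v r with hT
  have memT : ∀ j u, (j, u) ∈ T ↔ j ≤ k ∧ near r u v := by
    intro j u
    rw [hT, Finset.mem_product, Finset.mem_range, mem_box, Nat.lt_succ_iff]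
  let ext (w : T → Option (Site d)) : Kap d := fun j u =>
    if h : (j, u) ∈ T then w ⟨(j, u), h⟩ else none
  have key : {y : Site d → ℕ → ℝ | p (KK N y)} =
      ⋃ w : T → Option (Site d), ⋃ (_ : p (ext w)),
        ⋂ t : T, {y : Site d → ℕ → ℝ | KK N y t.1.1 t.1.2 = w t} := by
    ext y
    simp only [mem_ofPred_eq, mem_iUnion, mem_iInter, exists_prop]
    constructor
    · intro h
      refine ⟨fun t => KK N y t.1.1 t.1.2, hp _ _ ?_ h, fun t => rfl⟩
      intro j hj u hu
      have h1 : (j, u) ∈ T := (memT j u).2 ⟨hj, hu⟩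
      simp only [ext, h1, dif_pos]
    · rintro ⟨w, hw, h⟩
      refine hp _ _ ?_ hw
      intro j hj u hu
      have h1 : (j, u) ∈ T := (memT j u).2 ⟨hj, hu⟩
      simp only [ext, h1, dif_pos]
      exact (h ⟨(j, u), h1⟩).symm
  rw [key]
  refine MeasurableSet.iUnion fun w => MeasurableSet.iUnion fun _ => MeasurableSet.iInter fun t => ?_
  exact measurableSet_KK N _ _ _

variable {N}

lemma measurableSet_Col (hN : 1 ≤ N) (v : Site d) (k : ℕ) (a : Fin 3) :
    MeasurableSet {y : Site d → ℕ → ℝ | Col N (KK N y) v k a} :=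
  measurableSet_of_local N (p := fun κ => Col N κ v k a) fun _ _ h hc => Col_local hN h hc

/-- the colouring as a function of the labels -/
noncomputable def FF (N : ℕ) (y : Site d → ℕ → ℝ) (v : Site d) : Fin 3 := colour N (KK N y) v

lemma measurable_FF (hN : 1 ≤ N) : Measurable (FF N : (Site d → ℕ → ℝ) → Site d → Fin 3) := by
  refine measurable_pi_lambda _ fun v => ?_
  have hE : ∀ a : Fin 3, MeasurableSet {y : Site d → ℕ → ℝ | ∃ k, Col N (KK N y) v k a} := by
    intro a
    have : {y : Site d → ℕ → ℝ | ∃ k, Col N (KK N y) v k a} =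
        ⋃ k, {y : Site d → ℕ → ℝ | Col N (KK N y) v k a} := by
      ext y; simp
    rw [this]
    exact MeasurableSet.iUnion fun k => measurableSet_Col hN v k a
  refine measurable_to_countable' fun a => ?_
  have : (fun y : Site d → ℕ → ℝ => FF N y v) ⁻¹' {a} =
      {y : Site d → ℕ → ℝ | ∃ k, Col N (KK N y) v k a} ∪
        ({y | a = 0} ∩ ⋂ b : Fin 3, {y : Site d → ℕ → ℝ | ∃ k, Col N (KK N y) v k b}ᶜ) := by
    ext y
    simp only [mem_preimage, mem_singleton_iff, mem_union, mem_inter_iff, mem_ofPred_eq, mem_iInter,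
      mem_compl_iff]
    by_cases h : ∃ b, ∃ k, Col N (KK N y) v k b
    · obtain ⟨b, k, hk⟩ := h
      have e : FF N y v = b := colour_eq hk
      rw [e]
      constructor
      · rintro rfl; exact Or.inl ⟨k, hk⟩
      · rintro (⟨k', hk'⟩ | ⟨-, h2⟩)
        · exact (Col_unique hk hk').2
        · exact absurd ⟨k, hk⟩ (h2 b)
    · have e : FF N y v = 0 := colour_eq_zero h
      rw [e]
      constructor
      · rintro rfl
        exact Or.inr ⟨rfl, fun b hb => h ⟨b, hb⟩⟩
      · rintro (⟨k', hk'⟩ | ⟨h1, -⟩)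
        · exact absurd ⟨a, k', hk'⟩ h
        · exact h1.symm
  rw [this]
  refine (hE a).union ((MeasurableSet.const _).inter (MeasurableSet.iInter fun b => (hE b).compl))

lemma FF_shift (a : Site d) (y : Site d → ℕ → ℝ) : FF N (sh a y) = sh a (FF N y) := by
  funext v
  show colour N (KK N (sh a y)) v = colour N (KK N y) (v + a)
  rw [KK_shift, colour_shift]

lemma gdist_le_of_near {n : ℕ} {u : Site d} (h : near n u 0) : gdist u 0 ≤ d * n := by
  unfold gdist
  calc ∑ i, (u i - (0 : Site d) i).natAbs ≤ ∑ _i : Fin d, n := by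
        refine Finset.sum_le_sum fun i _ => ?_
        have := h i
        rw [Int.abs_eq_natAbs] at this
        exact_mod_cast this
    _ = d * n := by simp

lemma FF_determined (hN : 1 ≤ N) {y : Site d → ℕ → ℝ} {k : ℕ} {a : Fin 3}
    (h : Col N (KK N y) 0 k a) : Determined (FF N) y (d * (6 * rr N k)) := by
  intro y' hy'
  have hag : Agree k 0 (5 * rr N k) (KK N y) (KK N y') := by
    intro j hj u hu
    refine kap_local fun w hw => ?_
    have hrr : rr N j ≤ rr N k := by
      have := EE_mono N hj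
      unfold rr ss
      gcongr
    have h1 : near (6 * rr N k) w 0 := near_mono (near_trans hw hu) (by omega)
    rw [hy' w (gdist_le_of_near h1)]
  have h2 := Col_local hN hag h
  show colour N (KK N y') 0 = colour N (KK N y) 0
  rw [colour_eq h, colour_eq h2]

lemma CC_of_Col (hN : 1 ≤ N) {y : Site d → ℕ → ℝ} {k : ℕ} {a : Fin 3}
    (h : Col N (KK N y) 0 k a) : y ∈ CC d N k := by
  intro j hj
  by_contra hcon
  obtain ⟨c, -, h2, -⟩ := h
  exact h2 j hj (cov_of_not_bad hN hcon)

end measurability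

section final

variable {P : Measure ℝ} [IsProbabilityMeasure P] [NullSingletonClass P] {N : ℕ}

lemma ae_cov (hN : 1 ≤ N) (hδ : ENNReal.ofReal (2 * d / N) < 1) :
    ∀ᵐ y ∂ iid (Site d) (iid ℕ P), ∀ v, ∃ k, Cov N (KK N y) k v := by
  have h0 : ∀ᵐ y ∂ iid (Site d) (iid ℕ P), ∃ k, Cov N (KK N y) k 0 := by
    rw [ae_iff]
    have h1 : ∀ k : ℕ, iid (Site d) (iid ℕ P) {y | ¬ ∃ k, Cov N (KK N y) k 0} ≤
        ENNReal.ofReal (2 * d / N) ^ k := by
      intro k
      refine (measure_mono ?_).trans (CC_prob P hN k)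
      intro y hy j _
      by_contra hcon
      exact hy ⟨j, cov_of_not_bad hN hcon⟩
    have h2 := ge_of_tendsto' (ENNReal.tendsto_pow_atTop_nhds_zero_of_lt_one hδ) h1
    exact le_antisymm h2 zero_le
  rw [ae_all_iff]
  intro v
  have h1 := (mp_sh (iid ℕ P) v).quasiMeasurePreserving.ae h0
  filter_upwards [h1] with y hy
  obtain ⟨k, hk⟩ := hy
  rw [KK_shift, Cov_shift, zero_add] at hk
  exact ⟨k, hk⟩

lemma FF_ffiid (hN : 1 ≤ N) (hδ : ENNReal.ofReal (2 * d / N) < 1) :
    IsFFIID (iid ℕ P) (FF N : (Site d → ℕ → ℝ) → Site d → Fin 3) := by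
  refine ⟨measurable_FF hN, FF_shift, ?_, ?_⟩
  · filter_upwards [ae_cov (P := P) hN hδ] with y hy
    obtain ⟨k, a, h⟩ := Col_exists (hy 0)
    exact ⟨_, FF_determined hN h⟩
  · filter_upwards [ae_cov (P := P) hN hδ] with y hy u v huv
    obtain ⟨k, a, h⟩ := Col_exists (hy u)
    obtain ⟨k', a', h'⟩ := Col_exists (hy v)
    show colour N (KK N y) u ≠ colour N (KK N y) v
    rw [colour_eq h, colour_eq h']
    exact proper huv h h'

/-- the majorant of the power of the coding radius -/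
noncomputable def gg (d N : ℕ) (α : ℝ) (y : Site d → ℕ → ℝ) : ℝ≥0∞ :=
  ∑' k : ℕ, (CC d N k).indicator (fun _ => ((d * (6 * rr N k) : ℕ) : ℝ≥0∞) ^ α) y

lemma measurable_gg (N : ℕ) (α : ℝ) : Measurable (gg d N α) :=
  Measurable.tsum fun k => measurable_const.indicator (measurableSet_CC N k)

lemma le_gg (hN : 1 ≤ N) {α : ℝ} (hα : 0 ≤ α) {y : Site d → ℕ → ℝ}
    (hy : ∃ k, Cov N (KK N y) k 0) :
    ((codingRadius (FF N) y : ℕ∞) : ℝ≥0∞) ^ α ≤ gg d N α y := by
  obtain ⟨k, a, h⟩ := Col_exists hy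
  have h1 : codingRadius (FF N) y ≤ ((d * (6 * rr N k) : ℕ) : ℕ∞) :=
    codingRadius_le (FF_determined hN h)
  have h2 : ((codingRadius (FF N) y : ℕ∞) : ℝ≥0∞) ≤ ((d * (6 * rr N k) : ℕ) : ℝ≥0∞) := by
    have := ENat.toENNReal_le.2 h1
    simpa using this
  refine (ENNReal.rpow_le_rpow h2 hα).trans ?_
  unfold gg
  refine le_trans ?_ (ENNReal.le_tsum k)
  rw [indicator_of_mem (CC_of_Col hN h)]

lemma lintegral_gg (hN : 1 ≤ N) {α : ℝ} (hα : 0 ≤ α)
    (hθ : ENNReal.ofReal (2 * d / N) * ((6 * N + 4 : ℕ) : ℝ≥0∞) ^ α < 1) :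
    ∫⁻ y, gg d N α y ∂ iid (Site d) (iid ℕ P) < ∞ := by
  unfold gg
  rw [lintegral_tsum fun k => (measurable_const.indicator (measurableSet_CC N k)).aemeasurable]
  have h1 : ∀ k : ℕ, ∫⁻ y, (CC d N k).indicator (fun _ => ((d * (6 * rr N k) : ℕ) : ℝ≥0∞) ^ α) y
      ∂ iid (Site d) (iid ℕ P) ≤ ((48 * d * N : ℕ) : ℝ≥0∞) ^ α *
        (ENNReal.ofReal (2 * d / N) * ((6 * N + 4 : ℕ) : ℝ≥0∞) ^ α) ^ k := by
    intro k
    rw [lintegral_indicator_const (measurableSet_CC N k)]
    have h2 : d * (6 * rr N k) = (48 * d * N) * (6 * N + 4) ^ k := by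
      unfold rr
      rw [ss_eq]
      ring
    rw [h2]
    calc (((48 * d * N) * (6 * N + 4) ^ k : ℕ) : ℝ≥0∞) ^ α *
          iid (Site d) (iid ℕ P) (CC d N k)
        ≤ (((48 * d * N) * (6 * N + 4) ^ k : ℕ) : ℝ≥0∞) ^ α *
          ENNReal.ofReal (2 * d / N) ^ k := by
          gcongr
          exact CC_prob P hN k
      _ = _ := by
          rw [Nat.cast_mul, Nat.cast_pow, ENNReal.mul_rpow_of_nonneg _ _ hα, mul_pow,
            ← ENNReal.rpow_natCast, ← ENNReal.rpow_natCast, ← ENNReal.rpow_natCast,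
            ← ENNReal.rpow_mul, ← ENNReal.rpow_mul, mul_comm (k : ℝ) α]
          ring
  refine lt_of_le_of_lt (ENNReal.tsum_le_tsum h1) ?_
  rw [ENNReal.tsum_mul_left, ENNReal.tsum_geometric]
  refine ENNReal.mul_lt_top (ENNReal.rpow_lt_top_of_nonneg hα (ENNReal.natCast_ne_top _)) ?_
  rw [ENNReal.inv_lt_top]
  exact tsub_pos_of_lt hθ

/-- choice of the parameter -/
lemma exists_N (d : ℕ) {α : ℝ} (hα : 0 < α) (hα1 : α < 1) :
    ∃ N : ℕ, 1 ≤ N ∧ ENNReal.ofReal (2 * d / N) * ((6 * N + 4 : ℕ) : ℝ≥0∞) ^ α < 1 := by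
  have h1 : Tendsto (fun N : ℕ => ((N : ℝ)) ^ (-(1 - α))) atTop (𝓝 0) :=
    (tendsto_rpow_neg_atTop (by linarith)).comp tendsto_natCast_atTop_atTop
  have h2 : Tendsto (fun N : ℕ => (2 * d * 10) * ((N : ℝ)) ^ (-(1 - α))) atTop
      (𝓝 ((2 * d * 10) * 0)) := h1.const_mul _
  rw [mul_zero] at h2
  have h3 := (h2.eventually (gt_mem_nhds (zero_lt_one))).and (eventually_ge_atTop 1)
  obtain ⟨N, hN1, hN2⟩ := h3.exists
  refine ⟨N, hN2, ?_⟩
  have hN0 : (0 : ℝ) < N := by exact_mod_cast hN2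
  have h4 : ((6 * N + 4 : ℕ) : ℝ) ^ α ≤ 10 * (N : ℝ) ^ α := by
    have h5 : ((6 * N + 4 : ℕ) : ℝ) ≤ 10 * N := by
      have : 6 * N + 4 ≤ 10 * N := by omega
      exact_mod_cast this
    calc ((6 * N + 4 : ℕ) : ℝ) ^ α ≤ (10 * (N : ℝ)) ^ α :=
          Real.rpow_le_rpow (by positivity) h5 hα.le
      _ = 10 ^ α * (N : ℝ) ^ α := Real.mul_rpow (by norm_num) hN0.le
      _ ≤ 10 * (N : ℝ) ^ α := by
          gcongr
          calc (10 : ℝ) ^ α ≤ 10 ^ (1 : ℝ) :=
                Real.rpow_le_rpow_of_exponent_le (by norm_num) hα1.le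
            _ = 10 := Real.rpow_one _
  have h6 : (2 * d / N : ℝ) * ((6 * N + 4 : ℕ) : ℝ) ^ α < 1 := by
    calc (2 * d / N : ℝ) * ((6 * N + 4 : ℕ) : ℝ) ^ α
        ≤ (2 * d / N : ℝ) * (10 * (N : ℝ) ^ α) := by gcongr
      _ = (2 * d * 10) * ((N : ℝ)) ^ (-(1 - α)) := by
          rw [show (-(1 - α) : ℝ) = α - 1 by ring, Real.rpow_sub hN0, Real.rpow_one]
          ring
      _ < 1 := hN1
  rw [← ENNReal.ofReal_natCast, ENNReal.ofReal_rpow_of_nonneg (by positivity) hα.le,
    ← ENNReal.ofReal_mul (by positivity)]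
  exact ENNReal.ofReal_lt_one.2 h6

end final

/-- the uniform law on the unit interval of the line -/
noncomputable def P0 : Measure ℝ := volume.restrict (Icc 0 1)

instance : IsProbabilityMeasure P0 := ⟨by simp [P0]⟩

instance : NullSingletonClass P0 := by unfold P0; infer_instance

/-- Construction: for `α < 1` there is an ffiid three-colouring with uniform labels and with
coding radius of finite `α`-moment. -/
theorem exists_ffiid (d : ℕ) {α : ℝ} (hα : 0 < α) (hα1 : α < 1) :
    ∃ F : (Site d → unitInterval) → Site d → Fin 3, IsFFIID volume F ∧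
      ∃ g : (Site d → unitInterval) → ℝ≥0∞, Measurable g ∧
        (∀ᵐ y ∂ iid (Site d) (volume : Measure unitInterval),
          ((codingRadius F y : ℕ∞) : ℝ≥0∞) ^ α ≤ g y) ∧
        ∫⁻ y, g y ∂ iid (Site d) (volume : Measure unitInterval) < ∞ := by
  obtain ⟨N, hN, hθ⟩ := exists_N d hα hα1
  have hδ : ENNReal.ofReal (2 * d / N) < 1 := by
    refine lt_of_le_of_lt ?_ hθ
    refine le_mul_of_one_le_right zero_le ?_
    refine ENNReal.one_le_rpow ?_ hα
    have : 1 ≤ 6 * N + 4 := by omega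
    exact_mod_cast this
  obtain ⟨f, hf, hfm⟩ := MeasureTheory.Measure.exists_measurable_map_eq (iid ℕ P0)
  set Φ : (Site d → unitInterval) → Site d → ℕ → ℝ := fun y u => f (y u) with hΦ
  have hmp : MeasurePreserving Φ (iid (Site d) (volume : Measure unitInterval))
      (iid (Site d) (iid ℕ P0)) := by
    refine ⟨measurable_pi_lambda _ fun u => hf.comp (measurable_pi_apply u), ?_⟩
    have := infinitePi_map_pi (fun _ : Site d => (volume : Measure unitInterval))
      (f := fun _ => f) (fun _ => hf)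
    rw [hfm] at this
    exact this
  have hdet : ∀ y r, Determined (FF N) (Φ y) r → Determined (fun y => FF N (Φ y)) y r := by
    intro y r h y' hy'
    exact h (Φ y') fun v hv => by simp only [hΦ]; rw [hy' v hv]
  have hR : ∀ y, codingRadius (fun y => FF N (Φ y)) y ≤ codingRadius (FF N) (Φ y) := by
    intro y
    unfold codingRadius
    exact le_iInf₂ fun r hr => iInf₂_le r (hdet y r hr)
  have hff := FF_ffiid (P := P0) (d := d) hN hδ
  refine ⟨fun y => FF N (Φ y), ⟨hff.meas.comp hmp.measurable, fun a y => ?_, ?_, ?_⟩,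
    fun y => gg d N α (Φ y), (measurable_gg N α).comp hmp.measurable, ?_, ?_⟩
  · show FF N (Φ (sh a y)) = _
    have : Φ (sh a y) = sh a (Φ y) := rfl
    rw [this, hff.comm]
  · filter_upwards [hmp.quasiMeasurePreserving.ae hff.finitary] with y hy
    obtain ⟨r, hr⟩ := hy
    exact ⟨r, hdet y r hr⟩
  · exact hmp.quasiMeasurePreserving.ae hff.proper
  · filter_upwards [hmp.quasiMeasurePreserving.ae (ae_cov (P := P0) hN hδ)] with y hy
    refine le_trans ?_ (le_gg hN hα.le (hy 0))
    exact ENNReal.rpow_le_rpow (ENat.toENNReal_le.2 (hR y)) hα.le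
  · rw [hmp.lintegral_comp (measurable_gg N α)]
    exact lintegral_gg hN hα.le hθ

end Pool.Agent.V7H98.TC
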