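import Pool.Agent.V7H98.TCCocycle

/-!
# Height differences of three-colourings along paths
-/

open MeasureTheory Measure Set Function
open scoped ENNReal

namespace Pool.Agent.V7H98.TC

/-- the step of the height function -/
def dl (a b : ZMod 3) : ℤ := if b = a + 1 then 1 else if b = a + 2 then -1 else 0

lemma dl_square : ∀ a b c d : ZMod 3, a ≠ b → b ≠ c → a ≠ d → d ≠ c →
    dl a b + dl b c = dl a d + dl d c := by decide

lemma dl_cast : ∀ a b : ZMod 3, a ≠ b → ((dl a b : ℤ) : ZMod 3) = b - a := by decide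

lemma dl_abs : ∀ a b : ZMod 3, |dl a b| ≤ 1 := by decide

lemma dl_odd : ∀ a b : ZMod 3, a ≠ b → (dl a b - 1) % 2 = 0 := by decide

/-- upward path sum -/
def up (c : ℤ → ℤ → ZMod 3) (i : ℤ) (M : ℕ) : ℤ :=
  ∑ j ∈ Finset.range M, dl (c i j) (c i (j + 1))

/-- horizontal path sum -/
def hor (c : ℤ → ℤ → ZMod 3) (j : ℤ) (l : ℕ) : ℤ :=
  ∑ i ∈ Finset.range l, dl (c i j) (c (i + 1) j)

/-- sum along the path: up, right, down -/
def gam (c : ℤ → ℤ → ZMod 3) (l M : ℕ) : ℤ := up c 0 M + hor c M l - up c l M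

/-- proper colourings of the plane -/
def Prop2 (c : ℤ → ℤ → ZMod 3) : Prop :=
  ∀ i j, c i j ≠ c (i + 1) j ∧ c i j ≠ c i (j + 1)

lemma strip {c : ℤ → ℤ → ZMod 3} (hc : Prop2 c) (j : ℤ) (l : ℕ) :
    hor c j l + dl (c l j) (c l (j + 1)) = dl (c 0 j) (c 0 (j + 1)) + hor c (j + 1) l := by
  induction l with
  | zero => simp [hor]
  | succ l ih =>
    unfold hor at ih ⊢
    rw [Finset.sum_range_succ, Finset.sum_range_succ]
    have h := dl_square (c l j) (c (l + 1) j) (c (l + 1) (j + 1)) (c l (j + 1)) (hc l j).1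
      (hc (l + 1) j).2 (hc l j).2 (hc l (j + 1)).1
    push_cast at h ⊢
    linarith

lemma rect {c : ℤ → ℤ → ZMod 3} (hc : Prop2 c) (l M : ℕ) :
    up c 0 M + hor c M l = hor c 0 l + up c l M := by
  induction M with
  | zero => simp [up]
  | succ M ih =>
    have h := strip hc M l
    unfold up at ih ⊢
    rw [Finset.sum_range_succ, Finset.sum_range_succ]
    push_cast
    linarith

lemma gam_eq {c : ℤ → ℤ → ZMod 3} (hc : Prop2 c) (l M : ℕ) : gam c l M = hor c 0 l := by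
  unfold gam
  linarith [rect hc l M]

/-- the reflected field -/
def refl (c : ℤ → ℤ → ZMod 3) : ℤ → ℤ → ZMod 3 := fun i j => c i (-j)

lemma prop2_refl {c : ℤ → ℤ → ZMod 3} (hc : Prop2 c) : Prop2 (refl c) := by
  intro i j
  refine ⟨(hc i (-j)).1, ?_⟩
  have h := (hc i (-(j + 1))).2
  unfold refl
  have e : -(j + 1) + 1 = -j := by ring
  rw [e] at h
  exact h.symm

lemma hor_refl (c : ℤ → ℤ → ZMod 3) (l : ℕ) : hor (refl c) 0 l = hor c 0 l := by
  simp [hor, refl]

lemma hor_abs (c : ℤ → ℤ → ZMod 3) (j : ℤ) (l : ℕ) : |hor c j l| ≤ l := by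
  unfold hor
  refine (Finset.abs_sum_le_sum_abs _ _).trans ?_
  refine (Finset.sum_le_sum fun i _ => dl_abs _ _).trans ?_
  simp

lemma hor_parity {c : ℤ → ℤ → ZMod 3} (hc : Prop2 c) (j : ℤ) (l : ℕ) :
    (hor c j l - l) % 2 = 0 := by
  induction l with
  | zero => simp [hor]
  | succ l ih =>
    unfold hor at ih ⊢
    rw [Finset.sum_range_succ]
    have := dl_odd _ _ (hc l j).1
    push_cast
    omega

lemma hor_cast {c : ℤ → ℤ → ZMod 3} (hc : Prop2 c) (j : ℤ) (l : ℕ) :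
    ((hor c j l : ℤ) : ZMod 3) = c l j - c 0 j := by
  induction l with
  | zero => simp [hor]
  | succ l ih =>
    unfold hor at ih ⊢
    rw [Finset.sum_range_succ]
    have := dl_cast _ _ (hc l j).1
    push_cast at ih this ⊢
    rw [ih, this]
    ring

lemma hor_add (c : ℤ → ℤ → ZMod 3) (l m : ℕ) :
    hor c 0 (l + m) = hor c 0 l + hor (fun i j => c (i + l) j) 0 m := by
  unfold hor
  rw [Finset.sum_range_add]
  congr 1
  refine Finset.sum_congr rfl fun i _ => ?_
  push_cast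
  congr 2 <;> ring

/-- the sites of the path -/
def Gam (l M : ℕ) : Finset (ℤ × ℤ) :=
  (Finset.range (M + 1)).image (fun j : ℕ => ((0 : ℤ), (j : ℤ))) ∪
    ((Finset.range (l + 1)).image (fun i : ℕ => ((i : ℤ), (M : ℤ))) ∪
      (Finset.range (M + 1)).image (fun j : ℕ => ((l : ℤ), (j : ℤ))))

lemma Gam_card (l M : ℕ) : (Gam l M).card ≤ 2 * (M + 1) + (l + 1) := by
  unfold Gam
  refine (Finset.card_union_le _ _).trans ?_
  have h1 := Finset.card_image_le (s := Finset.range (M + 1)) (f := fun j : ℕ => ((0 : ℤ), (j : ℤ)))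
  have h2 := Finset.card_union_le ((Finset.range (l + 1)).image (fun i : ℕ => ((i : ℤ), (M : ℤ))))
    ((Finset.range (M + 1)).image (fun j : ℕ => ((l : ℤ), (j : ℤ))))
  have h3 := Finset.card_image_le (s := Finset.range (l + 1)) (f := fun i : ℕ => ((i : ℤ), (M : ℤ)))
  have h4 := Finset.card_image_le (s := Finset.range (M + 1)) (f := fun j : ℕ => ((l : ℤ), (j : ℤ)))
  rw [Finset.card_range] at h1 h3 h4
  omega

lemma mem_Gam {l M : ℕ} {i j : ℤ} : (i, j) ∈ Gam l M ↔
    (i = 0 ∧ 0 ≤ j ∧ j ≤ M) ∨ (0 ≤ i ∧ i ≤ l ∧ j = M) ∨ (i = l ∧ 0 ≤ j ∧ j ≤ M) := by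
  unfold Gam
  simp only [Finset.mem_union, Finset.mem_image, Finset.mem_range, Prod.mk.injEq]
  constructor
  · rintro (⟨a, ha, rfl, rfl⟩ | ⟨a, ha, rfl, rfl⟩ | ⟨a, ha, rfl, rfl⟩)
    · left; omega
    · right; left; omega
    · right; right; omega
  · rintro (⟨rfl, h1, h2⟩ | ⟨h1, h2, rfl⟩ | ⟨rfl, h1, h2⟩)
    · left; exact ⟨j.toNat, by omega, rfl, by omega⟩
    · right; left; exact ⟨i.toNat, by omega, by omega, rfl⟩
    · right; right; exact ⟨j.toNat, by omega, rfl, by omega⟩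

lemma gam_congr {c c' : ℤ → ℤ → ZMod 3} {l M : ℕ} (h : ∀ p ∈ Gam l M, c p.1 p.2 = c' p.1 p.2) :
    gam c l M = gam c' l M := by
  have h' : ∀ i j, (i, j) ∈ Gam l M → c i j = c' i j := fun i j hij => h (i, j) hij
  unfold gam up hor
  congr 1
  · congr 1
    · refine Finset.sum_congr rfl fun j hj => ?_
      rw [Finset.mem_range] at hj
      rw [h' 0 j (mem_Gam.2 (by omega)), h' 0 (j + 1) (mem_Gam.2 (by omega))]
    · refine Finset.sum_congr rfl fun i hi => ?_
      rw [Finset.mem_range] at hi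
      rw [h' i M (mem_Gam.2 (by omega)), h' (i + 1) M (mem_Gam.2 (by omega))]
  · refine Finset.sum_congr rfl fun j hj => ?_
    rw [Finset.mem_range] at hj
    rw [h' l j (mem_Gam.2 (by omega)), h' l (j + 1) (mem_Gam.2 (by omega))]

end Pool.Agent.V7H98.TC
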