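import Pool.Agent.V7H98.TCColor

/-!
# The random cells
-/

open MeasureTheory Measure Set Function
open scoped ENNReal

namespace Pool.Agent.V7H98.TC

section top

variable {I : Type*} [DecidableEq I] (P : Measure ℝ) [IsProbabilityMeasure P]

/-- `w` restricted to `S` has its unique maximum at `c` -/
def Top (S : Finset I) (c : I) (w : I → ℝ) : Prop := c ∈ S ∧ ∀ u ∈ S, u ≠ c → w u < w c

omit [DecidableEq I] in
lemma Top_unique {S : Finset I} {c c' : I} {w : I → ℝ} (h : Top S c w) (h' : Top S c' w) :
    c = c' := by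
  by_contra hne
  exact lt_asymm (h.2 c' h'.1 (Ne.symm hne)) (h'.2 c h.1 hne)

omit [DecidableEq I] in
lemma measurableSet_Top (S : Finset I) (c : I) : MeasurableSet {w : I → ℝ | Top S c w} := by
  by_cases hc : c ∈ S
  · have : {w : I → ℝ | Top S c w} = ⋂ u ∈ S, ⋂ (_ : u ≠ c), {w : I → ℝ | w u < w c} := by
      ext w
      simp [Top, hc]
    rw [this]
    refine Finset.measurableSet_biInter _ fun u _ => MeasurableSet.iInter fun _ => ?_
    exact measurableSet_lt (measurable_pi_apply u) (measurable_pi_apply c)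
  · have : {w : I → ℝ | Top S c w} = ∅ := by
      ext w
      simp [Top, hc]
    rw [this]
    exact MeasurableSet.empty

/-- Updating one coordinate by an independent variable. -/
lemma mp_upd {X : Type*} [MeasurableSpace X] (Q : Measure X) [IsProbabilityMeasure Q] (i : I) :
    MeasurePreserving (fun (p : X × (I → X)) => update p.2 i p.1)
      (Q.prod (iid I Q)) (iid I Q) := by
  have hm : Measurable (fun (p : X × (I → X)) => update p.2 i p.1) := by
    refine measurable_pi_lambda _ fun k => ?_
    by_cases hk : k = i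
    · subst hk
      simpa using measurable_fst
    · simp only [update_of_ne hk]
      exact (measurable_pi_apply k).comp measurable_snd
  refine ⟨hm, ?_⟩
  refine eq_infinitePi _ fun s t ht => ?_
  rw [map_apply hm (.pi s.countable_toSet fun _ _ => ht _)]
  by_cases hi : i ∈ s
  · have h : (fun (p : X × (I → X)) => update p.2 i p.1) ⁻¹' ((s : Set I).pi t) =
        (t i) ×ˢ (((s.erase i : Finset I) : Set I).pi t) := by
      ext ⟨b, z⟩
      simp only [mem_preimage, Set.mem_pi, Finset.mem_coe, mem_prod, Finset.mem_erase]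
      constructor
      · intro h
        refine ⟨by simpa using h i hi, fun k hk => ?_⟩
        simpa [update_of_ne hk.1] using h k hk.2
      · rintro ⟨h1, h2⟩ k hk
        by_cases hki : k = i
        · subst hki; simpa using h1
        · simpa [update_of_ne hki] using h2 k ⟨hki, hk⟩
    rw [h, prod_prod, infinitePi_pi _ fun i _ => ht _]
    exact Finset.mul_prod_erase s (fun i => Q (t i)) hi
  · have h : (fun (p : X × (I → X)) => update p.2 i p.1) ⁻¹' ((s : Set I).pi t) =
        univ ×ˢ ((s : Set I).pi t) := by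
      ext ⟨b, z⟩
      simp only [mem_preimage, Set.mem_pi, Finset.mem_coe, mem_prod, mem_univ, true_and]
      refine forall₂_congr fun k hk => ?_
      have hki : k ≠ i := fun h => hi (h ▸ hk)
      simp [update_of_ne hki]
    rw [h, prod_prod, infinitePi_pi _ fun i _ => ht _, measure_univ, one_mul]

lemma tie_null [NullSingletonClass P] {u v : I} (huv : u ≠ v) : iid I P {w | w u = w v} = 0 := by
  have hm : MeasurableSet {w : I → ℝ | w u = w v} :=
    measurableSet_eq_fun (measurable_pi_apply u) (measurable_pi_apply v)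
  rw [← (mp_upd P u).measure_preimage hm.nullMeasurableSet,
    Measure.prod_apply_symm ((mp_upd P u).measurable hm)]
  rw [lintegral_eq_zero_iff (measurable_measure_prodMk_right ((mp_upd P u).measurable hm))]
  refine Filter.Eventually.of_forall fun w => ?_
  have : (fun b => (b, w)) ⁻¹' ((fun p : ℝ × (I → ℝ) => update p.2 u p.1) ⁻¹'
      {w | w u = w v}) = {w v} := by
    ext b
    simp [update_of_ne huv.symm]
  simp only [Pi.zero_apply]
  rw [this]
  exact measure_singleton _

lemma Top_prob_eq (S : Finset I) {c c' : I} (hc : c ∈ S) (hc' : c' ∈ S) :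
    iid I P {w | Top S c w} = iid I P {w | Top S c' w} := by
  have h := (mp_comp P (Equiv.swap c c').injective).measure_preimage
    (measurableSet_Top S c).nullMeasurableSet
  rw [← h]
  congr 1
  ext w
  simp only [mem_preimage, mem_ofPred_eq, Top, hc, hc', true_and, Equiv.swap_apply_left]
  constructor
  · intro h1 u hu huc
    by_cases h2 : u = c
    · subst h2
      have := h1 c' hc' (Ne.symm huc)
      rwa [Equiv.swap_apply_right] at this
    · have := h1 u hu h2
      rwa [Equiv.swap_apply_of_ne_of_ne h2 huc] at this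
  · intro h1 u hu huc
    by_cases h2 : u = c'
    · subst h2
      rw [Equiv.swap_apply_right]
      exact h1 c hc (Ne.symm huc)
    · rw [Equiv.swap_apply_of_ne_of_ne huc h2]
      exact h1 u hu h2

lemma ae_exists_Top [NullSingletonClass P] {S : Finset I} (hS : S.Nonempty) :
    ∀ᵐ w ∂ iid I P, ∃ c ∈ S, Top S c w := by
  have h1 : ∀ᵐ w ∂ iid I P, ∀ u ∈ S, ∀ v ∈ S, u ≠ v → w u ≠ w v := by
    have h2 : ∀ u ∈ S, ∀ v ∈ S, ∀ᵐ w ∂ iid I P, u ≠ v → w u ≠ w v := by
      intro u _ v _
      by_cases huv : u = v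
      · exact Filter.Eventually.of_forall fun w h => absurd huv h
      · rw [ae_iff]
        simp only [ne_eq, huv, not_false_eq_true, forall_const, not_not]
        exact tie_null P huv
    rw [Filter.eventually_all_finset]
    intro u hu
    rw [Filter.eventually_all_finset]
    exact fun v hv => h2 u hu v hv
  filter_upwards [h1] with w hw
  obtain ⟨c, hc, hmax⟩ := S.exists_max_image w hS
  exact ⟨c, hc, hc, fun u hu huc => lt_of_le_of_ne (hmax u hu) (hw u hu c hc huc)⟩

lemma Top_prob [NullSingletonClass P] {S : Finset I} {c : I} (hc : c ∈ S) :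
    (S.card : ℝ≥0∞) * iid I P {w | Top S c w} = 1 := by
  have h1 : iid I P (⋃ c' ∈ S, {w | Top S c' w}) = ∑ c' ∈ S, iid I P {w | Top S c' w} := by
    refine measure_biUnion_finset ?_ fun c' _ => measurableSet_Top S c'
    intro a _ b _ hab
    rw [Function.onFun, disjoint_left]
    intro w h1 h2
    exact hab (Top_unique h1 h2)
  have h2 : iid I P (⋃ c' ∈ S, {w | Top S c' w}) = 1 := by
    rw [← measure_univ (μ := iid I P)]
    refine measure_congr ?_
    rw [Filter.eventuallyEq_univ]
    filter_upwards [ae_exists_Top P ⟨c, hc⟩] with w hw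
    obtain ⟨c', hc', h3⟩ := hw
    simp only [mem_iUnion]
    exact ⟨c', hc', h3⟩
  rw [h2] at h1
  rw [h1, Finset.sum_congr rfl fun c' hc' => Top_prob_eq P S hc' hc]
  simp

lemma not_Top_prob [NullSingletonClass P] {S T : Finset I} (hS : S.Nonempty) (hT : T ⊆ S) :
    (S.card : ℝ≥0∞) * iid I P {w | ¬ ∃ c ∈ T, Top S c w} ≤ ((S.card - T.card : ℕ) : ℝ≥0∞) := by
  have h1 : iid I P {w | ¬ ∃ c ∈ T, Top S c w} ≤ ∑ c ∈ S \ T, iid I P {w | Top S c w} := by
    refine le_trans ?_ (measure_biUnion_finset_le _ _)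
    refine measure_mono_ae ?_
    filter_upwards [ae_exists_Top P hS] with w hw hw'
    obtain ⟨c, hc, h3⟩ := hw
    have hcT : c ∉ T := fun h => hw' ⟨c, h, h3⟩
    show w ∈ ⋃ c ∈ S \ T, {w | Top S c w}
    simp only [mem_iUnion]
    exact ⟨c, Finset.mem_sdiff.2 ⟨hc, hcT⟩, h3⟩
  calc (S.card : ℝ≥0∞) * iid I P {w | ¬ ∃ c ∈ T, Top S c w}
      ≤ S.card * ∑ c ∈ S \ T, iid I P {w | Top S c w} := by gcongr
    _ = ∑ c ∈ S \ T, (S.card : ℝ≥0∞) * iid I P {w | Top S c w} := Finset.mul_sum _ _ _
    _ = ∑ c ∈ S \ T, 1 := by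
        refine Finset.sum_congr rfl fun c hc => Top_prob P (Finset.mem_sdiff.1 hc).1
    _ = ((S.card - T.card : ℕ) : ℝ≥0∞) := by
        rw [Finset.sum_const, Finset.card_sdiff_of_subset hT]
        simp

end top

section box

variable {d : ℕ}

/-- the box of radius `n` around `v` -/
noncomputable def box (v : Site d) (n : ℕ) : Finset (Site d) :=
  Fintype.piFinset fun i => Finset.Icc (v i - n) (v i + n)

lemma mem_box {v u : Site d} {n : ℕ} : u ∈ box v n ↔ near n u v := by
  unfold box near
  simp only [Fintype.mem_piFinset, Finset.mem_Icc]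
  refine forall_congr' fun i => ?_
  rw [abs_le]
  constructor
  · rintro ⟨h1, h2⟩; constructor <;> omega
  · rintro ⟨h1, h2⟩; constructor <;> omega

lemma card_box (v : Site d) (n : ℕ) : (box v n).card = (2 * n + 1) ^ d := by
  unfold box
  rw [Fintype.card_piFinset]
  have : ∀ i : Fin d, (Finset.Icc (v i - n) (v i + n)).card = 2 * n + 1 := by
    intro i
    rw [Int.card_Icc]
    omega
  simp [this]

lemma box_nonempty (v : Site d) (n : ℕ) : (box v n).Nonempty :=
  ⟨v, mem_box.2 (near_refl _ _)⟩

end box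

section cells

variable {d : ℕ}

/-- the relative position of the centre of the cell of `v` -/
noncomputable def kap (ρ : ℕ) (w : Site d → ℝ) (v : Site d) : Option (Site d) := by
  classical
  exact if h : ∃ b, Top (box v ρ) (v + b) w then some h.choose else none

lemma kap_eq_some {ρ : ℕ} {w : Site d → ℝ} {v b : Site d} :
    kap ρ w v = some b ↔ Top (box v ρ) (v + b) w := by
  unfold kap
  constructor
  · intro h
    split_ifs at h with h1
    have h2 := h1.choose_spec
    rw [Option.some.injEq] at h
    rwa [h] at h2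
  · intro h
    have h1 : ∃ b, Top (box v ρ) (v + b) w := ⟨b, h⟩
    rw [dif_pos h1, Option.some.injEq]
    exact add_left_cancel (Top_unique h1.choose_spec h)

lemma kap_eq_none {ρ : ℕ} {w : Site d → ℝ} {v : Site d} :
    kap ρ w v = none ↔ ∀ b, ¬ Top (box v ρ) (v + b) w := by
  rw [Option.eq_none_iff_forall_ne_some]
  exact forall_congr' fun b => not_congr kap_eq_some

lemma Top_box_shift {ρ : ℕ} {w : Site d → ℝ} {v c a : Site d} :
    Top (box v ρ) c (sh a w) ↔ Top (box (v + a) ρ) (c + a) w := by
  unfold Top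
  simp only [mem_box, near_add, sh]
  refine and_congr_right fun _ => ?_
  constructor
  · intro h u hu huc
    have := h (u - a) (by rw [← near_add a, sub_add_cancel]; exact hu)
      (fun h => huc (by rw [← h, sub_add_cancel]))
    rwa [sub_add_cancel] at this
  · intro h u hu huc
    exact h (u + a) ((near_add a).2 hu) (fun h => huc (add_right_cancel h))

lemma kap_shift {ρ : ℕ} {w : Site d → ℝ} {a v : Site d} :
    kap ρ (sh a w) v = kap ρ w (v + a) := by
  refine Option.ext fun b => ?_
  rw [kap_eq_some, kap_eq_some, Top_box_shift]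
  rw [add_right_comm]

/-- the cells of a labelling -/
noncomputable def KK (N : ℕ) (y : Site d → ℕ → ℝ) : Kap d := fun k => kap (rr N k) fun u => y u k

lemma KK_shift (N : ℕ) (a : Site d) (y : Site d → ℕ → ℝ) : KK N (sh a y) = shK a (KK N y) := by
  funext k v
  exact kap_shift (w := fun u => y u k)

lemma kap_local {ρ : ℕ} {w w' : Site d → ℝ} {v : Site d} (h : ∀ u, near ρ u v → w u = w' u) :
    kap ρ w v = kap ρ w' v := by
  refine Option.ext fun b => ?_
  rw [kap_eq_some, kap_eq_some]
  unfold Top
  refine and_congr_right fun hb => ?_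
  have hb' := h _ (mem_box.1 hb)
  constructor
  · intro h1 u hu hub
    rw [← hb', ← h u (mem_box.1 hu)]
    exact h1 u hu hub
  · intro h1 u hu hub
    rw [hb', h u (mem_box.1 hu)]
    exact h1 u hu hub

/-- the event that the origin is not in a shrunken cell -/
def Bad (d : ℕ) (N k : ℕ) : Set (Site d → ℝ) :=
  {w | ¬ ∃ c ∈ box (0 : Site d) (rr N k - ss N k), Top (box 0 (rr N k + ss N k)) c w}

lemma measurableSet_Bad (N k : ℕ) : MeasurableSet (Bad d N k) := by
  have : Bad d N k = (⋃ c ∈ box (0 : Site d) (rr N k - ss N k),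
      {w | Top (box 0 (rr N k + ss N k)) c w})ᶜ := by
    ext w
    simp [Bad]
  rw [this]
  exact (Finset.measurableSet_biUnion _ fun c _ => measurableSet_Top _ c).compl

lemma cov_of_not_bad {N : ℕ} (hN : 1 ≤ N) {y : Site d → ℕ → ℝ} {k : ℕ}
    (h : (fun u => y u k) ∉ Bad d N k) : Cov N (KK N y) k 0 := by
  unfold Bad at h
  simp only [mem_ofPred_eq, not_not] at h
  obtain ⟨c, hc, htop⟩ := h
  rw [mem_box] at hc
  have hsr : ss N k ≤ rr N k := Nat.le_mul_of_pos_left _ hN
  refine ⟨c, InO.base fun u hu => ⟨?_, ?_⟩⟩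
  · exact near_mono (near_trans hu (near_symm hc)) (by omega)
  · show kap (rr N k) (fun u => y u k) u = _
    rw [kap_eq_some, add_sub_cancel]
    refine ⟨?_, fun v hv hvc => ?_⟩
    · rw [mem_box]
      exact near_mono (near_trans hc (near_symm hu)) (by omega)
    · refine htop.2 v ?_ hvc
      rw [mem_box] at hv ⊢
      exact near_mono (near_trans hv hu) (by omega)

lemma Bad_prob (P : Measure ℝ) [IsProbabilityMeasure P] [NullSingletonClass P] {N : ℕ} (hN : 1 ≤ N) (k : ℕ) :
    iid (Site d) P (Bad d N k) ≤ ENNReal.ofReal (2 * d / N) := by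
  have hsr : ss N k ≤ rr N k := Nat.le_mul_of_pos_left _ hN
  have hT : box (0 : Site d) (rr N k - ss N k) ⊆ box 0 (rr N k + ss N k) := by
    intro u hu
    rw [mem_box] at hu ⊢
    exact near_mono hu (by omega)
  have h := not_Top_prob P (box_nonempty (0 : Site d) (rr N k + ss N k)) hT
  rw [card_box, card_box] at h
  set a : ℕ := 2 * (rr N k + ss N k) + 1 with ha
  set b : ℕ := 2 * (rr N k - ss N k) + 1 with hb
  have hab : b ≤ a := by omega
  have hpow : b ^ d ≤ a ^ d := Nat.pow_le_pow_left hab d
  have hN0 : (0 : ℝ) < N := by exact_mod_cast hN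
  have ha0 : (0 : ℝ) < a := by positivity
  have hreal : ((a ^ d - b ^ d : ℕ) : ℝ) ≤ 2 * d / N * (a : ℝ) ^ d := by
    rw [Nat.cast_sub hpow]
    push_cast
    have h1 : 1 + (d : ℝ) * ((b : ℝ) / a - 1) ≤ ((b : ℝ) / a) ^ d := by
      have := one_add_mul_le_pow (a := (b : ℝ) / a - 1) (by
        have : (0 : ℝ) ≤ (b : ℝ) / a := by positivity
        linarith) d
      simpa using this
    have h2 : 1 - ((b : ℝ) / a) ^ d ≤ 2 * d / N := by
      have h3 : 1 - (b : ℝ) / a ≤ 2 / N := by
        have hba : (a : ℝ) - b = 4 * ss N k := by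
          have : a - b = 4 * ss N k := by omega
          rw [← Nat.cast_sub hab, this]
          push_cast; ring
        have h4 : 1 - (b : ℝ) / a = 4 * ss N k / a := by
          rw [← hba]; field_simp
        rw [h4, div_le_div_iff₀ ha0 hN0]
        have h5 : (N : ℝ) * ss N k = rr N k := by
          unfold rr; push_cast; ring
        have h6 : (a : ℝ) = 2 * (rr N k + ss N k) + 1 := by rw [ha]; push_cast; ring
        have h7 : (0 : ℝ) ≤ ss N k := by positivity
        nlinarith
      calc 1 - ((b : ℝ) / a) ^ d ≤ d * (1 - (b : ℝ) / a) := by linarith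
        _ ≤ d * (2 / N) := by gcongr
        _ = 2 * d / N := by ring
    have h3 : (a : ℝ) ^ d - (b : ℝ) ^ d = (1 - ((b : ℝ) / a) ^ d) * (a : ℝ) ^ d := by
      rw [div_pow]; field_simp
    rw [h3]
    gcongr
  have hpos : (0 : ℝ) < (a : ℝ) ^ d := by positivity
  have h1 : ((a ^ d : ℕ) : ℝ≥0∞) * iid (Site d) P (Bad d N k) ≤
      ((a ^ d : ℕ) : ℝ≥0∞) * ENNReal.ofReal (2 * d / N) := by
    refine h.trans ?_
    rw [← ENNReal.ofReal_natCast, ← ENNReal.ofReal_natCast, ← ENNReal.ofReal_mul (by positivity)]
    refine ENNReal.ofReal_le_ofReal ?_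
    push_cast at hreal ⊢
    linarith
  have hne : ((a ^ d : ℕ) : ℝ≥0∞) ≠ 0 := by
    have : a ^ d ≠ 0 := by positivity
    exact_mod_cast this
  exact (ENNReal.mul_le_mul_iff_right hne (ENNReal.natCast_ne_top _)).1 h1

end cells

end Pool.Agent.V7H98.TC
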