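import Mathlib

/-!
# Product measures: reindexing, mixing and freezing of coordinates
-/

open MeasureTheory Measure Set Function
open scoped ENNReal

namespace Pool.Agent.V7H98.TC

section general

variable {I J : Type*} {X : Type*} [MeasurableSpace X] (P : Measure X) [IsProbabilityMeasure P]

/-- The law of i.i.d. variables indexed by `I`. -/
noncomputable abbrev iid (I : Type*) {X : Type*} [MeasurableSpace X] (P : Measure X) : Measure (I → X) :=
  infinitePi (fun _ : I => P)

lemma measurable_reindex (j : I → J) : Measurable (fun (z : J → X) (i : I) => z (j i)) :=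
  measurable_pi_lambda _ fun _ => measurable_pi_apply _

lemma mp_comp {j : I → J} (hj : Injective j) :
    MeasurePreserving (fun (z : J → X) (i : I) => z (j i)) (iid J P) (iid I P) := by
  refine ⟨measurable_reindex j, ?_⟩
  refine eq_infinitePi _ fun s t ht => ?_
  classical
  rw [map_apply (measurable_reindex j) (.pi s.countable_toSet fun _ _ => ht _)]
  have h : (fun (z : J → X) (i : I) => z (j i)) ⁻¹' ((s : Set I).pi t) =
      ((s.map ⟨j, hj⟩ : Finset J) : Set J).pi (extend j t fun _ => univ) := by
    ext z
    simp only [mem_preimage, Set.mem_pi, Finset.mem_coe, Finset.mem_map, Embedding.coeFn_mk]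
    constructor
    · rintro h k ⟨i, hi, rfl⟩
      rw [hj.extend_apply]
      exact h i hi
    · intro h i hi
      have := h (j i) ⟨i, hi, rfl⟩
      rwa [hj.extend_apply] at this
  rw [h, infinitePi_pi, Finset.prod_map]
  · refine Finset.prod_congr rfl fun i _ => ?_
    simp only [Embedding.coeFn_mk]
    rw [hj.extend_apply]
  · intro k _
    by_cases hk : ∃ i, j i = k
    · obtain ⟨i, rfl⟩ := hk
      rw [hj.extend_apply]
      exact ht i
    · rw [extend_apply' _ _ _ hk]
      exact MeasurableSet.univ

lemma measurable_sumElim : Measurable (fun (p : (I → X) × (J → X)) => Sum.elim p.1 p.2) := by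
  refine measurable_pi_lambda _ fun k => ?_
  rcases k with i | j
  · exact (measurable_pi_apply i).comp measurable_fst
  · exact (measurable_pi_apply j).comp measurable_snd

lemma mp_sum : MeasurePreserving (fun (p : (I → X) × (J → X)) => Sum.elim p.1 p.2)
    ((iid I P).prod (iid J P)) (iid (I ⊕ J) P) := by
  refine ⟨measurable_sumElim, ?_⟩
  refine eq_infinitePi _ fun s t ht => ?_
  classical
  rw [map_apply measurable_sumElim (.pi s.countable_toSet fun _ _ => ht _)]
  have h : (fun (p : (I → X) × (J → X)) => Sum.elim p.1 p.2) ⁻¹' ((s : Set (I ⊕ J)).pi t) =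
      ((s.toLeft : Set I).pi fun i => t (Sum.inl i)) ×ˢ
        ((s.toRight : Set J).pi fun j => t (Sum.inr j)) := by
    ext ⟨a, b⟩
    simp only [mem_preimage, Set.mem_pi, Finset.mem_coe, mem_prod, Finset.mem_toLeft,
      Finset.mem_toRight]
    constructor
    · intro h
      exact ⟨fun i hi => h _ hi, fun j hj => h _ hj⟩
    · rintro ⟨h1, h2⟩ (i | j) hk
      · exact h1 i hk
      · exact h2 j hk
  rw [h, prod_prod, infinitePi_pi _ fun i _ => ht _, infinitePi_pi _ fun j _ => ht _]
  conv_rhs => rw [← Finset.toLeft_disjSum_toRight (u := s)]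
  rw [Finset.prod_disjSum]

/-- Updating one coordinate by an independent variable. -/
lemma mp_update {n : ℕ} (i : Fin n) :
    MeasurePreserving (fun (p : X × (Fin n → X)) => update p.2 i p.1)
      (P.prod (iid (Fin n) P)) (iid (Fin n) P) := by
  have hm : Measurable (fun (p : X × (Fin n → X)) => update p.2 i p.1) := by
    refine measurable_pi_lambda _ fun k => ?_
    by_cases hk : k = i
    · subst hk
      simpa using measurable_fst
    · simp only [update_of_ne hk]
      exact (measurable_pi_apply k).comp measurable_snd
  refine ⟨hm, ?_⟩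
  refine eq_infinitePi _ fun s t ht => ?_
  classical
  rw [map_apply hm (.pi s.countable_toSet fun _ _ => ht _)]
  by_cases hi : i ∈ s
  · have h : (fun (p : X × (Fin n → X)) => update p.2 i p.1) ⁻¹' ((s : Set (Fin n)).pi t) =
        (t i) ×ˢ (((s.erase i : Finset (Fin n)) : Set (Fin n)).pi t) := by
      ext ⟨b, z⟩
      simp only [mem_preimage, Set.mem_pi, Finset.mem_coe, mem_prod, Finset.mem_erase]
      constructor
      · intro h
        refine ⟨by simpa using h i hi, fun k hk => ?_⟩
        simpa [update_of_ne hk.1] using h k hk.2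
      · rintro ⟨h1, h2⟩ k hk
        by_cases hki : k = i
        · subst hki; simpa using h1
        · simpa [update_of_ne hki] using h2 k ⟨hki, hk⟩
    rw [h, prod_prod, infinitePi_pi _ fun i _ => ht _]
    exact Finset.mul_prod_erase s (fun i => P (t i)) hi
  · have h : (fun (p : X × (Fin n → X)) => update p.2 i p.1) ⁻¹' ((s : Set (Fin n)).pi t) =
        univ ×ˢ ((s : Set (Fin n)).pi t) := by
      ext ⟨b, z⟩
      simp only [mem_preimage, Set.mem_pi, Finset.mem_coe, mem_prod, mem_univ, true_and]
      refine forall₂_congr fun k hk => ?_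
      have hki : k ≠ i := fun h => hi (h ▸ hk)
      simp [update_of_ne hki]
    rw [h, prod_prod, infinitePi_pi _ fun i _ => ht _, measure_univ, one_mul]

/-- Choice of a good value for a coordinate. -/
lemma exists_update {n : ℕ} (i : Fin n) {B : Set (Fin n → X)} (hB : MeasurableSet B) :
    ∃ b : X, iid (Fin n) P {z | update z i b ∈ B} ≤ iid (Fin n) P B := by
  have h := (mp_update P i).measure_preimage hB.nullMeasurableSet
  rw [← h, Measure.prod_apply ((mp_update P i).measurable hB)]
  exact exists_le_lintegral (measurable_measure_prodMk_left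
    ((mp_update P i).measurable hB)).aemeasurable

/-- Mixing two independent copies. -/
lemma mp_mix {N : Set I} [DecidablePred (· ∈ N)] :
    MeasurePreserving (fun p : (I → X) × (I → X) => fun u => if u ∈ N then p.1 u else p.2 u)
      ((iid I P).prod (iid I P)) (iid I P) := by
  have h1 := (mp_comp P (I := I) (J := I ⊕ I) (j := fun u => if u ∈ N then Sum.inl u else Sum.inr u)
      (by
        intro u v h
        simp only at h
        split_ifs at h <;> simp_all)).comp (mp_sum P (I := I) (J := I))
  have h2 : ((fun (z : I ⊕ I → X) (i : I) => z (if i ∈ N then Sum.inl i else Sum.inr i)) ∘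
      fun p : (I → X) × (I → X) => Sum.elim p.1 p.2) =
      fun p : (I → X) × (I → X) => fun u => if u ∈ N then p.1 u else p.2 u := by
    funext p u
    simp only [comp_apply]
    split_ifs <;> rfl
  rwa [h2] at h1

/-- Choice of good values off the set `N`. -/
lemma exists_freeze {N : Set I} [DecidablePred (· ∈ N)] {B : Set (I → X)} (hB : MeasurableSet B) :
    ∃ y' : I → X, iid I P {y | (fun u => if u ∈ N then y u else y' u) ∈ B} ≤ iid I P B := by
  have h := (mp_mix P (N := N)).measure_preimage hB.nullMeasurableSet
  rw [← h, Measure.prod_apply_symm ((mp_mix P).measurable hB)]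
  exact exists_le_lintegral (measurable_measure_prodMk_right
    ((mp_mix P).measurable hB)).aemeasurable

end general

end Pool.Agent.V7H98.TC
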