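import Pool.Agent.V7H98.TCDefs

/-!
# The hierarchical objects of the construction
-/

open Set Function

namespace Pool.Agent.V7H98.TC

variable {d : ℕ}

/-- `u` and `v` are at sup-distance at most `n` -/
def near (n : ℕ) (u v : Site d) : Prop := ∀ i, |u i - v i| ≤ n

lemma near_refl (n : ℕ) (u : Site d) : near n u u := fun i => by simp

lemma near_symm {n : ℕ} {u v : Site d} (h : near n u v) : near n v u := fun i => by
  rw [abs_sub_comm]; exact h i

lemma near_trans {m n : ℕ} {u v w : Site d} (h : near m u v) (h' : near n v w) :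
    near (m + n) u w := fun i => by
  have h1 := h i
  have h2 := h' i
  rw [abs_le] at h1 h2 ⊢
  push_cast
  omega

lemma near_mono {m n : ℕ} {u v : Site d} (h : near m u v) (hmn : m ≤ n) : near n u v :=
  fun i => (h i).trans (by exact_mod_cast hmn)

lemma near_add {n : ℕ} {u v : Site d} (a : Site d) : near n (u + a) (v + a) ↔ near n u v := by
  unfold near
  simp

/-- the spreads -/
def EE (N : ℕ) : ℕ → ℕ
  | 0 => 0
  | k + 1 => 4 * EE N k + 2 * (N * (3 * EE N k + 8)) + 8

/-- the margins -/
def ss (N k : ℕ) : ℕ := 3 * EE N k + 8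

/-- the radii -/
def rr (N k : ℕ) : ℕ := N * ss N k

lemma EE_succ (N k : ℕ) : EE N (k + 1) = 4 * EE N k + 2 * rr N k + 8 := rfl

lemma ss_succ (N k : ℕ) : ss N (k + 1) = (6 * N + 4) * ss N k := by
  unfold ss
  rw [EE_succ]
  unfold rr ss
  ring

lemma ss_eq (N k : ℕ) : ss N k = 8 * (6 * N + 4) ^ k := by
  induction k with
  | zero => simp [ss, EE]
  | succ k ih => rw [ss_succ, ih]; ring

lemma EE_mono (N : ℕ) : Monotone (EE N) :=
  monotone_nat_of_le_succ fun k => by rw [EE_succ]; omega

lemma EE_lt {N j k : ℕ} (h : j < k) : 2 * rr N j + 8 ≤ EE N k :=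
  le_trans (by rw [EE_succ]; omega) (EE_mono N h)

lemma rr_ge {N : ℕ} (hN : 1 ≤ N) (k : ℕ) : 3 * EE N k + 8 ≤ rr N k :=
  Nat.le_mul_of_pos_left _ hN

/-- the cells, given by relative centres -/
abbrev Kap (d : ℕ) := ℕ → Site d → Option (Site d)

section objects

variable (N : ℕ) (κ : Kap d)

/-- the cell of centre `c` -/
def VV (k : ℕ) (c : Site d) : Set (Site d) := {v | near (rr N k) v c ∧ κ k v = some (c - v)}

/-- the shrunken cell of centre `c` -/
def VM (k : ℕ) (c : Site d) : Set (Site d) := {v | ∀ u, near (ss N k) u v → u ∈ VV N κ k c}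

/-- the sites of the object of level `k` and centre `c`: the shrunken cell, closed under
absorption of the objects of lower level -/
inductive InO : ℕ → Site d → Site d → Prop
  | base {k : ℕ} {c v : Site d} : v ∈ VM N κ k c → InO k c v
  | absorb {k j : ℕ} {c c' x z x' w : Site d} : j < k → InO j c' x → InO k c z → near 4 x z →
      InO j c' x' → near 4 w x' → InO k c w

/-- closed under absorption -/
def Abs (m : ℕ) (Z : Set (Site d)) : Prop :=
  ∀ j < m, ∀ c' x z x' w, InO N κ j c' x → z ∈ Z → near 4 x z → InO N κ j c' x' → near 4 w x' →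
    w ∈ Z

variable {N κ}

lemma InO_min : ∀ {k : ℕ} {c v : Site d}, InO N κ k c v → ∀ Z : Set (Site d), VM N κ k c ⊆ Z →
    Abs N κ k Z → v ∈ Z := by
  intro k c v h
  induction h with
  | base hv => intro Z h1 _; exact h1 hv
  | absorb hj hx hz hxz hx' hw ihx ihz ihx' =>
    intro Z h1 h2
    exact h2 _ hj _ _ _ _ _ hx (ihz Z h1 h2) hxz hx' hw

/-- every set has a closed superset that is not much larger -/
def Spread (N : ℕ) (κ : Kap d) (m : ℕ) : Prop :=
  ∀ Z : Set (Site d), ∃ W : Set (Site d), Z ⊆ W ∧ Abs N κ m W ∧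
    ∀ w ∈ W, ∃ z ∈ Z, near (EE N m) w z

lemma InO_near_VM_of {m : ℕ} (h : Spread N κ m) {c v : Site d} (hv : InO N κ m c v) :
    ∃ u ∈ VM N κ m c, near (EE N m) v u := by
  obtain ⟨W, h1, h2, h3⟩ := h (VM N κ m c)
  exact h3 v (InO_min hv W h1 h2)

lemma VM_sub {k : ℕ} {c v : Site d} (hv : v ∈ VM N κ k c) : v ∈ VV N κ k c :=
  hv v (near_refl _ _)

lemma InO_near_of {m : ℕ} (h : Spread N κ m) {c v : Site d} (hv : InO N κ m c v) :
    near (EE N m + rr N m) v c := by
  obtain ⟨u, hu, huv⟩ := InO_near_VM_of h hv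
  exact near_trans huv (VM_sub hu).1

lemma far_of {m : ℕ} (h : Spread N κ m) {c c' x x' : Site d} (hx : InO N κ m c x)
    (hx' : InO N κ m c' x') (hxx : near (EE N m + 8) x x') : c = c' := by
  obtain ⟨u, hu, hux⟩ := InO_near_VM_of h hx
  obtain ⟨u', hu', hux'⟩ := InO_near_VM_of h hx'
  have h1 : near (ss N m) u' u := by
    have := near_trans (near_trans (near_symm hux') (near_symm hxx)) hux
    exact near_mono this (by unfold ss; omega)
  have h2 := (hu u' h1).2
  have h3 := (VM_sub hu').2
  rw [h2] at h3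
  simpa using h3

lemma spread (m : ℕ) : Spread N κ m := by
  induction m with
  | zero =>
    intro Z
    refine ⟨Z, subset_refl _, ?_, fun w hw => ⟨w, hw, near_refl _ _⟩⟩
    intro j hj
    omega
  | succ m ih =>
    intro Z
    set Zp : Set (Site d) := Z ∪ {w | ∃ c' x y z, InO N κ m c' x ∧ near 4 w x ∧ InO N κ m c' y ∧
      z ∈ Z ∧ near (EE N m + 4) y z} with hZp
    obtain ⟨W, h1, h2, h3⟩ := ih Zp
    refine ⟨W, subset_union_left.trans h1, ?_, ?_⟩
    · intro j hj c' x z x' w hx hz hxz hx' hw
      rcases Nat.lt_succ_iff_lt_or_eq.1 hj with hj | rfl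
      · exact h2 j hj c' x z x' w hx hz hxz hx' hw
      · obtain ⟨p, hp, hzp⟩ := h3 z hz
        apply h1
        rcases hp with hp | ⟨c1, x1, y1, z1, hx1, hpx1, hy1, hz1, hyz1⟩
        · exact Or.inr ⟨c', x', x, p, hx', hw, hx, hp,
            near_mono (near_trans hxz hzp) (by omega)⟩
        · have hc : c' = c1 := far_of ih hx hx1
            (near_mono (near_trans (near_trans hxz hzp) hpx1) (by omega))
          subst hc
          exact Or.inr ⟨c', x', y1, z1, hx', hw, hy1, hz1, hyz1⟩
    · intro w hw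
      obtain ⟨p, hp, hwp⟩ := h3 w hw
      rcases hp with hp | ⟨c1, x1, y1, z1, hx1, hpx1, hy1, hz1, hyz1⟩
      · exact ⟨p, hp, near_mono hwp (EE_mono N (Nat.le_succ m))⟩
      · refine ⟨z1, hz1, ?_⟩
        have a1 := InO_near_of ih hx1
        have a2 := near_symm (InO_near_of ih hy1)
        refine near_mono (near_trans (near_trans (near_trans (near_trans hwp hpx1) a1) a2) hyz1) ?_
        rw [EE_succ]
        omega

lemma InO_near {m : ℕ} {c v : Site d} (hv : InO N κ m c v) : near (EE N m + rr N m) v c :=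
  InO_near_of (spread m) hv

lemma far {m : ℕ} {c c' x x' : Site d} (hx : InO N κ m c x)
    (hx' : InO N κ m c' x') (hxx : near 8 x x') : c = c' :=
  far_of (spread m) hx hx' (near_mono hxx (by omega))

/-- an object of lower level that comes close is absorbed with its neighbourhood -/
lemma absorbed {j k : ℕ} {c c' x z x' w : Site d} (hj : j < k) (hx : InO N κ j c' x)
    (hz : InO N κ k c z) (hxz : near 4 x z) (hx' : InO N κ j c' x') (hw : near 4 w x') :
    InO N κ k c w := InO.absorb hj hx hz hxz hx' hw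

end objects

section locality

/-- agreement up to level `k` on the box of radius `r` around `c` -/
def Agree (k : ℕ) (c : Site d) (r : ℕ) (κ κ' : Kap d) : Prop :=
  ∀ j ≤ k, ∀ u, near r u c → κ j u = κ' j u

lemma Agree.symm {k : ℕ} {c : Site d} {r : ℕ} {κ κ' : Kap d} (h : Agree k c r κ κ') :
    Agree k c r κ' κ := fun j hj u hu => (h j hj u hu).symm

lemma Agree.sub {k j : ℕ} {c c' : Site d} {r s n : ℕ} {κ κ' : Kap d} (h : Agree k c r κ κ')
    (hj : j ≤ k) (hc : near n c' c) (hr : s + n ≤ r) : Agree j c' s κ κ' :=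
  fun i hi u hu => h i (hi.trans hj) u (near_mono (near_trans hu hc) hr)

variable {N : ℕ} {κ κ' : Kap d}

lemma VM_local {k : ℕ} {c : Site d} (h : Agree k c (rr N k) κ κ') :
    VM N κ k c ⊆ VM N κ' k c := by
  intro v hv u hu
  have h1 := hv u hu
  exact ⟨h1.1, by rw [← h k (le_refl _) u h1.1]; exact h1.2⟩

lemma InO_local (hN : 1 ≤ N) (k : ℕ) : ∀ {κ κ' : Kap d} {c : Site d},
    Agree k c (3 * rr N k) κ κ' → ∀ v, InO N κ k c v → InO N κ' k c v := by
  induction k using Nat.strong_induction_on with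
  | _ k ih =>
    intro κ κ' c h v hv
    refine InO_min hv {v | InO N κ' k c v} ?_ ?_
    · intro u hu
      refine InO.base (VM_local (fun j hj w hw => h j hj w (near_mono hw (by omega))) hu)
    · intro j hj c' x z x' w hx hz hxz hx' hw
      have hz' : InO N κ' k c z := hz
      have hc : near ((EE N j + rr N j) + 4 + (EE N k + rr N k)) c' c :=
        near_trans (near_trans (near_symm (InO_near hx)) hxz) (InO_near hz')
      have hr : 3 * rr N j + ((EE N j + rr N j) + 4 + (EE N k + rr N k)) ≤ 3 * rr N k := by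
        have h1 := EE_lt (N := N) hj
        have h2 := rr_ge hN k
        have h3 := EE_mono N hj.le
        omega
      have hag : Agree j c' (3 * rr N j) κ κ' := h.sub hj.le hc hr
      exact InO.absorb hj (ih j hj hag x hx) hz' hxz (ih j hj hag x' hx') hw

end locality

section shift

/-- the translate of the cells -/
def shK (a : Site d) (κ : Kap d) : Kap d := fun k => sh a (κ k)

variable {N : ℕ}

lemma VV_shift (a : Site d) (κ : Kap d) (k : ℕ) (c v : Site d) :
    v ∈ VV N (shK a κ) k c ↔ v + a ∈ VV N κ k (c + a) := by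
  unfold VV
  simp only [mem_ofPred_eq, near_add, shK, sh, add_sub_add_right_eq_sub]

lemma VM_shift (a : Site d) (κ : Kap d) (k : ℕ) (c v : Site d) :
    v ∈ VM N (shK a κ) k c ↔ v + a ∈ VM N κ k (c + a) := by
  constructor
  · intro h u hu
    have h1 := (VV_shift (N := N) a κ k c (u - a)).1 (h (u - a) (by
      rw [← near_add a]; simpa using hu))
    simpa using h1
  · intro h u hu
    exact (VV_shift a κ k c u).2 (h (u + a) ((near_add a).2 hu))

lemma InO_shift_mp (a : Site d) (κ : Kap d) {k : ℕ} {c v : Site d}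
    (h : InO N (shK a κ) k c v) : InO N κ k (c + a) (v + a) := by
  induction h with
  | base hv => exact InO.base ((VM_shift a κ _ _ _).1 hv)
  | absorb hj hx hz hxz hx' hw ihx ihz ihx' =>
    exact InO.absorb hj ihx ihz ((near_add a).2 hxz) ihx' ((near_add a).2 hw)

lemma shK_shK (a b : Site d) (κ : Kap d) : shK a (shK b κ) = shK (a + b) κ := by
  funext k
  exact sh_sh a b _

lemma shK_zero (κ : Kap d) : shK 0 κ = κ := by
  funext k v
  simp [shK, sh]

lemma InO_shift (a : Site d) (κ : Kap d) {k : ℕ} {c v : Site d} :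
    InO N (shK a κ) k c v ↔ InO N κ k (c + a) (v + a) := by
  refine ⟨InO_shift_mp a κ, fun h => ?_⟩
  have h1 : InO N (shK (-a) (shK a κ)) k (c + a) (v + a) := by
    rw [shK_shK]
    simpa [shK_zero] using h
  have h2 := InO_shift_mp (-a) (shK a κ) h1
  simpa using h2

end shift

end Pool.Agent.V7H98.TC
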