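import Pool.Agent.V7H98.TCPath

/-!
# Lower bound on the tail of the coding radius of a three-colouring
-/

open MeasureTheory Measure Set Function
open scoped ENNReal

namespace Pool.Agent.V7H98.TC

/-- The sites of the lattice. -/
abbrev Site (d : ℕ) : Type := Fin d → ℤ

/-- The translate of a configuration. -/
def sh {d : ℕ} {E : Type*} (a : Site d) (y : Site d → E) : Site d → E := fun v => y (v + a)

/-- Sup-norm boxes. -/
def Bx {d : ℕ} (a : Site d) (r : ℕ) : Set (Site d) := {u | ∀ k, |u k - a k| ≤ r}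

section basic

variable {d : ℕ} {Λ : Type*} [MeasurableSpace Λ] (ν : Measure Λ) [IsProbabilityMeasure ν]

lemma measurable_sh (a : Site d) : Measurable (sh a : (Site d → Λ) → Site d → Λ) :=
  measurable_reindex _

lemma mp_sh (a : Site d) : MeasurePreserving (sh a) (iid (Site d) ν) (iid (Site d) ν) :=
  mp_comp ν (add_left_injective a)

lemma mp_mix3 {j : Site d → Fin 3 × Site d} (hj : Injective j) :
    MeasurePreserving (fun (z : Fin 3 → Site d → Λ) (u : Site d) => z (j u).1 (j u).2)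
      (P3 (iid (Site d) ν)) (iid (Site d) ν) := by
  have h1 : MeasurePreserving (MeasurableEquiv.curry (Fin 3) (Site d) Λ).symm
      (P3 (iid (Site d) ν)) (iid (Fin 3 × Site d) ν) :=
    ⟨MeasurableEquiv.measurable _, infinitePi_map_curry_symm fun _ _ => ν⟩
  exact (mp_comp ν hj).comp h1

lemma sh_sh (a b : Site d) {E : Type*} (y : Site d → E) : sh a (sh b y) = sh (a + b) y := by
  funext v
  simp [sh, add_assoc]

end basic

section planar

variable {d : ℕ} (i0 i1 : Fin d)

/-- the point with coordinates `i`, `j` in the directions `i0`, `i1` -/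
def pt (i j : ℤ) : Site d := Pi.single i0 i + Pi.single i1 j

variable {i0 i1}

lemma pt_0 (h : i0 ≠ i1) (i j : ℤ) : pt i0 i1 i j i0 = i := by
  simp [pt, h]

lemma pt_1 (h : i0 ≠ i1) (i j : ℤ) : pt i0 i1 i j i1 = j := by
  simp [pt, h.symm]

lemma pt_k {k : Fin d} (h0 : k ≠ i0) (h1 : k ≠ i1) (i j : ℤ) : pt i0 i1 i j k = 0 := by
  simp [pt, h0, h1]

lemma pt_add (i j i' j' : ℤ) : pt i0 i1 i j + pt i0 i1 i' j' = pt i0 i1 (i + i') (j + j') := by
  simp only [pt, Pi.single_add]
  abel

lemma pt_zero : pt i0 i1 0 0 = 0 := by simp [pt]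

lemma Bx_cases (h : i0 ≠ i1) {u : Site d} {i j : ℤ} {r : ℕ} :
    u ∈ Bx (pt i0 i1 i j) r ↔
      (|u i0 - i| ≤ r ∧ |u i1 - j| ≤ r ∧ ∀ k, k ≠ i0 → k ≠ i1 → |u k| ≤ r) := by
  constructor
  · intro hu
    refine ⟨by simpa [pt_0 h] using hu i0, by simpa [pt_1 h] using hu i1, fun k h0 h1 => ?_⟩
    simpa [pt_k h0 h1] using hu k
  · rintro ⟨h0, h1, h2⟩ k
    by_cases hk0 : k = i0
    · subst hk0; simpa [pt_0 h] using h0
    by_cases hk1 : k = i1
    · subst hk1; simpa [pt_1 h] using h1
    simpa [pt_k hk0 hk1] using h2 k hk0 hk1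

/-- boxes around distant points are disjoint -/
lemma Bx_disj (h : i0 ≠ i1) {u : Site d} {i i' : ℤ} {r : ℕ} (hi : 2 * (r : ℤ) + 1 ≤ |i - i'|)
    (h1 : u ∈ Bx (pt i0 i1 i 0) r) (h2 : u ∈ Bx (pt i0 i1 i' 0) r) : False := by
  have a := ((Bx_cases h).1 h1).1
  have b := ((Bx_cases h).1 h2).1
  have : |i - i'| ≤ |u i0 - i| + |u i0 - i'| := by
    have := abs_sub_abs_le_abs_sub (u i0 - i) (u i0 - i')
    have e : i - i' = (u i0 - i') - (u i0 - i) := by ring
    rw [e]
    refine (abs_sub _ _).trans ?_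
    linarith
  linarith

/-- the sites seen by the upper path -/
def N1 (i0 i1 : Fin d) (r l M : ℕ) : Set (Site d) :=
  {u | ∃ p ∈ Gam l M, u ∈ Bx (pt i0 i1 p.1 p.2) r}

/-- the sites seen by the lower path -/
def N2 (i0 i1 : Fin d) (r l M : ℕ) : Set (Site d) :=
  {u | ∃ p ∈ Gam l M, u ∈ Bx (pt i0 i1 p.1 (-p.2)) r}

lemma N12 (h : i0 ≠ i1) {r l M : ℕ} (hM : 2 * r + 1 ≤ M) (hl : 2 * r + 1 ≤ l) {u : Site d}
    (h1 : u ∈ N1 i0 i1 r l M) (h2 : u ∈ N2 i0 i1 r l M) :
    u ∈ Bx (pt i0 i1 0 0) r ∨ u ∈ Bx (pt i0 i1 l 0) r := by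
  obtain ⟨⟨i, j⟩, hp, hu⟩ := h1
  obtain ⟨⟨i', j'⟩, hp', hu'⟩ := h2
  rw [mem_Gam] at hp hp'
  rw [Bx_cases h] at hu hu'
  simp only at hu hu'
  obtain ⟨a1, a2, a3⟩ := hu
  obtain ⟨b1, b2, b3⟩ := hu'
  rw [abs_le] at a1 a2 b1 b2
  rw [Bx_cases h, Bx_cases h, abs_le, abs_le, abs_le]
  rcases hp with hp | hp | hp <;> rcases hp' with hp' | hp' | hp'
  · left; refine ⟨?_, ?_, a3⟩ <;> omega
  · exfalso; omega
  · exfalso; omega
  · exfalso; omega
  · exfalso; omega
  · exfalso; omega
  · exfalso; omega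
  · exfalso; omega
  · right; refine ⟨?_, ?_, a3⟩ <;> omega

end planar

section local_rules

variable {d : ℕ} {Λ : Type*} [MeasurableSpace Λ]

/-- `x` depends only on the box of radius `r` -/
def Loc (r : ℕ) {E : Type*} (x : (Site d → Λ) → E) : Prop :=
  ∀ y y', (∀ u ∈ Bx (0 : Site d) r, y u = y' u) → x y = x y'

variable (i0 i1 : Fin d)

/-- the planar field generated by a rule -/
def fld (x : (Site d → Λ) → ZMod 3) (y : Site d → Λ) : ℤ → ℤ → ZMod 3 :=
  fun i j => x (sh (pt i0 i1 i j) y)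

variable {i0 i1}

lemma fld_sh (x : (Site d → Λ) → ZMod 3) (y : Site d → Λ) (l i j : ℤ) :
    fld i0 i1 x (sh (pt i0 i1 l 0) y) i j = fld i0 i1 x y (i + l) j := by
  unfold fld
  rw [sh_sh, pt_add, add_zero]

lemma measurable_fld {x : (Site d → Λ) → ZMod 3} (hx : Measurable x) (i j : ℤ) :
    Measurable fun y => fld i0 i1 x y i j := hx.comp (measurable_sh _)

lemma measurable_dl {Ω : Type*} [MeasurableSpace Ω] {a b : Ω → ZMod 3} (ha : Measurable a)
    (hb : Measurable b) : Measurable fun y => dl (a y) (b y) :=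
  (measurable_of_countable (fun p : ZMod 3 × ZMod 3 => dl p.1 p.2)).comp (ha.prodMk hb)

lemma measurable_gam {Ω : Type*} [MeasurableSpace Ω] {c : Ω → ℤ → ℤ → ZMod 3}
    (hc : ∀ i j, Measurable fun y => c y i j) (l M : ℕ) : Measurable fun y => gam (c y) l M := by
  unfold gam up hor
  refine ((Finset.measurable_sum _ fun i _ => measurable_dl (hc _ _) (hc _ _)).add
    (Finset.measurable_sum _ fun i _ => measurable_dl (hc _ _) (hc _ _))).sub
    (Finset.measurable_sum _ fun i _ => measurable_dl (hc _ _) (hc _ _))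

lemma measurable_hor {Ω : Type*} [MeasurableSpace Ω] {c : Ω → ℤ → ℤ → ZMod 3}
    (hc : ∀ i j, Measurable fun y => c y i j) (j : ℤ) (l : ℕ) :
    Measurable fun y => hor (c y) j l := by
  unfold hor
  exact Finset.measurable_sum _ fun i _ => measurable_dl (hc _ _) (hc _ _)

lemma fld_local {r : ℕ} {x : (Site d → Λ) → ZMod 3} (hx : Loc r x) {i j : ℤ} {y y' : Site d → Λ}
    (h : ∀ u ∈ Bx (pt i0 i1 i j) r, y u = y' u) : fld i0 i1 x y i j = fld i0 i1 x y' i j := by
  refine hx _ _ fun u hu => h _ fun k => ?_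
  have := hu k
  simpa using this

end local_rules

section main

variable {d : ℕ} {i0 i1 : Fin d} {Λ : Type*} [MeasurableSpace Λ] (ν : Measure Λ)
  [IsProbabilityMeasure ν]

lemma prob_fld {x x' : (Site d → Λ) → ZMod 3} (hx : Measurable x) (hx' : Measurable x')
    (i j : ℤ) : iid (Site d) ν {y | fld i0 i1 x' y i j ≠ fld i0 i1 x y i j} =
      iid (Site d) ν {y | x' y ≠ x y} :=
  (mp_sh ν (pt i0 i1 i j)).measure_preimage
    (measurableSet_eq_fun hx' hx).compl.nullMeasurableSet

lemma prob_gam {x x' : (Site d → Λ) → ZMod 3} (hx : Measurable x) (hx' : Measurable x')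
    (hP : ∀ᵐ y ∂ iid (Site d) ν, Prop2 (fld i0 i1 x y)) (l M : ℕ) :
    iid (Site d) ν {y | hor (fld i0 i1 x y) 0 l ≠ gam (fld i0 i1 x' y) l M} ≤
      (Gam l M).card * iid (Site d) ν {y | x' y ≠ x y} := by
  have h1 : {y | hor (fld i0 i1 x y) 0 l ≠ gam (fld i0 i1 x' y) l M} ⊆
      {y | ¬ Prop2 (fld i0 i1 x y)} ∪
        ⋃ p ∈ Gam l M, {y | fld i0 i1 x' y p.1 p.2 ≠ fld i0 i1 x y p.1 p.2} := by
    intro y hy
    by_contra hcon
    simp only [mem_union, mem_ofPred_eq, mem_iUnion, not_or, not_not, not_exists] at hcon hy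
    apply hy
    rw [← gam_eq hcon.1 l M]
    exact (gam_congr fun p hp => hcon.2 p hp).symm
  refine (measure_mono h1).trans ((measure_union_le _ _).trans ?_)
  rw [ae_iff.1 hP, zero_add]
  refine (measure_biUnion_finset_le _ _).trans ?_
  simp only [prob_fld ν hx hx']
  simp

lemma prob_gam' {x x' : (Site d → Λ) → ZMod 3} (hx : Measurable x) (hx' : Measurable x')
    (hP : ∀ᵐ y ∂ iid (Site d) ν, Prop2 (fld i0 i1 x y)) (l M : ℕ) :
    iid (Site d) ν {y | hor (fld i0 i1 x y) 0 l ≠ gam (refl (fld i0 i1 x' y)) l M} ≤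
      (Gam l M).card * iid (Site d) ν {y | x' y ≠ x y} := by
  have h1 : {y | hor (fld i0 i1 x y) 0 l ≠ gam (refl (fld i0 i1 x' y)) l M} ⊆
      {y | ¬ Prop2 (fld i0 i1 x y)} ∪
        ⋃ p ∈ Gam l M, {y | fld i0 i1 x' y p.1 (-p.2) ≠ fld i0 i1 x y p.1 (-p.2)} := by
    intro y hy
    by_contra hcon
    simp only [mem_union, mem_ofPred_eq, mem_iUnion, not_or, not_not, not_exists] at hcon hy
    apply hy
    rw [← hor_refl, ← gam_eq (prop2_refl hcon.1) l M]
    exact (gam_congr fun p hp => hcon.2 p hp).symm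
  refine (measure_mono h1).trans ((measure_union_le _ _).trans ?_)
  rw [ae_iff.1 hP, zero_add]
  refine (measure_biUnion_finset_le _ _).trans ?_
  simp only [prob_fld ν hx hx']
  simp

lemma exists_g (h01 : i0 ≠ i1) {r : ℕ} {x x' : (Site d → Λ) → ZMod 3} (hx : Measurable x)
    (hx' : Measurable x') (hloc : Loc r x')
    (hP : ∀ᵐ y ∂ iid (Site d) ν, Prop2 (fld i0 i1 x y)) (l : ℕ) :
    ∃ g : (Site d → Λ) → ℤ, Measurable g ∧ (2 * r + 1 ≤ l →
      (∀ y y', (∀ u ∈ Bx (pt i0 i1 0 0) r, y u = y' u) → (∀ u ∈ Bx (pt i0 i1 l 0) r, y u = y' u) →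
        g y = g y') ∧
      iid (Site d) ν {y | hor (fld i0 i1 x y) 0 l ≠ g y} ≤
        3 * ((Gam l (2 * r + 1)).card * iid (Site d) ν {y | x' y ≠ x y})) := by
  classical
  set M := 2 * r + 1 with hM
  set B : Set (Site d → Λ) :=
    {y | gam (fld i0 i1 x' y) l M ≠ gam (refl (fld i0 i1 x' y)) l M} with hB
  have hm1 : Measurable fun y => gam (fld i0 i1 x' y) l M :=
    measurable_gam (fun i j => measurable_fld hx' i j) l M
  have hm2 : Measurable fun y => gam (refl (fld i0 i1 x' y)) l M :=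
    measurable_gam (fun i j => measurable_fld hx' i (-j)) l M
  have hBm : MeasurableSet B := (measurableSet_eq_fun hm1 hm2).compl
  obtain ⟨y0, hy0⟩ := exists_freeze ν (N := N1 i0 i1 r l M) hBm
  set mx : (Site d → Λ) → Site d → Λ :=
    fun y u => if u ∈ N1 i0 i1 r l M then y u else y0 u with hmx
  have hmm : Measurable mx := by
    refine measurable_pi_lambda _ fun u => ?_
    by_cases hu : u ∈ N1 i0 i1 r l M
    · simp only [hmx, hu, if_true]; exact measurable_pi_apply u
    · simp only [hmx, hu, if_false]; exact measurable_const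
  refine ⟨fun y => gam (refl (fld i0 i1 x' (mx y))) l M, hm2.comp hmm, fun hl => ⟨?_, ?_⟩⟩
  · intro y y' h1 h2
    refine gam_congr fun p hp => ?_
    refine fld_local hloc fun u hu => ?_
    simp only [hmx]
    split_ifs with hu1
    · rcases N12 h01 (le_refl _) hl hu1 ⟨p, hp, hu⟩ with h3 | h3
      · exact h1 u h3
      · exact h2 u h3
    · rfl
  · set q := iid (Site d) ν {y | x' y ≠ x y} with hq
    have hA := prob_gam ν hx hx' hP l M
    have hA' := prob_gam' ν hx hx' hP l M
    have hBq : iid (Site d) ν B ≤ (Gam l M).card * q + (Gam l M).card * q := by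
      refine le_trans (measure_mono ?_) ((measure_union_le _ _).trans (add_le_add hA hA'))
      intro y hy
      by_contra hcon
      simp only [mem_union, mem_ofPred_eq, not_or, not_not, hB] at hcon hy
      exact hy (by rw [← hcon.1, ← hcon.2])
    have h3 : {y | hor (fld i0 i1 x y) 0 l ≠ gam (refl (fld i0 i1 x' (mx y))) l M} ⊆
        {y | hor (fld i0 i1 x y) 0 l ≠ gam (fld i0 i1 x' y) l M} ∪ {y | mx y ∈ B} := by
      intro y hy
      by_contra hcon
      simp only [mem_union, mem_ofPred_eq, not_or, not_not, hB] at hcon hy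
      apply hy
      rw [hcon.1, ← hcon.2]
      refine gam_congr fun p hp => fld_local hloc fun u hu => ?_
      simp only [hmx]
      rw [if_pos ⟨p, hp, hu⟩]
    refine (measure_mono h3).trans ((measure_union_le _ _).trans ?_)
    refine (add_le_add hA (hy0.trans hBq)).trans (le_of_eq ?_)
    ring

/-- gluing of two configurations -/
noncomputable def glue (i0 i1 : Fin d) (r l : ℕ) (a b : Site d → Λ) : Site d → Λ := by
  classical
  exact fun u => if u ∈ Bx (pt i0 i1 l 0) r then b (u - pt i0 i1 l 0) else a u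

lemma glue_pos {r l : ℕ} {a b : Site d → Λ} {u : Site d} (h : u ∈ Bx (pt i0 i1 l 0) r) :
    glue i0 i1 r l a b u = b (u - pt i0 i1 l 0) := by
  unfold glue; rw [if_pos h]

lemma glue_neg {r l : ℕ} {a b : Site d → Λ} {u : Site d} (h : u ∉ Bx (pt i0 i1 l 0) r) :
    glue i0 i1 r l a b u = a u := by
  unfold glue; rw [if_neg h]

lemma measurable_glue (r l : ℕ) :
    Measurable (uncurry (glue i0 i1 r l : (Site d → Λ) → (Site d → Λ) → Site d → Λ)) := by
  refine measurable_pi_lambda _ fun u => ?_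
  by_cases h : u ∈ Bx (pt i0 i1 l 0) r
  · simp only [uncurry_def, glue_pos h]
    exact (measurable_pi_apply _).comp measurable_snd
  · simp only [uncurry_def, glue_neg h]
    exact (measurable_pi_apply _).comp measurable_fst

/-- the index map of the triple gluing -/
noncomputable def jj (i0 i1 : Fin d) (r l m : ℕ) : Site d → Fin 3 × Site d := by
  classical
  exact fun u => if u ∈ Bx (pt i0 i1 l 0) r then (1, u - pt i0 i1 l 0) else
    if u ∈ Bx (pt i0 i1 (l + m) 0) r then (2, u - pt i0 i1 (l + m) 0) else (0, u)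

lemma jj_inj (r l m : ℕ) : Injective (jj i0 i1 r l m) := by
  intro u v h
  unfold jj at h
  split_ifs at h <;> simp_all

lemma jj_1 {r l m : ℕ} {u : Site d} (h : u ∈ Bx (pt i0 i1 l 0) r) :
    jj i0 i1 r l m u = (1, u - pt i0 i1 l 0) := by
  unfold jj; rw [if_pos h]

lemma jj_2 {r l m : ℕ} {u : Site d} (h : u ∉ Bx (pt i0 i1 l 0) r)
    (h' : u ∈ Bx (pt i0 i1 (l + m) 0) r) :
    jj i0 i1 r l m u = (2, u - pt i0 i1 (l + m) 0) := by
  unfold jj; rw [if_neg h, if_pos h']

lemma jj_0 {r l m : ℕ} {u : Site d} (h : u ∉ Bx (pt i0 i1 l 0) r)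
    (h' : u ∉ Bx (pt i0 i1 (l + m) 0) r) :
    jj i0 i1 r l m u = (0, u) := by
  unfold jj; rw [if_neg h, if_neg h']

lemma q_lower (h01 : i0 ≠ i1) {r : ℕ} (hr : 1 ≤ r) {x x' : (Site d → Λ) → ZMod 3}
    (hx : Measurable x) (hx' : Measurable x') (hloc : Loc r x')
    (hP : ∀ᵐ y ∂ iid (Site d) ν, Prop2 (fld i0 i1 x y)) :
    1 ≤ 9000 * (r : ℝ≥0∞) * iid (Site d) ν {y | x' y ≠ x y} := by
  classical
  set q := iid (Site d) ν {y | x' y ≠ x y} with hq
  set η : ℝ≥0∞ := 3 * ((20 * r + 13 : ℕ) * q) with hη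
  choose g hgm hg using exists_g ν h01 hx hx' hloc hP
  set L := 2 * r + 1 with hL
  have hgq : ∀ l, L ≤ l → l ≤ 8 * L →
      iid (Site d) ν {y | hor (fld i0 i1 x y) 0 l ≠ g l y} ≤ η := by
    intro l h1 h2
    refine ((hg l h1).2).trans ?_
    rw [hη]
    gcongr
    refine (Gam_card _ _).trans ?_
    omega
  have hgd : ∀ l, L ≤ l → ∀ y y', (∀ u ∈ Bx (pt i0 i1 0 0) r, y u = y' u) →
      (∀ u ∈ Bx (pt i0 i1 l 0) r, y u = y' u) → g l y = g l y' := fun l h1 => (hg l h1).1
  have hgset : ∀ l, MeasurableSet {y | hor (fld i0 i1 x y) 0 l ≠ g l y} := fun l =>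
    (measurableSet_eq_fun (measurable_hor (fun i j => measurable_fld hx i j) 0 l) (hgm l)).compl
  -- disjointness of the boxes
  have dj : ∀ {a b : ℤ}, (L : ℤ) ≤ |a - b| → ∀ {u : Site d}, u ∈ Bx (pt i0 i1 a 0) r →
      u ∉ Bx (pt i0 i1 b 0) r := by
    intro a b hab u h1 h2
    exact Bx_disj h01 (by rw [hL] at hab; push_cast at hab; linarith) h1 h2
  have hcoc : Coc (iid (Site d) ν) L (3 * η) x' (fun l a b => g l (glue i0 i1 r l a b)) := by
    refine ⟨fun l => (hgm l).comp (measurable_glue r l), hx', ?_, ?_⟩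
    · intro l m hl1 hl2 hm1 hm2
      set W : (Fin 3 → Site d → Λ) → Site d → Λ :=
        fun z u => z (jj i0 i1 r l m u).1 (jj i0 i1 r l m u).2 with hW
      have hWmp : MeasurePreserving W (P3 (iid (Site d) ν)) (iid (Site d) ν) :=
        mp_mix3 ν (jj_inj r l m)
      set A1 := {y : Site d → Λ | hor (fld i0 i1 x y) 0 l ≠ g l y} with hA1
      set A2 := {y : Site d → Λ | hor (fld i0 i1 x y) 0 m ≠ g m y} with hA2
      set A3 := {y : Site d → Λ | hor (fld i0 i1 x y) 0 (l + m) ≠ g (l + m) y} with hA3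
      have b1 : P3 (iid (Site d) ν) (W ⁻¹' A1) ≤ η := by
        rw [hWmp.measure_preimage (hgset l).nullMeasurableSet]
        exact hgq l hl1 (by omega)
      have b2 : P3 (iid (Site d) ν) (W ⁻¹' (sh (pt i0 i1 l 0) ⁻¹' A2)) ≤ η := by
        rw [hWmp.measure_preimage ((measurable_sh _) (hgset m)).nullMeasurableSet,
          (mp_sh ν _).measure_preimage (hgset m).nullMeasurableSet]
        exact hgq m hm1 (by omega)
      have b3 : P3 (iid (Site d) ν) (W ⁻¹' A3) ≤ η := by
        rw [hWmp.measure_preimage (hgset (l + m)).nullMeasurableSet]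
        exact hgq (l + m) (by omega) (by omega)
      have hlm : (((l + m : ℕ) : ℤ)) = (l : ℤ) + m := by push_cast; ring
      -- the three identifications
      have e1 : ∀ z, g l (glue i0 i1 r l (z 0) (z 1)) = g l (W z) := by
        intro z
        refine hgd l hl1 _ _ (fun u hu => ?_) (fun u hu => ?_)
        · have n1 : u ∉ Bx (pt i0 i1 l 0) r := dj (by rw [abs_sub_comm, abs_of_nonneg] <;> omega) hu
          have n2 : u ∉ Bx (pt i0 i1 (l + m) 0) r :=
            dj (by rw [abs_sub_comm, abs_of_nonneg] <;> omega) hu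
          simp only [hW]
          rw [glue_neg n1, jj_0 n1 n2]
        · simp only [hW]
          rw [glue_pos hu, jj_1 hu]
      have e2 : ∀ z, g m (glue i0 i1 r m (z 1) (z 2)) = g m (sh (pt i0 i1 l 0) (W z)) := by
        intro z
        refine hgd m hm1 _ _ (fun u hu => ?_) (fun u hu => ?_)
        · have n1 : u ∉ Bx (pt i0 i1 m 0) r := dj (by rw [abs_sub_comm, abs_of_nonneg] <;> omega) hu
          have n2 : u + pt i0 i1 l 0 ∈ Bx (pt i0 i1 l 0) r := by
            intro k
            have := hu k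
            rw [pt_zero] at this
            simpa using this
          simp only [hW, sh]
          rw [glue_neg n1, jj_1 n2, add_sub_cancel_right]
        · have n2 : u + pt i0 i1 l 0 ∈ Bx (pt i0 i1 (l + m) 0) r := by
            intro k
            have := hu k
            have e : pt i0 i1 ((l : ℤ) + m) 0 = pt i0 i1 (m : ℤ) 0 + pt i0 i1 (l : ℤ) 0 := by
              rw [pt_add]; congr 1; ring
            rw [e]
            simpa using this
          have n1 : u + pt i0 i1 l 0 ∉ Bx (pt i0 i1 l 0) r :=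
            dj (by rw [abs_of_nonneg] <;> omega) n2
          simp only [hW, sh]
          rw [glue_pos hu, jj_2 n1 n2]
          simp only
          congr 1
          have e : pt i0 i1 ((l : ℤ) + m) 0 = pt i0 i1 (m : ℤ) 0 + pt i0 i1 (l : ℤ) 0 := by
            rw [pt_add]; congr 1; ring
          rw [e]
          abel
      have e3 : ∀ z, g (l + m) (glue i0 i1 r (l + m) (z 0) (z 2)) = g (l + m) (W z) := by
        intro z
        refine hgd (l + m) (by omega) _ _ (fun u hu => ?_) (fun u hu => ?_)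
        · have n1 : u ∉ Bx (pt i0 i1 l 0) r := dj (by rw [abs_sub_comm, abs_of_nonneg] <;> omega) hu
          have n2 : u ∉ Bx (pt i0 i1 (l + m) 0) r :=
            dj (by rw [abs_sub_comm, abs_of_nonneg] <;> omega) hu
          simp only [hW]
          rw [glue_neg (by rw [hlm]; exact n2), jj_0 n1 n2]
        · have n2 : u ∈ Bx (pt i0 i1 (l + m) 0) r := by rw [hlm] at hu; exact hu
          have n1 : u ∉ Bx (pt i0 i1 l 0) r := dj (by rw [abs_of_nonneg] <;> omega) n2
          simp only [hW]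
          rw [glue_pos hu, jj_2 n1 n2, hlm]
      have hsub : {z : Fin 3 → Site d → Λ | g l (glue i0 i1 r l (z 0) (z 1)) +
          g m (glue i0 i1 r m (z 1) (z 2)) ≠ g (l + m) (glue i0 i1 r (l + m) (z 0) (z 2))} ⊆
          W ⁻¹' A1 ∪ (W ⁻¹' (sh (pt i0 i1 l 0) ⁻¹' A2) ∪ W ⁻¹' A3) := by
        intro z hz
        by_contra hcon
        simp only [mem_union, mem_preimage, mem_ofPred_eq, not_or, not_not, hA1, hA2, hA3]
          at hcon hz
        apply hz
        rw [e1, e2, e3, ← hcon.1, ← hcon.2.1, ← hcon.2.2, hor_add]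
        congr 1
        congr 1
        funext i j
        exact fld_sh x (W z) l i j
      refine (measure_mono hsub).trans ((measure_union_le _ _).trans ?_)
      refine (add_le_add b1 ((measure_union_le _ _).trans (add_le_add b2 b3))).trans (le_of_eq ?_)
      ring
    · intro l hl1 hl2
      set W : (Fin 3 → Site d → Λ) → Site d → Λ :=
        fun z u => z (jj i0 i1 r l l u).1 (jj i0 i1 r l l u).2 with hW
      have hWmp : MeasurePreserving W (P3 (iid (Site d) ν)) (iid (Site d) ν) :=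
        mp_mix3 ν (jj_inj r l l)
      set A1 := {y : Site d → Λ | hor (fld i0 i1 x y) 0 l ≠ g l y} with hA1
      set A2 := {y : Site d → Λ | x' y ≠ x y} with hA2
      set A0 := {y : Site d → Λ | ¬ Prop2 (fld i0 i1 x y)} with hA0
      have hA2m : MeasurableSet A2 := (measurableSet_eq_fun hx' hx).compl
      have b1 : P3 (iid (Site d) ν) (W ⁻¹' A1) ≤ η := by
        rw [hWmp.measure_preimage (hgset l).nullMeasurableSet]
        exact hgq l hl1 (by omega)
      have hqη : q ≤ η := by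
        rw [hη]
        have : q = 1 * (1 * q) := by ring
        calc q = 1 * ((1 : ℕ) * q) := by simp
          _ ≤ 3 * ((20 * r + 13 : ℕ) * q) := by
            gcongr
            · norm_num
            · omega
      have b2 : P3 (iid (Site d) ν) (W ⁻¹' A2) ≤ η := by
        rw [hWmp.measure_preimage hA2m.nullMeasurableSet]
        exact hqη
      have b3 : P3 (iid (Site d) ν) (W ⁻¹' (sh (pt i0 i1 l 0) ⁻¹' A2)) ≤ η := by
        rw [hWmp.measure_preimage ((measurable_sh _) hA2m).nullMeasurableSet,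
          (mp_sh ν _).measure_preimage hA2m.nullMeasurableSet]
        exact hqη
      have b0 : P3 (iid (Site d) ν) (W ⁻¹' A0) = 0 := by
        exact hWmp.quasiMeasurePreserving.preimage_null hP
      have e1 : ∀ z, g l (glue i0 i1 r l (z 0) (z 1)) = g l (W z) := by
        intro z
        refine hgd l hl1 _ _ (fun u hu => ?_) (fun u hu => ?_)
        · have n1 : u ∉ Bx (pt i0 i1 l 0) r := dj (by rw [abs_sub_comm, abs_of_nonneg] <;> omega) hu
          have n2 : u ∉ Bx (pt i0 i1 (l + l) 0) r :=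
            dj (by rw [abs_sub_comm, abs_of_nonneg] <;> omega) hu
          simp only [hW]
          rw [glue_neg n1, jj_0 n1 n2]
        · simp only [hW]
          rw [glue_pos hu, jj_1 hu]
      have e2 : ∀ z, x' (z 0) = x' (W z) := by
        intro z
        refine hloc _ _ fun u hu => ?_
        rw [← pt_zero (i0 := i0) (i1 := i1)] at hu
        have n1 : u ∉ Bx (pt i0 i1 l 0) r := dj (by rw [abs_sub_comm, abs_of_nonneg] <;> omega) hu
        have n2 : u ∉ Bx (pt i0 i1 (l + l) 0) r :=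
          dj (by rw [abs_sub_comm, abs_of_nonneg] <;> omega) hu
        simp only [hW]
        rw [jj_0 n1 n2]
      have e3 : ∀ z, x' (z 1) = x' (sh (pt i0 i1 l 0) (W z)) := by
        intro z
        refine hloc _ _ fun u hu => ?_
        have n2 : u + pt i0 i1 l 0 ∈ Bx (pt i0 i1 l 0) r := by
          intro k
          have := hu k
          simpa using this
        simp only [hW, sh]
        rw [jj_1 n2, add_sub_cancel_right]
      have hsub : {z : Fin 3 → Site d → Λ | ¬ (|g l (glue i0 i1 r l (z 0) (z 1))| ≤ (l : ℤ) ∧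
          (g l (glue i0 i1 r l (z 0) (z 1)) - (l : ℤ)) % 2 = 0 ∧
          ((g l (glue i0 i1 r l (z 0) (z 1)) : ℤ) : ZMod 3) = x' (z 1) - x' (z 0))} ⊆
          W ⁻¹' A0 ∪ (W ⁻¹' A1 ∪ (W ⁻¹' A2 ∪ W ⁻¹' (sh (pt i0 i1 l 0) ⁻¹' A2))) := by
        intro z hz
        by_contra hcon
        simp only [mem_union, mem_preimage, mem_ofPred_eq, not_or, not_not, hA0, hA1, hA2]
          at hcon hz
        obtain ⟨c0, c1, c2, c3⟩ := hcon
        apply hz
        rw [e1, e2, e3, ← c1, c2, c3]
        refine ⟨hor_abs _ _ _, hor_parity c0 _ _, ?_⟩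
        rw [hor_cast c0]
        unfold fld
        have : pt i0 i1 ((0 : ℤ)) 0 = 0 := pt_zero
        rw [this]
        congr 2
        funext v
        simp [sh]
      refine (measure_mono hsub).trans ((measure_union_le _ _).trans ?_)
      rw [b0, zero_add]
      refine (measure_union_le _ _).trans ?_
      refine (add_le_add b1 ((measure_union_le _ _).trans (add_le_add b2 b3))).trans (le_of_eq ?_)
      ring
  by_contra hcon
  push Not at hcon
  refine no_coc (by omega) ?_ hcoc
  refine lt_of_le_of_lt ?_ hcon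
  rw [hη]
  have h1 : ((20 * r + 13 : ℕ) : ℝ≥0∞) ≤ 33 * (r : ℝ≥0∞) := by
    have : 20 * r + 13 ≤ 33 * r := by omega
    exact_mod_cast this
  calc 30 * (3 * (3 * (((20 * r + 13 : ℕ) : ℝ≥0∞) * q)))
      ≤ 30 * (3 * (3 * ((33 * (r : ℝ≥0∞)) * q))) := by gcongr
    _ = 8910 * (r : ℝ≥0∞) * q := by ring
    _ ≤ 9000 * (r : ℝ≥0∞) * q := by gcongr; norm_num

end main

end Pool.Agent.V7H98.TC
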